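import Pool.Agent.D0H95.CS.SupMain

/-!
The size of the finite cluster of the origin, both regimes in one statement.
-/

set_option autoImplicit false
set_option maxHeartbeats 400000

namespace Pool.Agent.D0H95.CS

open MeasureTheory Filter Topology H974

/-- the rate of the exponential decay -/
noncomputable def rt (p : ℝ) (N : ℕ) : ℝ :=
  if p ≤ 1 / 2 then (N : ℝ) * (1 / 2 - p) ^ (91 / 36 : ℝ)
  else Real.sqrt ((N : ℝ) * (p - 1 / 2) ^ (91 / 36 : ℝ))

theorem rt_nonneg (p : ℝ) (N : ℕ) : 0 ≤ rt p N := by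
  unfold rt
  split_ifs with h
  · have : 0 ≤ 1 / 2 - p := by linarith
    positivity
  · exact Real.sqrt_nonneg _

/-- at and below `1/2` the cluster is finite -/
theorem inf_zero {p : unitInterval} (hp : (p : ℝ) ≤ 1 / 2) :
    (bondLaw p).real {ω | ¬ (cluster0 ω).Finite} = 0 := by
  obtain ⟨c, C, hc, hC, h⟩ := sub_main
  have h1 : ∀ N : ℕ, 1 ≤ N → (bondLaw p).real {ω | ¬ (cluster0 ω).Finite} ≤
      C * (N : ℝ) ^ (-(5 / 91 : ℝ)) := by
    intro N hN
    obtain ⟨-, h2⟩ := h p hp N hN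
    have h3 : (bondLaw p).real {ω | ¬ (cluster0 ω).Finite} ≤
        (bondLaw p).real {ω | (N : ℕ∞) ≤ (cluster0 ω).encard} := by
      refine measureReal_mono ?_ (measure_ne_top _ _)
      intro ω hω
      have h4 : (cluster0 ω).encard = ⊤ := Set.encard_eq_top hω
      show (N : ℕ∞) ≤ (cluster0 ω).encard
      rw [h4]
      exact le_top
    have h5 : 0 ≤ 1 / 2 - (p : ℝ) := by linarith
    refine (h3.trans h2).trans ?_
    calc C * (N : ℝ) ^ (-(5 / 91 : ℝ)) *
        Real.exp (-(c * ((N : ℝ) * (1 / 2 - (p : ℝ)) ^ (91 / 36 : ℝ)))) ≤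
        C * (N : ℝ) ^ (-(5 / 91 : ℝ)) * 1 := by
          apply mul_le_mul_of_nonneg_left _ (by positivity)
          rw [Real.exp_le_one_iff]
          have : 0 ≤ c * ((N : ℝ) * (1 / 2 - (p : ℝ)) ^ (91 / 36 : ℝ)) := by positivity
          linarith
      _ = _ := mul_one _
  have h2 : Tendsto (fun N : ℕ => C * (N : ℝ) ^ (-(5 / 91 : ℝ))) atTop (𝓝 (C * 0)) := by
    apply Tendsto.const_mul
    exact (tendsto_rpow_neg_atTop (by norm_num)).comp tendsto_natCast_atTop_atTop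
  rw [mul_zero] at h2
  apply le_antisymm _ measureReal_nonneg
  apply ge_of_tendsto h2
  filter_upwards [eventually_ge_atTop 1] with N hN
  exact h1 N hN

/-- **The law of the size of the finite cluster of the origin.** -/
theorem all_main : ∃ c C : ℝ, 0 < c ∧ 0 < C ∧ ∀ p : unitInterval, ∀ N : ℕ, 1 ≤ N →
    (1 / 4 ≤ (p : ℝ) → (p : ℝ) ≤ 3 / 4 →
      c * (N : ℝ) ^ (-(5 / 91 : ℝ)) * Real.exp (-(C * rt p N)) ≤
        (bondLaw p).real {ω | (N : ℕ∞) ≤ (cluster0 ω).encard ∧ (cluster0 ω).Finite}) ∧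
    (bondLaw p).real {ω | (N : ℕ∞) ≤ (cluster0 ω).encard ∧ (cluster0 ω).Finite} ≤
      C * (N : ℝ) ^ (-(5 / 91 : ℝ)) * Real.exp (-(c * rt p N)) := by
  obtain ⟨c1, C1, hc1, hC1, h1⟩ := sub_main
  obtain ⟨c2, C2, hc2, hC2, h2⟩ := sup_main
  refine ⟨min c1 c2, max C1 C2, lt_min hc1 hc2, lt_max_of_lt_left hC1, fun p N hN => ?_⟩
  have hr := rt_nonneg (p : ℝ) N
  have hN0 : 0 ≤ (N : ℝ) ^ (-(5 / 91 : ℝ)) := by positivity
  have key : ∀ c C c' C' : ℝ, 0 < c → c ≤ c' → C' ≤ C →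
      c * (N : ℝ) ^ (-(5 / 91 : ℝ)) * Real.exp (-(C * rt p N)) ≤
        c' * (N : ℝ) ^ (-(5 / 91 : ℝ)) * Real.exp (-(C' * rt p N)) := by
    intro c C c' C' h0 h3 h4
    have h5 : 0 < c' := by linarith
    apply mul_le_mul _ _ (Real.exp_pos _).le (by positivity)
    · exact mul_le_mul_of_nonneg_right h3 hN0
    · apply Real.exp_le_exp.mpr
      have := mul_le_mul_of_nonneg_right h4 hr
      linarith
  rcases le_or_gt (p : ℝ) (1 / 2) with hp | hp
  · have e1 : rt p N = (N : ℝ) * (1 / 2 - (p : ℝ)) ^ (91 / 36 : ℝ) := by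
      unfold rt
      rw [if_pos hp]
    obtain ⟨k1, k2⟩ := h1 p hp N hN
    rw [← e1] at k1 k2
    constructor
    · intro h3 _
      refine (key _ _ c1 C1 (lt_min hc1 hc2) (min_le_left _ _) (le_max_left _ _)).trans ?_
      refine (k1 h3).trans ?_
      have h4 : (bondLaw p).real {ω | (N : ℕ∞) ≤ (cluster0 ω).encard} ≤
          (bondLaw p).real ({ω | (N : ℕ∞) ≤ (cluster0 ω).encard ∧ (cluster0 ω).Finite} ∪
            {ω | ¬ (cluster0 ω).Finite}) := by
        refine measureReal_mono ?_ (measure_ne_top _ _)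
        intro ω hω
        by_cases hf : (cluster0 ω).Finite
        · exact Or.inl ⟨hω, hf⟩
        · exact Or.inr hf
      have h5 := measureReal_union_le (μ := bondLaw p)
        {ω | (N : ℕ∞) ≤ (cluster0 ω).encard ∧ (cluster0 ω).Finite} {ω | ¬ (cluster0 ω).Finite}
      rw [inf_zero hp, add_zero] at h5
      exact h4.trans h5
    · have h4 : (bondLaw p).real {ω | (N : ℕ∞) ≤ (cluster0 ω).encard ∧ (cluster0 ω).Finite} ≤
          (bondLaw p).real {ω | (N : ℕ∞) ≤ (cluster0 ω).encard} :=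
        measureReal_mono (fun ω hω => hω.1) (measure_ne_top _ _)
      refine (h4.trans k2).trans ?_
      exact key C1 c1 (max C1 C2) (min c1 c2) hC1 (le_max_left _ _) (min_le_left _ _)
  · have e1 : rt p N = Real.sqrt ((N : ℝ) * ((p : ℝ) - 1 / 2) ^ (91 / 36 : ℝ)) := by
      unfold rt
      rw [if_neg (not_le.mpr hp)]
    obtain ⟨k1, k2⟩ := h2 p hp N hN
    rw [← e1] at k1 k2
    constructor
    · intro _ h3
      refine (key _ _ c2 C2 (lt_min hc1 hc2) (min_le_right _ _) (le_max_right _ _)).trans ?_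
      exact k1 h3
    · refine k2.trans ?_
      exact key C2 c2 (max C1 C2) (min c1 c2) hC2 (le_max_right _ _) (min_le_right _ _)

end Pool.Agent.D0H95.CS
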