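import Pool.Agent.D0H95.CS.Blk
import Pool.Agent.R966.CP.Anim

/-!
Lattice animals of blocks: clusters with a large diameter and many vertices.
-/

set_option autoImplicit false
set_option maxHeartbeats 400000
set_option linter.unusedVariables false

namespace Pool.Agent.D0H95.CS
open Finset H974 Pool.Agent.H160R2.CV Pool.Agent.H160R2.CV.Quad

/-- in the box of radius `n`, the vertex `v` is connected to at least `N` vertices and to a vertex
at distance at least `8h` -/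
def EV (h n : ℕ) (N : ℝ) (v : Vtx) (F : Finset Edg) : Prop :=
  (∃ T : Finset Vtx, N ≤ (T.card : ℝ) ∧ ∀ u ∈ T, Reach (↑F ∩ ↑(boxE n)) v u) ∧
    ∃ w : Vtx, 8 * h ≤ nv (w - v) ∧ Reach (↑F ∩ ↑(boxE n)) v w

theorem EV_mono {h n : ℕ} {N : ℝ} {v : Vtx} {F G : Finset Edg} (hFG : F ⊆ G)
    (hF : EV h n N v F) : EV h n N v G := by
  obtain ⟨⟨T, h1, h2⟩, w, h3, h4⟩ := hF
  have hs : (↑F ∩ ↑(boxE n) : Set Edg) ⊆ ↑G ∩ ↑(boxE n) :=
    Set.inter_subset_inter_left _ (by exact_mod_cast hFG)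
  exact ⟨⟨T, h1, fun u hu => (h2 u hu).mono hs⟩, w, h3, h4.mono hs⟩

/-- neighbouring blocks -/
noncomputable def near (a : ℤ × ℤ) : Finset (ℤ × ℤ) :=
  Finset.Icc (a.1 - 1) (a.1 + 1) ×ˢ Finset.Icc (a.2 - 1) (a.2 + 1)

theorem mem_near {a b : ℤ × ℤ} : b ∈ near a ↔
    (a.1 - 1 ≤ b.1 ∧ b.1 ≤ a.1 + 1) ∧ (a.2 - 1 ≤ b.2 ∧ b.2 ≤ a.2 + 1) := by
  unfold near
  rw [Finset.mem_product, Finset.mem_Icc, Finset.mem_Icc]

theorem near_sym (a b : ℤ × ℤ) : b ∈ near a ↔ a ∈ near b := by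
  rw [mem_near, mem_near]
  omega

theorem near_card (a : ℤ × ℤ) : (near a).card ≤ 9 := by
  unfold near
  rw [Finset.card_product, Int.card_Icc, Int.card_Icc]
  have e1 : (a.1 + 1 + 1 - (a.1 - 1)).toNat = 3 := by omega
  have e2 : (a.2 + 1 + 1 - (a.2 - 1)).toNat = 3 := by omega
  rw [e1, e2]

theorem div_step {h : ℕ} (hh : 1 ≤ h) {x y : ℤ} (h1 : x - 1 ≤ y) (h2 : y ≤ x + 1) :
    (x + h) / (2 * h) - 1 ≤ (y + h) / (2 * h) ∧ (y + h) / (2 * h) ≤ (x + h) / (2 * h) + 1 := by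
  have h0 : (0 : ℤ) < 2 * h := by omega
  obtain ⟨i, hi⟩ : ∃ i : ℤ, i = (x + h) / (2 * h) := ⟨_, rfl⟩
  obtain ⟨j, hj⟩ : ∃ j : ℤ, j = (y + h) / (2 * h) := ⟨_, rfl⟩
  have k1 := (idx_coord hh x i).mp hi.symm
  have k2 := (idx_coord hh y j).mp hj.symm
  rw [← hi, ← hj]
  constructor
  · by_contra hc
    push Not at hc
    have h3 : j + 2 ≤ i := by omega
    have h4 : (2 * h : ℤ) * (j + 2) ≤ 2 * h * i := mul_le_mul_of_nonneg_left h3 h0.le
    have h5 : (2 * h : ℤ) * (j + 2) = 2 * h * j + 4 * h := by ring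
    omega
  · by_contra hc
    push Not at hc
    have h3 : i + 2 ≤ j := by omega
    have h4 : (2 * h : ℤ) * (i + 2) ≤ 2 * h * j := mul_le_mul_of_nonneg_left h3 h0.le
    have h5 : (2 * h : ℤ) * (i + 2) = 2 * h * i + 4 * h := by ring
    omega

theorem adj_near {h : ℕ} (hh : 1 ≤ h) {G : Set Edg} {u v : Vtx} (ha : Adj G u v) :
    idx h v ∈ near (idx h u) := by
  have key : (u.1 - 1 ≤ v.1 ∧ v.1 ≤ u.1 + 1) ∧ (u.2 - 1 ≤ v.2 ∧ v.2 ≤ u.2 + 1) := by
    obtain ⟨⟨x, y, b⟩, _, hc⟩ := ha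
    unfold src tgt at hc
    cases b
    · simp only [Bool.false_eq_true, if_false] at hc
      rcases hc with ⟨h1, h2⟩ | ⟨h1, h2⟩
      · rw [← h1, ← h2]; simp only; omega
      · rw [← h1, ← h2]; simp only; omega
    · simp only [if_true] at hc
      rcases hc with ⟨h1, h2⟩ | ⟨h1, h2⟩
      · rw [← h1, ← h2]; simp only; omega
      · rw [← h1, ← h2]; simp only; omega
  rw [mem_near]
  exact ⟨div_step hh key.1.1 key.1.2, div_step hh key.2.1 key.2.2⟩

/-- the animals -/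
noncomputable def Fam (h n : ℕ) : Finset (Finset (ℤ × ℤ)) := by
  classical
  exact ((bx n).image (idx h)).powerset.filter fun A => (0, 0) ∈ A ∧
    ∀ x ∈ A, Relation.ReflTransGen (fun a b => b ∈ A ∧ b ∈ near a) (0, 0) x

theorem mem_Fam {h n : ℕ} {A : Finset (ℤ × ℤ)} : A ∈ Fam h n ↔ A ⊆ (bx n).image (idx h) ∧
    (0, 0) ∈ A ∧ ∀ x ∈ A, Relation.ReflTransGen (fun a b => b ∈ A ∧ b ∈ near a) (0, 0) x := by
  classical
  unfold Fam
  rw [Finset.mem_filter, Finset.mem_powerset]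

theorem Fam_sum (h n : ℕ) : ∑ A ∈ Fam h n, ((1 / 2 : ℝ) ^ 8) ^ A.card ≤ 2 := by
  refine Pool.Agent.R966.CP.Anim.fam (near := near) (Δ := 9) near_card near_sym (0, 0) (Fam h n)
    (fun X hX => (mem_Fam.mp hX).2.2) ?_ ((1 / 2 : ℝ) ^ 8) (by positivity) (by norm_num)
    (fun X => X.card) (fun X _ => Finset.card_le_card (Finset.erase_subset _ _)) (by norm_num)
  intro X hX Y hY hXY
  rwa [Finset.insert_eq_of_mem (mem_Fam.mp hX).2.1,
    Finset.insert_eq_of_mem (mem_Fam.mp hY).2.1] at hXY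

theorem YY_ge {h : ℕ} {j : ℤ × ℤ} {F : Finset Edg} {C : Finset Vtx} (hC : C ⊆ blk h j)
    (hL : ∀ x ∈ C, LA x (4 * h) F) : (C.card : ℝ) ≤ YY h j F := by
  calc (C.card : ℝ) = ∑ x ∈ C, ind (LA x (4 * h) F) := by
        rw [Finset.sum_congr rfl (fun x hx => ind_of (hL x hx)), Finset.sum_const, nsmul_eq_mul,
          mul_one]
    _ ≤ _ := Finset.sum_le_sum_of_subset_of_nonneg hC (fun _ _ _ => ind_nonneg _)

theorem EV_arm {h n : ℕ} {N : ℝ} {v x : Vtx} {F : Finset Edg} (hF : EV h n N v F)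
    (hx : Reach (↑F ∩ ↑(boxE n)) v x) : LA x (4 * h) F := by
  obtain ⟨_, w, h3, h4⟩ := hF
  by_cases hc : 4 * h ≤ nv (w - x)
  · exact LA_of_reach hc ((hx.symm.trans h4).mono Set.inter_subset_left)
  · refine LA_of_reach (u := v) ?_ (hx.symm.mono Set.inter_subset_left)
    unfold nv at h3 hc ⊢
    simp only [Prod.fst_sub, Prod.snd_sub] at h3 hc ⊢
    omega

/-- the set of the blocks touched by the cluster -/
theorem EV_anim {h n : ℕ} (hh : 1 ≤ h) (hn : h ≤ n) {N : ℝ} {v : Vtx} (hv : v ∈ blk h (0, 0))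
    {F : Finset Edg} (hF : EV h n N v F) :
    ∃ A ∈ Fam h n, (∀ j ∈ A, 1 ≤ YY h j F) ∧ N ≤ ∑ j ∈ A, YY h j F := by
  classical
  have hvn : v ∈ bx n := VolAux.mem_bx.mpr ((mem_blk0 hv).trans hn)
  obtain ⟨C, hC⟩ : ∃ C : Finset Vtx, C = (bx n).filter
    (fun x => Reach (↑F ∩ ↑(boxE n)) v x) := ⟨_, rfl⟩
  have hmem : ∀ x, x ∈ C ↔ Reach (↑F ∩ ↑(boxE n)) v x := by
    intro x
    rw [hC, Finset.mem_filter]
    exact ⟨fun h => h.2, fun h => ⟨w_reach_bx hvn h, h⟩⟩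
  have hCb : C ⊆ bx n := by rw [hC]; exact Finset.filter_subset _ _
  have hL : ∀ x ∈ C, LA x (4 * h) F := fun x hx => EV_arm hF ((hmem x).mp hx)
  have hfib : ∀ j, ((C.filter (fun x => idx h x = j)).card : ℝ) ≤ YY h j F := by
    intro j
    apply YY_ge
    · intro x hx
      rw [Finset.mem_filter] at hx
      exact (mem_blk_idx hh).mpr hx.2
    · intro x hx
      exact hL x (Finset.mem_filter.mp hx).1
  refine ⟨C.image (idx h), ?_, ?_, ?_⟩
  · rw [mem_Fam]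
    refine ⟨Finset.image_subset_image hCb, ?_, ?_⟩
    · rw [Finset.mem_image]
      exact ⟨v, (hmem v).mpr (Reach.refl _ _), (mem_blk_idx hh).mp hv⟩
    · intro i hi
      rw [Finset.mem_image] at hi
      obtain ⟨x, hx, rfl⟩ := hi
      have hr := (hmem x).mp hx
      clear hx
      have e0 : idx h v = (0, 0) := (mem_blk_idx hh).mp hv
      rw [← e0]
      induction hr with
      | refl => exact Relation.ReflTransGen.refl
      | @tail b c hb hbc ih =>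
        refine ih.tail ⟨?_, adj_near hh hbc⟩
        rw [Finset.mem_image]
        exact ⟨c, (hmem c).mpr (hb.tail hbc), rfl⟩
  · intro j hj
    rw [Finset.mem_image] at hj
    obtain ⟨x, hx, rfl⟩ := hj
    refine le_trans ?_ (hfib (idx h x))
    have : 0 < (C.filter (fun y => idx h y = idx h x)).card :=
      Finset.card_pos.mpr ⟨x, Finset.mem_filter.mpr ⟨hx, rfl⟩⟩
    exact_mod_cast this
  · obtain ⟨⟨T, h1, h2⟩, _⟩ := hF
    have hTC : T ⊆ C := fun u hu => (hmem u).mpr (h2 u hu)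
    have h3 : (T.card : ℝ) ≤ C.card := by exact_mod_cast Finset.card_le_card hTC
    have h4 : C.card = ∑ j ∈ C.image (idx h), (C.filter (fun x => idx h x = j)).card :=
      Finset.card_eq_sum_card_fiberwise (fun x hx => Finset.mem_image_of_mem _ hx)
    have h5 : (C.card : ℝ) = ∑ j ∈ C.image (idx h),
        ((C.filter (fun x => idx h x = j)).card : ℝ) := by
      rw [h4]
      push_cast
      rfl
    have h6 : ∑ j ∈ C.image (idx h), ((C.filter (fun x => idx h x = j)).card : ℝ) ≤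
        ∑ j ∈ C.image (idx h), YY h j F := Finset.sum_le_sum fun j _ => hfib j
    linarith

/-- the probability of a large cluster with a large diameter -/
theorem EV_prob {p A z : ℝ} (h0 : 0 ≤ p) (h1 : p ≤ 1) (hA1 : 1 ≤ A) {h : ℕ} (hh : 1 ≤ h)
    (hA : AU p A (4 * h)) (hz : 0 ≤ z) (hzD : z * (2 * A * D4 h) ≤ 1 / 2) {U : Finset Edg}
    {n : ℕ} (hn : h ≤ n) (hU : ∀ j ∈ (bx n).image (idx h), ngb h j ⊆ U)
    (hδ : ∀ j ∈ (bx n).image (idx h), Pr (fun _ => p) U (fun F => 1 ≤ YY h j F) ≤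
      ((1 / 2 : ℝ) ^ 17) ^ 36) (N : ℝ) :
    Pr (fun _ => p) U (fun F => ∃ v ∈ blk h (0, 0), EV h n N v F) ≤
      12 * Real.exp (-(z * (N / 72))) := by
  classical
  have ok := okq h0 h1
  have i1 : Pr (fun _ => p) U (fun F => ∃ v ∈ blk h (0, 0), EV h n N v F) ≤
      Pr (fun _ => p) U (fun F => ∃ A ∈ Fam h n, (∀ j ∈ A, 1 ≤ YY h j F) ∧
        N ≤ ∑ j ∈ A, YY h j F) := by
    apply Pr_mono ok
    rintro F _ ⟨v, hv, hF⟩
    exact EV_anim hh hn hv hF
  refine i1.trans ((Pool.Agent.Y244.PC.Pr_exists_le ok U _ _).trans ?_)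
  have i2 : ∀ A' ∈ Fam h n, Pr (fun _ => p) U (fun F => (∀ j ∈ A', 1 ≤ YY h j F) ∧
      N ≤ ∑ j ∈ A', YY h j F) ≤ 6 * Real.exp (-(z * (N / 72))) * ((1 / 2 : ℝ) ^ 8) ^ A'.card := by
    intro A' hA'
    have hsub := (mem_Fam.mp hA').1
    have j1 := all_sum h0 h1 hA1 hh hA hz hzD (U := U) A' (fun j hj => hU j (hsub hj)) N
    have j2 := all_one (δ := (1 / 2 : ℝ) ^ 17) h0 h1 hh (U := U) A'
      (fun j hj => hU j (hsub hj)) (by positivity) (by norm_num)
      (fun j hj => hδ j (hsub hj))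
    obtain ⟨P, hP⟩ : ∃ P : ℝ, P = Pr (fun _ => p) U (fun F => (∀ j ∈ A', 1 ≤ YY h j F) ∧
      N ≤ ∑ j ∈ A', YY h j F) := ⟨_, rfl⟩
    have k0 : 0 ≤ P := by rw [hP]; exact Pr_nonneg ok _ _
    have k1 : P ≤ 36 * (2 ^ A'.card * Real.exp (-(z * (N / 36)))) := by
      rw [hP]
      exact (Pr_mono ok (fun F _ hF => hF.2)).trans j1
    have k2 : P ≤ ((1 / 2 : ℝ) ^ 17) ^ A'.card := by
      rw [hP]
      exact (Pr_mono ok (fun F _ hF => hF.1)).trans j2
    rw [← hP]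
    have k3 : P ^ 2 ≤ (6 * Real.exp (-(z * (N / 72))) * ((1 / 2 : ℝ) ^ 8) ^ A'.card) ^ 2 := by
      calc P ^ 2 = P * P := sq P
        _ ≤ (36 * (2 ^ A'.card * Real.exp (-(z * (N / 36))))) *
            ((1 / 2 : ℝ) ^ 17) ^ A'.card := mul_le_mul k1 k2 k0 (by positivity)
        _ = 36 * Real.exp (-(z * (N / 36))) * (2 * (1 / 2 : ℝ) ^ 17) ^ A'.card := by
            rw [mul_pow]; ring
        _ = _ := by
            have e1 : Real.exp (-(z * (N / 36))) =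
                Real.exp (-(z * (N / 72))) * Real.exp (-(z * (N / 72))) := by
              rw [← Real.exp_add]
              congr 1
              ring
            have e2 : (2 * (1 / 2 : ℝ) ^ 17) = (1 / 2 : ℝ) ^ 8 * (1 / 2 : ℝ) ^ 8 := by norm_num
            rw [e1, e2, mul_pow]
            ring
    exact (abs_le_of_sq_le_sq' k3 (by positivity)).2
  refine (Finset.sum_le_sum i2).trans ?_
  rw [← Finset.mul_sum]
  have i3 := Fam_sum h n
  have i4 : 0 ≤ 6 * Real.exp (-(z * (N / 72))) := by positivity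
  calc _ ≤ 6 * Real.exp (-(z * (N / 72))) * 2 := mul_le_mul_of_nonneg_left i3 i4
    _ = _ := by ring

end Pool.Agent.D0H95.CS
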