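import Pool.Agent.D0H95.CS.Anim
import Pool.Agent.H160R2.CV.Vol
import Pool.Agent.H974R2.Static

/-!
The size of the cluster of the origin: small diameter, and averaging over the block of the origin
for the clusters of large diameter.
-/

set_option autoImplicit false
set_option maxHeartbeats 400000
set_option linter.unusedVariables false

namespace Pool.Agent.D0H95.CS
open Finset H974 Pool.Agent.H160R2.CV Pool.Agent.H160R2.CV.Quad Pool.Agent.Y244.PC

theorem pr_shq (p : ℝ) (z : Vtx) (S : Finset Edg) (A : Finset Edg → Prop) :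
    Pr (fun _ => p) S (fun F => A (sh z F)) = Pr (fun _ => p) (sh z S) A :=
  ((trl (-z.1) (-z.2)).pr p S A).symm

/-- the event around another vertex -/
theorem EV_shift {p : ℝ} (h0 : 0 ≤ p) (h1 : p ≤ 1) {h R n : ℕ} (hn : R + h ≤ n) (N : ℝ)
    {U : Finset Edg} (hU : boxE n ⊆ U) {v : Vtx} (hv : nv v ≤ h) :
    Pr (fun _ => p) (boxE R) (EV h R N (0, 0)) ≤ Pr (fun _ => p) U (EV h n N v) := by
  have ok := okq h0 h1
  have hsub : bo v R ⊆ boxE n := by
    unfold nv at hv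
    apply bo_sub_boxE <;> omega
  rw [← sh_bo v R, ← pr_shq]
  have e1 : Pr (fun _ => p) (bo v R) (fun F => EV h R N (0, 0) (sh v F)) ≤
      Pr (fun _ => p) (bo v R) (EV h n N v) := by
    apply Pr_mono ok
    rintro F _ ⟨⟨T, k1, k2⟩, w, k3, k4⟩
    have hs : (↑F ∩ ↑(bo v R) : Set Edg) ⊆ ↑F ∩ ↑(boxE n) :=
      Set.inter_subset_inter_right _ (by exact_mod_cast hsub)
    have ev : ((0, 0) : Vtx) + v = v := by
      refine Prod.ext ?_ ?_ <;> simp
    refine ⟨⟨T.map (addRightEmbedding v), ?_, ?_⟩, w + v, ?_, ?_⟩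
    · rwa [Finset.card_map]
    · intro u hu
      rw [Finset.mem_map] at hu
      obtain ⟨u', hu', rfl⟩ := hu
      have := sh_reach_box.mp (k2 u' hu')
      rw [ev] at this
      exact this.mono hs
    · rw [add_sub_cancel_right]
      have : w - (0, 0) = w := by
        refine Prod.ext ?_ ?_ <;> simp
      rwa [this] at k3
    · have := sh_reach_box.mp k4
      rw [ev] at this
      exact this.mono hs
  refine e1.trans (Pr_mono_set ok (hsub.trans hU) ?_)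
  intro F G hFG _ hF
  exact EV_mono hFG hF

/-- averaging over the block -/
theorem EV_avg {p A : ℝ} (h0 : 0 ≤ p) (h1 : p ≤ 1) (hA1 : 1 ≤ A) {h : ℕ} (hh : 1 ≤ h)
    (hA : AU p A (4 * h)) {R n : ℕ} (hn : R + h ≤ n) (N : ℝ) {U : Finset Edg}
    (hU : boxE n ⊆ U) {g : ℝ} (hg : 0 ≤ g)
    (hG : Pr (fun _ => p) U (fun F => ∃ v ∈ blk h (0, 0), EV h n N v F) ≤ g ^ 2) :
    Pr (fun _ => p) (boxE R) (EV h R N (0, 0)) ≤ 800 * A * (h : ℝ) ^ (-(5 / 48 : ℝ)) * g := by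
  classical
  have ok := okq h0 h1
  have hh0 : (0 : ℝ) < h := by exact_mod_cast hh
  have h4 : (0 : ℝ) < 4 * (h : ℝ) := by linarith
  have hD := D4_pos hh
  obtain ⟨P0, hP0⟩ : ∃ P0 : ℝ, P0 = Pr (fun _ => p) (boxE R) (EV h R N (0, 0)) := ⟨_, rfl⟩
  have hP0n : 0 ≤ P0 := by rw [hP0]; exact Pr_nonneg ok _ _
  rw [← hP0]
  have i1 : (((blk h (0, 0)).card : ℕ) : ℝ) * P0 ≤
      ∑ v ∈ blk h (0, 0), Pr (fun _ => p) U (EV h n N v) := by
    rw [← nsmul_eq_mul, ← Finset.sum_const]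
    apply Finset.sum_le_sum
    intro v hv
    rw [hP0]
    exact EV_shift h0 h1 hn N hU (mem_blk0 hv)
  have i2 : ∑ v ∈ blk h (0, 0), Pr (fun _ => p) U (EV h n N v) ≤
      Ex (fun _ => p) U (fun F => YY h (0, 0) F *
        ind (∃ v ∈ blk h (0, 0), EV h n N v F)) := by
    unfold Pr
    rw [← Ex_sum]
    apply Ex_mono ok
    intro F _
    by_cases hF : ∃ v ∈ blk h (0, 0), EV h n N v F
    · rw [ind_of hF, mul_one]
      unfold YY cnt
      apply Finset.sum_le_sum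
      intro v _
      apply ind_mono
      intro hv
      exact EV_arm hv (Reach.refl _ _)
    · rw [ind_not_of hF, mul_zero]
      apply le_of_eq
      apply Finset.sum_eq_zero
      intro v hv
      exact ind_not_of fun hE => hF ⟨v, hv, hE⟩
  have i3 := Ex_cs ok U (YY h (0, 0)) (fun F => ind (∃ v ∈ blk h (0, 0), EV h n N v F))
  have i4 := YY_mom h0 h1 hA1 hh hA U (0, 0) 2
  have i5 : Ex (fun _ => p) U (fun F => ind (∃ v ∈ blk h (0, 0), EV h n N v F) ^ 2) ≤ g ^ 2 := by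
    refine le_trans (le_of_eq ?_) hG
    unfold Pr
    apply Ex_congr
    intro F _
    rw [sq, ind_sq]
  have i6 : 0 ≤ (((blk h (0, 0)).card : ℕ) : ℝ) * P0 := by positivity
  have i7 : ((((blk h (0, 0)).card : ℕ) : ℝ) * P0) ^ 2 ≤
      (((2 : ℕ).factorial : ℕ) * (2 * A * D4 h) ^ 2) * g ^ 2 := by
    calc ((((blk h (0, 0)).card : ℕ) : ℝ) * P0) ^ 2 ≤ _ := pow_le_pow_left₀ i6 (i1.trans i2) 2
      _ ≤ _ := i3
      _ ≤ _ := by
          apply mul_le_mul i4 i5 _ (by positivity)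
          exact Ex_nonneg ok (fun F _ => by positivity)
  have e1 : D4 h = 264 * (4 * (h : ℝ)) ^ (-(5 / 48 : ℝ)) * (4 * h ^ 2) := by
    unfold D4
    have : (4 * (h : ℝ)) ^ (91 / 48 : ℝ) =
        (4 * (h : ℝ)) * (4 * (h : ℝ)) * (4 * (h : ℝ)) ^ (-(5 / 48 : ℝ)) := by
      nth_rewrite 2 [← Real.rpow_one (4 * (h : ℝ))]
      nth_rewrite 3 [← Real.rpow_one (4 * (h : ℝ))]
      rw [← Real.rpow_add h4, ← Real.rpow_add h4]
      norm_num
    rw [this]
    ring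
  have e2 : (4 * (h : ℝ)) ^ (-(5 / 48 : ℝ)) ≤ (h : ℝ) ^ (-(5 / 48 : ℝ)) :=
    Real.rpow_le_rpow_of_nonpos hh0 (by linarith) (by norm_num)
  have e3 : (((blk h (0, 0)).card : ℕ) : ℝ) = 4 * (h : ℝ) ^ 2 := by
    rw [card_blk]
    push_cast
    ring
  rw [e3, e1] at i7
  have e4 : (((2 : ℕ).factorial : ℕ) : ℝ) = 2 := by norm_num [Nat.factorial]
  rw [e4] at i7
  have hx : 0 ≤ (4 * (h : ℝ)) ^ (-(5 / 48 : ℝ)) := by positivity
  have i8 : (4 * (h : ℝ) ^ 2 * P0) ^ 2 ≤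
      (4 * (h : ℝ) ^ 2 * (800 * A * (h : ℝ) ^ (-(5 / 48 : ℝ)) * g)) ^ 2 := by
    have e5 : ((4 * (h : ℝ)) ^ (-(5 / 48 : ℝ))) ^ 2 ≤ ((h : ℝ) ^ (-(5 / 48 : ℝ))) ^ 2 :=
      pow_le_pow_left₀ hx e2 2
    calc (4 * (h : ℝ) ^ 2 * P0) ^ 2 ≤
        2 * (2 * A * (264 * (4 * (h : ℝ)) ^ (-(5 / 48 : ℝ)) * (4 * h ^ 2))) ^ 2 * g ^ 2 := i7
      _ = (557568 * (4 * (h : ℝ) ^ 2) ^ 2 * A ^ 2 * g ^ 2) *
            ((4 * (h : ℝ)) ^ (-(5 / 48 : ℝ))) ^ 2 := by ring
      _ ≤ (557568 * (4 * (h : ℝ) ^ 2) ^ 2 * A ^ 2 * g ^ 2) *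
            ((h : ℝ) ^ (-(5 / 48 : ℝ))) ^ 2 := mul_le_mul_of_nonneg_left e5 (by positivity)
      _ ≤ (640000 * (4 * (h : ℝ) ^ 2) ^ 2 * A ^ 2 * g ^ 2) *
            ((h : ℝ) ^ (-(5 / 48 : ℝ))) ^ 2 := by
          apply mul_le_mul_of_nonneg_right _ (by positivity)
          have : 0 ≤ (4 * (h : ℝ) ^ 2) ^ 2 * A ^ 2 * g ^ 2 := by positivity
          nlinarith
      _ = _ := by ring
  have i9 := (abs_le_of_sq_le_sq' i8 (by positivity)).2
  exact le_of_mul_le_mul_left i9 (by positivity)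

/-- clusters with a small diameter -/
theorem vol_small {p A z : ℝ} (h0 : 0 ≤ p) (h1 : p ≤ 1) (hA1 : 1 ≤ A) {h : ℕ} (hh : 1 ≤ h)
    (hA : AU p A (4 * h)) (hz : 0 < z) (hzD : z * (20 * A * D4 h) ≤ 1 / 2) {N : ℝ}
    (hN : 2 ≤ z * N) (S : Finset Edg) :
    Pr (fun _ => p) S (fun F => ∃ T : Finset Vtx, T ⊆ bx (8 * h) ∧ N ≤ (T.card : ℝ) ∧
      ∀ u ∈ T, Reach (↑F) (0, 0) u) ≤ 8 * A * (h : ℝ) ^ (-(5 / 48 : ℝ)) * Real.exp (-(z * N)) := by
  classical
  have ok := okq h0 h1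
  have hh0 : (0 : ℝ) < h := by exact_mod_cast hh
  have h4 : (0 : ℝ) < 4 * (h : ℝ) := by linarith
  have hD := D4_pos hh
  obtain ⟨B, hB⟩ : ∃ B : Finset Vtx, B = (bx (8 * h)).erase (0, 0) := ⟨_, rfl⟩
  have hB0 : (0, 0) ∉ B := by rw [hB]; exact Finset.notMem_erase _ _
  have hDD : DD (4 * h) B ≤ 10 * D4 h := by
    have hc : (B.card : ℝ) ≤ (2 * ((8 * h : ℕ) : ℝ) + 1) ^ 2 := by
      rw [← w_card_bx, hB]
      exact_mod_cast Finset.card_le_card (Finset.erase_subset _ _)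
    push_cast at hc
    have hc2 : (B.card : ℝ) ≤ 19 * ((4 * (h : ℝ)) * (4 * (h : ℝ))) := by
      have h1' : (1 : ℝ) ≤ h := by exact_mod_cast hh
      nlinarith
    have e1 : (4 * (h : ℝ)) ^ (91 / 48 : ℝ) =
        (4 * (h : ℝ)) * (4 * (h : ℝ)) * (4 * (h : ℝ)) ^ (-(5 / 48 : ℝ)) := by
      nth_rewrite 2 [← Real.rpow_one (4 * (h : ℝ))]
      nth_rewrite 3 [← Real.rpow_one (4 * (h : ℝ))]
      rw [← Real.rpow_add h4, ← Real.rpow_add h4]
      norm_num
    have e2 : 0 ≤ (4 * (h : ℝ)) ^ (-(5 / 48 : ℝ)) := by positivity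
    have e3 : (B.card : ℝ) * (4 * (h : ℝ)) ^ (-(5 / 48 : ℝ)) ≤
        19 * (4 * (h : ℝ)) ^ (91 / 48 : ℝ) := by
      rw [e1]
      have := mul_le_mul_of_nonneg_right hc2 e2
      linarith
    unfold DD D4
    push_cast
    linarith
  have hDDp := DD_pos (s := 4 * h) (by omega) B
  obtain ⟨b, hb⟩ : ∃ b : ℝ, b = 2 * A * ((4 * h : ℕ) : ℝ) ^ (-(5 / 48 : ℝ)) := ⟨_, rfl⟩
  have hb0 : 0 ≤ b := by rw [hb]; positivity
  have i1 := exp_mom h0 h1 (S := S) (f := fun F => cnt (fun x F => Reach (↑F) (0, 0) x) B F)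
    (D := 2 * A * DD (4 * h) B) (b := b) (z := z) (by positivity) hb0 hz.le (by
      refine le_trans ?_ hzD
      apply mul_le_mul_of_nonneg_left _ hz.le
      calc 2 * A * DD (4 * h) B ≤ 2 * A * (10 * D4 h) :=
            mul_le_mul_of_nonneg_left hDD (by positivity)
        _ = 20 * A * D4 h := by ring) (by
      intro k hk
      rw [hb]
      exact mom_vol h0 h1 hA1 (s := 4 * h) (by omega) hA S B hB0 k hk)
  -- z is small
  have hz1 : z ≤ 1 / 2 := by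
    have hD1 : 1 ≤ 20 * A * D4 h := by
      have h1' : (1 : ℝ) ≤ h := by exact_mod_cast hh
      have : 1 ≤ (4 * (h : ℝ)) ^ (91 / 48 : ℝ) := Real.one_le_rpow (by linarith) (by norm_num)
      unfold D4
      nlinarith
    nlinarith
  obtain ⟨P0, hP0⟩ : ∃ P0 : ℝ, P0 = Pr (fun _ => p) S (fun F => ∃ T : Finset Vtx,
    T ⊆ bx (8 * h) ∧ N ≤ (T.card : ℝ) ∧ ∀ u ∈ T, Reach (↑F) (0, 0) u) := ⟨_, rfl⟩
  rw [← hP0]
  have i2 : (Real.exp (z * (N - 1)) - 1) * P0 + 1 ≤ Ex (fun _ => p) S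
      (fun F => Real.exp (z * cnt (fun x F => Reach (↑F) (0, 0) x) B F)) := by
    have e1 : (Real.exp (z * (N - 1)) - 1) * P0 + 1 = Ex (fun _ => p) S (fun F =>
        (Real.exp (z * (N - 1)) - 1) * ind (∃ T : Finset Vtx, T ⊆ bx (8 * h) ∧
          N ≤ (T.card : ℝ) ∧ ∀ u ∈ T, Reach (↑F) (0, 0) u) + 1) := by
      rw [Ex_add, Ex_mul_left, Ex_const, hP0]
      rfl
    rw [e1]
    apply Ex_mono ok
    intro F _
    have hc0 := cnt_nonneg (fun x F => Reach (↑F) (0, 0) x) B F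
    by_cases hF : ∃ T : Finset Vtx, T ⊆ bx (8 * h) ∧ N ≤ (T.card : ℝ) ∧
        ∀ u ∈ T, Reach (↑F) (0, 0) u
    · rw [ind_of hF]
      obtain ⟨T, k1, k2, k3⟩ := hF
      have k4 : ((T.erase (0, 0)).card : ℝ) ≤ cnt (fun x F => Reach (↑F) (0, 0) x) B F := by
        calc ((T.erase (0, 0)).card : ℝ) = ∑ x ∈ T.erase (0, 0), ind (Reach (↑F) (0, 0) x) := by
              rw [Finset.sum_congr rfl (fun x hx => ind_of (k3 x (Finset.mem_of_mem_erase hx))),
                Finset.sum_const, nsmul_eq_mul, mul_one]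
          _ ≤ _ := by
              refine Finset.sum_le_sum_of_subset_of_nonneg ?_ (fun _ _ _ => ind_nonneg _)
              rw [hB]
              exact Finset.erase_subset_erase _ k1
      have k5 : (T.card : ℝ) ≤ (T.erase (0, 0)).card + 1 := by
        have := Finset.pred_card_le_card_erase (s := T) (a := (0, 0))
        have : T.card ≤ (T.erase (0, 0)).card + 1 := by omega
        exact_mod_cast this
      have k6 : z * (N - 1) ≤ z * cnt (fun x F => Reach (↑F) (0, 0) x) B F :=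
        mul_le_mul_of_nonneg_left (by linarith) hz.le
      have := Real.exp_le_exp.mpr k6
      linarith
    · rw [ind_not_of hF]
      have : 1 ≤ Real.exp (z * cnt (fun x F => Reach (↑F) (0, 0) x) B F) :=
        Real.one_le_exp (by positivity)
      linarith
  have i3 : (Real.exp (z * (N - 1)) - 1) * P0 ≤ b := by linarith
  have hP00 : 0 ≤ P0 := by rw [hP0]; exact Pr_nonneg ok _ _
  have i4 : Real.exp (z * N) / 4 ≤ Real.exp (z * (N - 1)) - 1 := by
    have e1 : Real.exp (z * N) = Real.exp (z * (N - 1)) * Real.exp z := by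
      rw [← Real.exp_add]
      congr 1
      ring
    have e2 : Real.exp z ≤ 2 := by
      have h5 : Real.exp z ≤ Real.exp (1 / 2) := Real.exp_le_exp.mpr hz1
      have h6 : Real.exp (1 / 2) ≤ 2 := by
        have h7 : Real.exp (1 / 2) * Real.exp (1 / 2) = Real.exp 1 := by
          rw [← Real.exp_add]; norm_num
        have h8 := Real.exp_one_lt_d9
        have h9 := Real.exp_pos (1 / 2)
        nlinarith
      linarith
    have e3 : 2 ≤ Real.exp (z * (N - 1)) := by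
      have h5 : 1 ≤ z * (N - 1) := by linarith
      have h6 := Real.add_one_le_exp (z * (N - 1))
      linarith
    have e4 := Real.exp_pos (z * (N - 1))
    rw [e1]
    nlinarith
  have i5 : Real.exp (z * N) / 4 * P0 ≤ b :=
    (mul_le_mul_of_nonneg_right i4 hP00).trans i3
  have hb2 : b ≤ 2 * A * (h : ℝ) ^ (-(5 / 48 : ℝ)) := by
    rw [hb]
    push_cast
    apply mul_le_mul_of_nonneg_left _ (by positivity)
    exact Real.rpow_le_rpow_of_nonpos hh0 (by linarith) (by norm_num)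
  have e5 : Real.exp (-(z * N)) * Real.exp (z * N) = 1 := by
    rw [← Real.exp_add]; simp
  calc P0 = 4 * Real.exp (-(z * N)) * (Real.exp (z * N) / 4 * P0) := by
        have : 4 * Real.exp (-(z * N)) * (Real.exp (z * N) / 4 * P0) =
          (Real.exp (-(z * N)) * Real.exp (z * N)) * P0 := by ring
        rw [this, e5, one_mul]
    _ ≤ 4 * Real.exp (-(z * N)) * (2 * A * (h : ℝ) ^ (-(5 / 48 : ℝ))) := by
        apply mul_le_mul_of_nonneg_left (i5.trans hb2) (by positivity)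
    _ = _ := by ring

/-- the size of the cluster of the origin in a box -/
theorem vol_box {p A z g : ℝ} (h0 : 0 ≤ p) (h1 : p ≤ 1) (hA1 : 1 ≤ A) {h : ℕ} (hh : 1 ≤ h)
    (hA : AU p A (4 * h)) (hz : 0 < z) (hzD : z * (20 * A * D4 h) ≤ 1 / 2) {N : ℝ}
    (hN : 2 ≤ z * N) {R n : ℕ} (hn : R + h ≤ n) {U : Finset Edg} (hU : boxE n ⊆ U)
    (hg : 0 ≤ g)
    (hG : Pr (fun _ => p) U (fun F => ∃ v ∈ blk h (0, 0), EV h n N v F) ≤ g ^ 2) :
    Pr (fun _ => p) (boxE R) (fun F => Vol N ↑F) ≤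
      800 * A * (h : ℝ) ^ (-(5 / 48 : ℝ)) * (g + Real.exp (-(z * N))) := by
  classical
  have ok := okq h0 h1
  have i1 : Pr (fun _ => p) (boxE R) (fun F => Vol N ↑F) ≤
      Pr (fun _ => p) (boxE R) (fun F => (∃ T : Finset Vtx, T ⊆ bx (8 * h) ∧
        N ≤ (T.card : ℝ) ∧ ∀ u ∈ T, Reach (↑F) (0, 0) u) ∨ EV h R N (0, 0) F) := by
    apply Pr_mono ok
    rintro F hF ⟨T, k1, k2⟩
    have e : (↑F ∩ ↑(boxE R) : Set Edg) = ↑F :=
      Set.inter_eq_left.mpr (by exact_mod_cast hF)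
    by_cases hc : ∃ w : Vtx, 8 * h ≤ nv (w - (0, 0)) ∧ Reach (↑F) (0, 0) w
    · right
      obtain ⟨w, k3, k4⟩ := hc
      refine ⟨⟨T, k1, ?_⟩, w, k3, ?_⟩
      · rw [e]; exact k2
      · rw [e]; exact k4
    · left
      refine ⟨T, ?_, k1, k2⟩
      intro u hu
      rw [VolAux.mem_bx]
      by_contra hcon
      apply hc
      refine ⟨u, ?_, k2 u hu⟩
      have e2 : u - (0, 0) = u := by refine Prod.ext ?_ ?_ <;> simp
      rw [e2]
      omega
  refine i1.trans ((Pr_or_le ok _ _ _).trans ?_)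
  have i2 := vol_small h0 h1 hA1 hh hA hz hzD hN (boxE R)
  have i3 := EV_avg h0 h1 hA1 hh hA hn N hU hg hG
  have hx : 0 ≤ (h : ℝ) ^ (-(5 / 48 : ℝ)) := by positivity
  have i4 : 8 * A * (h : ℝ) ^ (-(5 / 48 : ℝ)) * Real.exp (-(z * N)) ≤
      800 * A * (h : ℝ) ^ (-(5 / 48 : ℝ)) * Real.exp (-(z * N)) := by
    apply mul_le_mul_of_nonneg_right _ (Real.exp_pos _).le
    apply mul_le_mul_of_nonneg_right _ hx
    linarith
  calc _ ≤ 800 * A * (h : ℝ) ^ (-(5 / 48 : ℝ)) * Real.exp (-(z * N)) +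
        800 * A * (h : ℝ) ^ (-(5 / 48 : ℝ)) * g := add_le_add (i2.trans i4) i3
    _ = _ := by ring

end Pool.Agent.D0H95.CS
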