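import Pool.Agent.D0H95.CS.Mo

/-!
Blocks of side `2h`, the number `YY h j` of vertices of the block `j` with an arm to distance `4h`,
and independence of the blocks of a class modulo `6`.
-/

set_option autoImplicit false
set_option maxHeartbeats 400000
set_option linter.unusedVariables false

namespace Pool.Agent.D0H95.CS
open Finset H974 Pool.Agent.H160R2.CV Pool.Agent.H160R2.CV.Quad

/-- the block of index `j` -/
noncomputable def blk (h : ℕ) (j : ℤ × ℤ) : Finset Vtx :=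
  Finset.Ico (2 * h * j.1 - h) (2 * h * j.1 + h) ×ˢ Finset.Ico (2 * h * j.2 - h) (2 * h * j.2 + h)

/-- the centre of the block -/
def cen (h : ℕ) (j : ℤ × ℤ) : Vtx := (2 * h * j.1, 2 * h * j.2)

/-- the index of the block of a vertex -/
def idx (h : ℕ) (x : Vtx) : ℤ × ℤ := ((x.1 + h) / (2 * h), (x.2 + h) / (2 * h))

theorem mem_blk {h : ℕ} {j : ℤ × ℤ} {x : Vtx} : x ∈ blk h j ↔
    (2 * h * j.1 - h ≤ x.1 ∧ x.1 < 2 * h * j.1 + h) ∧
      (2 * h * j.2 - h ≤ x.2 ∧ x.2 < 2 * h * j.2 + h) := by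
  unfold blk
  rw [Finset.mem_product, Finset.mem_Ico, Finset.mem_Ico]

theorem idx_coord {h : ℕ} (hh : 1 ≤ h) (x i : ℤ) :
    (x + h) / (2 * h) = i ↔ (2 * h * i - h ≤ x ∧ x < 2 * h * i + h) := by
  have h0 : (0 : ℤ) < 2 * h := by omega
  rw [Int.ediv_eq_iff_of_pos h0]
  constructor
  · rintro ⟨h1, h2⟩
    constructor
    · linarith
    · linarith
  · rintro ⟨h1, h2⟩
    constructor
    · linarith
    · linarith

theorem mem_blk_idx {h : ℕ} (hh : 1 ≤ h) {j : ℤ × ℤ} {x : Vtx} : x ∈ blk h j ↔ idx h x = j := by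
  rw [mem_blk]
  unfold idx
  rw [← idx_coord hh, ← idx_coord hh]
  constructor
  · rintro ⟨h1, h2⟩
    exact Prod.ext h1 h2
  · intro h1
    rw [← h1]
    exact ⟨rfl, rfl⟩

theorem blk_cen {h : ℕ} {j : ℤ × ℤ} {x : Vtx} (hx : x ∈ blk h j) : nv (x - cen h j) ≤ h := by
  rw [mem_blk] at hx
  unfold nv cen
  simp only [Prod.fst_sub, Prod.snd_sub]
  omega

theorem card_blk (h : ℕ) (j : ℤ × ℤ) : (blk h j).card = (2 * h) * (2 * h) := by
  unfold blk
  rw [Finset.card_product, Int.card_Ico, Int.card_Ico]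
  congr 1 <;> omega

theorem mem_blk0 {h : ℕ} {x : Vtx} (hx : x ∈ blk h (0, 0)) : nv x ≤ h := by
  have := blk_cen hx
  unfold cen at this
  simp only [mul_zero] at this
  have e : x - ((0, 0) : ℤ × ℤ) = x := by
    refine Prod.ext ?_ ?_
    · simp
    · simp
  rwa [e] at this

theorem zero_mem_blk {h : ℕ} (hh : 1 ≤ h) : ((0, 0) : Vtx) ∈ blk h (0, 0) := by
  rw [mem_blk]
  simp only [mul_zero]
  omega

/-- the number of vertices of the block with an arm -/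
noncomputable def YY (h : ℕ) (j : ℤ × ℤ) (F : Finset Edg) : ℝ :=
  cnt (fun x F => LA x (4 * h) F) (blk h j) F

theorem YY_nonneg (h : ℕ) (j : ℤ × ℤ) (F : Finset Edg) : 0 ≤ YY h j F := cnt_nonneg _ _ _

/-- the edges which determine `YY h j` -/
noncomputable def ngb (h : ℕ) (j : ℤ × ℤ) : Finset Edg := bo (cen h j) (5 * h)

theorem YY_local (h : ℕ) (j : ℤ × ℤ) (F : Finset Edg) : YY h j F = YY h j (F ∩ ngb h j) := by
  unfold YY cnt
  apply Finset.sum_congr rfl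
  intro x hx
  have hc := blk_cen hx
  apply ind_congr
  refine LA_loc ?_ F
  unfold ngb bo
  unfold nv at hc
  simp only [Prod.fst_sub, Prod.snd_sub] at hc
  apply RE_subset <;> push_cast <;> omega

theorem YY_mono (h : ℕ) (j : ℤ × ℤ) {F G : Finset Edg} (hFG : F ⊆ G) : YY h j F ≤ YY h j G :=
  Finset.sum_le_sum fun x _ => ind_mono fun hx => LA_inc x (4 * h) F G hFG hx

/-- the class of an index -/
def cls (j : ℤ × ℤ) : ZMod 6 × ZMod 6 := ((j.1 : ZMod 6), (j.2 : ZMod 6))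

theorem ngb_disj {h : ℕ} (hh : 1 ≤ h) {i j : ℤ × ℤ} (hc : cls i = cls j) (hne : i ≠ j) :
    Disjoint (ngb h i) (ngb h j) := by
  unfold ngb
  apply bo_disj
  have key : ∀ a b : ℤ, (a : ZMod 6) = (b : ZMod 6) → a ≠ b → 6 ≤ (a - b).natAbs := by
    intro a b hab hne
    have h1 := (ZMod.intCast_eq_intCast_iff_dvd_sub a b 6).mp hab
    obtain ⟨c, hc⟩ := h1
    push_cast at hc
    omega
  unfold cls at hc
  rw [Prod.mk.injEq] at hc
  unfold nv cen
  simp only [Prod.fst_sub, Prod.snd_sub]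
  have hmul : ∀ a b : ℤ, 6 ≤ (a - b).natAbs → 10 * h + 1 ≤ (2 * h * a - 2 * h * b : ℤ).natAbs := by
    intro a b hab
    have e : (2 * h * a - 2 * h * b : ℤ).natAbs = 2 * h * (a - b).natAbs := by
      rw [← mul_sub, Int.natAbs_mul, Int.natAbs_mul]
      simp
    rw [e]
    calc 10 * h + 1 ≤ 2 * h * 6 := by omega
      _ ≤ 2 * h * (a - b).natAbs := Nat.mul_le_mul_left _ hab
  by_cases h1 : i.1 = j.1
  · have h2 : i.2 ≠ j.2 := fun h2 => hne (Prod.ext h1 h2)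
    have h3 := hmul _ _ (key _ _ hc.2 h2)
    omega
  · have h3 := hmul _ _ (key _ _ hc.1 h1)
    omega

/-- expectation of a product over a class -/
theorem cls_prod {p : ℝ} {h : ℕ} (hh : 1 ≤ h) {U : Finset Edg} (T : Finset (ℤ × ℤ))
    (hT : ∀ i ∈ T, ∀ j ∈ T, cls i = cls j) (hU : ∀ j ∈ T, ngb h j ⊆ U) (f : ℝ → ℝ) :
    Ex (fun _ => p) U (fun F => ∏ j ∈ T, f (YY h j F)) =
      ∏ j ∈ T, Ex (fun _ => p) U (fun F => f (YY h j F)) := by
  refine Pool.Agent.Y244.PC.Ex_indep_prod T (fun j F => f (YY h j F)) (ngb h) hU ?_ ?_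
  · intro i hi j hj hne
    exact ngb_disj hh (hT i hi j hj) hne
  · intro i _ F
    show f (YY h i F) = f (YY h i (F ∩ ngb h i))
    rw [← YY_local]

/-- the constant -/
noncomputable def D4 (h : ℕ) : ℝ := 2 * (4 * (h : ℝ)) ^ (91 / 48 : ℝ) * 33

theorem DD_blk {h : ℕ} (hh : 1 ≤ h) (j : ℤ × ℤ) : DD (4 * h) (blk h j) ≤ D4 h := by
  have h0 : (0 : ℝ) < h := by exact_mod_cast hh
  have h4 : (0 : ℝ) < 4 * (h : ℝ) := by linarith
  unfold DD D4
  rw [card_blk]
  push_cast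
  have e1 : (4 * (h : ℝ)) ^ (91 / 48 : ℝ) =
      (4 * (h : ℝ)) * (4 * (h : ℝ)) * (4 * (h : ℝ)) ^ (-(5 / 48 : ℝ)) := by
    nth_rewrite 2 [← Real.rpow_one (4 * (h : ℝ))]
    nth_rewrite 3 [← Real.rpow_one (4 * (h : ℝ))]
    rw [← Real.rpow_add h4, ← Real.rpow_add h4]
    norm_num
  have e2 : 0 ≤ (4 * (h : ℝ)) ^ (-(5 / 48 : ℝ)) := by positivity
  have e3 : (2 * (h : ℝ)) * (2 * h) * (4 * (h : ℝ)) ^ (-(5 / 48 : ℝ)) ≤
      (4 * (h : ℝ)) * (4 * (h : ℝ)) * (4 * (h : ℝ)) ^ (-(5 / 48 : ℝ)) := by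
    apply mul_le_mul_of_nonneg_right _ e2
    nlinarith
  linarith

theorem D4_pos {h : ℕ} (hh : 1 ≤ h) : 0 < D4 h := by
  have h0 : (0 : ℝ) < h := by exact_mod_cast hh
  unfold D4
  positivity

theorem YY_le_far {h : ℕ} {j : ℤ × ℤ} {F : Finset Edg} :
    YY h j F ≤ cnt (fun x F => Far x (4 * h) F) (blk h j) F :=
  Finset.sum_le_sum fun _ _ => ind_mono fun hx => far_of_LA hx

theorem YY_mom {p A : ℝ} (h0 : 0 ≤ p) (h1 : p ≤ 1) (hA1 : 1 ≤ A) {h : ℕ} (hh : 1 ≤ h)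
    (hA : AU p A (4 * h)) (S : Finset Edg) (j : ℤ × ℤ) (k : ℕ) :
    Ex (fun _ => p) S (fun F => YY h j F ^ k) ≤ (k.factorial : ℕ) * (2 * A * D4 h) ^ k := by
  have h2 := mom_far h0 h1 hA1 (s := 4 * h) (by omega) hA S (blk h j) k
  have h3 : Ex (fun _ => p) S (fun F => YY h j F ^ k) ≤
      Ex (fun _ => p) S (fun F => cnt (fun x F => Far x (4 * h) F) (blk h j) F ^ k) :=
    Ex_mono (okq h0 h1) (fun F _ => pow_le_pow_left₀ (YY_nonneg h j F) YY_le_far k)
  refine h3.trans (h2.trans ?_)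
  apply mul_le_mul_of_nonneg_left _ (by positivity)
  have h4 := DD_pos (s := 4 * h) (by omega) (blk h j)
  apply pow_le_pow_left₀ (by positivity)
  exact mul_le_mul_of_nonneg_left (DD_blk hh j) (by positivity)

/-- exponential moment of a block -/
theorem YY_exp {p A z : ℝ} (h0 : 0 ≤ p) (h1 : p ≤ 1) (hA1 : 1 ≤ A) {h : ℕ} (hh : 1 ≤ h)
    (hA : AU p A (4 * h)) (hz : 0 ≤ z) (hzD : z * (2 * A * D4 h) ≤ 1 / 2) (S : Finset Edg)
    (j : ℤ × ℤ) : Ex (fun _ => p) S (fun F => Real.exp (z * YY h j F)) ≤ 2 := by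
  have hD := D4_pos hh
  have := exp_mom h0 h1 (S := S) (f := YY h j) (D := 2 * A * D4 h) (b := 1) (z := z)
    (by positivity) (by norm_num) hz hzD (by
      intro k _
      rw [mul_one]
      exact YY_mom h0 h1 hA1 hh hA S j k)
  linarith

/-- Markov's inequality for a class -/
theorem cls_sum {p A z : ℝ} (h0 : 0 ≤ p) (h1 : p ≤ 1) (hA1 : 1 ≤ A) {h : ℕ} (hh : 1 ≤ h)
    (hA : AU p A (4 * h)) (hz : 0 ≤ z) (hzD : z * (2 * A * D4 h) ≤ 1 / 2) {U : Finset Edg}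
    (T : Finset (ℤ × ℤ)) (hT : ∀ i ∈ T, ∀ j ∈ T, cls i = cls j) (hU : ∀ j ∈ T, ngb h j ⊆ U)
    (M : ℝ) : Pr (fun _ => p) U (fun F => M ≤ ∑ j ∈ T, YY h j F) ≤
      2 ^ T.card * Real.exp (-(z * M)) := by
  have ok := okq h0 h1
  have e1 := cls_prod (p := p) hh T hT hU (fun y => Real.exp (z * y))
  have e2 : ∏ j ∈ T, Ex (fun _ => p) U (fun F => Real.exp (z * YY h j F)) ≤ 2 ^ T.card := by
    rw [← Finset.prod_const]
    apply Finset.prod_le_prod
    · intro j _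
      exact Ex_nonneg ok (fun F _ => (Real.exp_pos _).le)
    · intro j _
      exact YY_exp h0 h1 hA1 hh hA hz hzD U j
  have e3 : Pr (fun _ => p) U (fun F => M ≤ ∑ j ∈ T, YY h j F) ≤
      Ex (fun _ => p) U (fun F => (∏ j ∈ T, Real.exp (z * YY h j F)) * Real.exp (-(z * M))) := by
    unfold Pr
    apply Ex_mono ok
    intro F _
    rw [← Real.exp_sum, ← Finset.mul_sum, ← Real.exp_add]
    by_cases hF : M ≤ ∑ j ∈ T, YY h j F
    · rw [ind_of hF]
      apply Real.one_le_exp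
      have := mul_le_mul_of_nonneg_left hF hz
      linarith
    · rw [ind_not_of hF]
      exact (Real.exp_pos _).le
  rw [Ex_mul_right, e1] at e3
  exact e3.trans (mul_le_mul_of_nonneg_right e2 (Real.exp_pos _).le)

/-- large deviations for the sum over any set of blocks -/
theorem all_sum {p A z : ℝ} (h0 : 0 ≤ p) (h1 : p ≤ 1) (hA1 : 1 ≤ A) {h : ℕ} (hh : 1 ≤ h)
    (hA : AU p A (4 * h)) (hz : 0 ≤ z) (hzD : z * (2 * A * D4 h) ≤ 1 / 2) {U : Finset Edg}
    (T : Finset (ℤ × ℤ)) (hU : ∀ j ∈ T, ngb h j ⊆ U) (M : ℝ) :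
    Pr (fun _ => p) U (fun F => M ≤ ∑ j ∈ T, YY h j F) ≤
      36 * (2 ^ T.card * Real.exp (-(z * (M / 36)))) := by
  classical
  have ok := okq h0 h1
  have hcard : (Finset.univ : Finset (ZMod 6 × ZMod 6)).card = 36 := by
    rw [Finset.card_univ, Fintype.card_prod, ZMod.card]
  have i1 : Pr (fun _ => p) U (fun F => M ≤ ∑ j ∈ T, YY h j F) ≤
      Pr (fun _ => p) U (fun F => ∃ c ∈ (Finset.univ : Finset (ZMod 6 × ZMod 6)),
        M / 36 ≤ ∑ j ∈ T.filter (fun j => cls j = c), YY h j F) := by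
    apply Pr_mono ok
    intro F _ hF
    by_contra hc
    push Not at hc
    have e1 : ∑ j ∈ T, YY h j F = ∑ c : ZMod 6 × ZMod 6,
        ∑ j ∈ T.filter (fun j => cls j = c), YY h j F :=
      (Finset.sum_fiberwise T cls (fun j => YY h j F)).symm
    have e2 : ∑ c : ZMod 6 × ZMod 6, ∑ j ∈ T.filter (fun j => cls j = c), YY h j F <
        ∑ c : ZMod 6 × ZMod 6, M / 36 :=
      Finset.sum_lt_sum_of_nonempty Finset.univ_nonempty (fun c hc' => hc c hc')
    rw [Finset.sum_const, hcard, nsmul_eq_mul] at e2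
    push_cast at e2
    have e3 : (36 : ℝ) * (M / 36) = M := by ring
    rw [e3, ← e1] at e2
    linarith
  refine i1.trans ((Pool.Agent.Y244.PC.Pr_exists_le ok U _ _).trans ?_)
  have i2 : ∀ c ∈ (Finset.univ : Finset (ZMod 6 × ZMod 6)),
      Pr (fun _ => p) U (fun F => M / 36 ≤ ∑ j ∈ T.filter (fun j => cls j = c), YY h j F) ≤
        2 ^ T.card * Real.exp (-(z * (M / 36))) := by
    intro c _
    have h2 := cls_sum h0 h1 hA1 hh hA hz hzD (U := U) (T.filter (fun j => cls j = c)) (by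
      intro i hi j hj
      rw [Finset.mem_filter] at hi hj
      rw [hi.2, hj.2]) (by
      intro j hj
      exact hU j (Finset.mem_filter.mp hj).1) (M / 36)
    refine h2.trans ?_
    apply mul_le_mul_of_nonneg_right _ (Real.exp_pos _).le
    apply pow_le_pow_right₀ (by norm_num)
    exact Finset.card_le_card (Finset.filter_subset _ _)
  refine (Finset.sum_le_sum i2).trans ?_
  rw [Finset.sum_const, hcard, nsmul_eq_mul]
  push_cast
  exact le_rfl

/-- all the blocks of a set have arms -/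
theorem all_one {p δ : ℝ} (h0 : 0 ≤ p) (h1 : p ≤ 1) {h : ℕ} (hh : 1 ≤ h) {U : Finset Edg}
    (T : Finset (ℤ × ℤ)) (hU : ∀ j ∈ T, ngb h j ⊆ U) (hδ0 : 0 ≤ δ) (hδ1 : δ ≤ 1)
    (hδ : ∀ j ∈ T, Pr (fun _ => p) U (fun F => 1 ≤ YY h j F) ≤ δ ^ 36) :
    Pr (fun _ => p) U (fun F => ∀ j ∈ T, 1 ≤ YY h j F) ≤ δ ^ T.card := by
  classical
  have ok := okq h0 h1
  have hcard : (Finset.univ : Finset (ZMod 6 × ZMod 6)).card = 36 := by
    rw [Finset.card_univ, Fintype.card_prod, ZMod.card]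
  obtain ⟨c, hc⟩ : ∃ c : ZMod 6 × ZMod 6, T.card ≤ 36 * (T.filter (fun j => cls j = c)).card := by
    by_contra hcon
    push Not at hcon
    have e1 : T.card = ∑ c : ZMod 6 × ZMod 6, (T.filter (fun j => cls j = c)).card :=
      Finset.card_eq_sum_card_fiberwise (fun _ _ => Finset.mem_univ _)
    have e2 : ∑ c : ZMod 6 × ZMod 6, 36 * (T.filter (fun j => cls j = c)).card <
        ∑ c : ZMod 6 × ZMod 6, T.card :=
      Finset.sum_lt_sum_of_nonempty Finset.univ_nonempty (fun c _ => hcon c)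
    rw [← Finset.mul_sum, ← e1, Finset.sum_const, hcard, smul_eq_mul] at e2
    exact lt_irrefl _ e2
  obtain ⟨T', hT'⟩ : ∃ T', T' = T.filter (fun j => cls j = c) := ⟨_, rfl⟩
  rw [← hT'] at hc
  have hsub : T' ⊆ T := by rw [hT']; exact Finset.filter_subset _ _
  have i1 : Pr (fun _ => p) U (fun F => ∀ j ∈ T, 1 ≤ YY h j F) ≤
      Pr (fun _ => p) U (fun F => ∀ j ∈ T', 1 ≤ YY h j F) :=
    Pr_mono ok (fun F _ hF j hj => hF j (hsub hj))
  have i2 := Pool.Agent.Y244.PC.indep_prod (p := fun _ : Edg => p) (U := U) T'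
    (fun j F => 1 ≤ YY h j F) (ngb h) (fun j hj => hU j (hsub hj)) (by
      intro i hi j hj hne
      rw [hT', Finset.mem_filter] at hi hj
      exact ngb_disj hh (hi.2.trans hj.2.symm) hne) (by
      intro j _ F
      show 1 ≤ YY h j F ↔ 1 ≤ YY h j (F ∩ ngb h j)
      rw [← YY_local])
  rw [i2] at i1
  refine i1.trans ?_
  calc ∏ j ∈ T', Pr (fun _ => p) U (fun F => 1 ≤ YY h j F) ≤ ∏ j ∈ T', δ ^ 36 := by
        apply Finset.prod_le_prod
        · intro j _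
          exact Pr_nonneg ok _ _
        · intro j hj
          exact hδ j (hsub hj)
    _ = δ ^ (36 * T'.card) := by rw [Finset.prod_const, ← pow_mul]
    _ ≤ δ ^ T.card := pow_le_pow_of_le_one hδ0 hδ1 hc

end Pool.Agent.D0H95.CS
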