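import Pool.Agent.D0H95.CS.Avg

/-!
The second moment method at a general parameter: the number of vertices of a box connected far away.
-/

set_option autoImplicit false
set_option maxHeartbeats 400000
set_option linter.unusedVariables false

namespace Pool.Agent.D0H95.CS
open Finset H974 Pool.Agent.H160R2.CV Pool.Agent.H160R2.CV.Quad Pool.Agent.Y244.PC

/-- second moment method -/
theorem pz {p : ℝ} (h0 : 0 ≤ p) (h1 : p ≤ 1) {S : Finset Edg} {f : Finset Edg → ℝ}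
    (hf : ∀ F, 0 ≤ f F) {B : Finset Edg → Prop} (hB : ∀ F, ¬ B F → f F = 0) {θ μ ν : ℝ}
    (hθ : 0 ≤ θ) (hμ0 : 0 ≤ μ) (hμ : μ ≤ Ex (fun _ => p) S f)
    (hθB : θ * Pr (fun _ => p) S B ≤ μ / 2)
    (hν : Ex (fun _ => p) S (fun F => f F ^ 2) ≤ ν) :
    μ ^ 2 ≤ 4 * (ν * Pr (fun _ => p) S (fun F => θ ≤ f F)) := by
  have ok := okq h0 h1
  have i1 : Ex (fun _ => p) S f ≤ Ex (fun _ => p) S (fun F => θ * ind (B F) +
      f F * ind (θ ≤ f F)) := by
    apply Ex_mono ok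
    intro F _
    by_cases hF : θ ≤ f F
    · rw [ind_of hF, mul_one]
      have := ind_nonneg (B F)
      have : 0 ≤ θ * ind (B F) := by positivity
      linarith
    · rw [ind_not_of hF, mul_zero, add_zero]
      by_cases hBF : B F
      · rw [ind_of hBF, mul_one]
        push Not at hF
        exact hF.le
      · rw [hB F hBF]
        have := ind_nonneg (B F)
        positivity
  rw [Ex_add, Ex_mul_left] at i1
  have i2 : θ * Ex (fun _ => p) S (fun F => ind (B F)) ≤ μ / 2 := hθB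
  have i3 : μ / 2 ≤ Ex (fun _ => p) S (fun F => f F * ind (θ ≤ f F)) := by linarith
  have i4 := Ex_cs ok S f (fun F => ind (θ ≤ f F))
  have i5 : Ex (fun _ => p) S (fun F => ind (θ ≤ f F) ^ 2) =
      Pr (fun _ => p) S (fun F => θ ≤ f F) := by
    unfold Pr
    apply Ex_congr
    intro F _
    rw [sq, ind_sq]
  rw [i5] at i4
  have i6 : (μ / 2) ^ 2 ≤ (Ex (fun _ => p) S (fun F => f F * ind (θ ≤ f F))) ^ 2 :=
    pow_le_pow_left₀ (by positivity) i3 2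
  have i7 : Ex (fun _ => p) S (fun F => f F ^ 2) * Pr (fun _ => p) S (fun F => θ ≤ f F) ≤
      ν * Pr (fun _ => p) S (fun F => θ ≤ f F) :=
    mul_le_mul_of_nonneg_right hν (Pr_nonneg ok _ _)
  nlinarith

theorem LA_iff {v : Vtx} {m : ℕ} {F : Finset Edg} : LA v m F ↔ Arm m (sh v F) := by
  have ev : ((0, 0) : Vtx) + v = v := by
    refine Prod.ext ?_ ?_ <;> simp
  unfold LA Arm onB
  constructor
  · rintro ⟨w, k1, k2, k3⟩
    refine ⟨w - v, ⟨?_, ?_⟩, ?_⟩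
    · unfold inR at k1 ⊢
      simp only [Prod.fst_sub, Prod.snd_sub]
      omega
    · simp only [Prod.fst_sub, Prod.snd_sub]
      omega
    · rw [sh_reach_box, ev, sub_add_cancel]
      exact k3
  · rintro ⟨w, ⟨k1, k2⟩, k3⟩
    rw [sh_reach_box, ev] at k3
    refine ⟨w + v, ?_, ?_, k3⟩
    · unfold inR at k1 ⊢
      simp only [Prod.fst_add, Prod.snd_add]
      omega
    · simp only [Prod.fst_add, Prod.snd_add]
      omega

theorem pr_LA_eq (p : ℝ) {v : Vtx} {m : ℕ} {S : Finset Edg} (hS : bo v m ⊆ S) :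
    Pr (fun _ => p) S (LA v m) = arm p m := by
  have e1 : Pr (fun _ => p) S (LA v m) = Pr (fun _ => p) S (fun F => Arm m (sh v F)) :=
    Pr_congr (fun F _ => LA_iff)
  rw [e1, pr_shq]
  apply pr_Arm
  rw [← sh_bo v m]
  exact sh_mono hS

theorem far_geq {p : ℝ} (h0 : 0 ≤ p) (h1 : p ≤ 1) {S : Finset Edg} {v : Vtx} {r : ℕ}
    (hS : bo v r ⊆ S) : arm p r ≤ Pr (fun _ => p) S (Far v r) := by
  rw [← pr_LA_eq p hS]
  exact Pr_mono (okq h0 h1) (fun F _ hF => far_of_LA hF)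

theorem pow_m {m : ℝ} (hm : 0 < m) : m ^ (91 / 48 : ℝ) = m * m * m ^ (-(5 / 48 : ℝ)) := by
  nth_rewrite 2 [← Real.rpow_one m]
  nth_rewrite 3 [← Real.rpow_one m]
  rw [← Real.rpow_add hm, ← Real.rpow_add hm]
  norm_num

theorem DD_bx {m : ℕ} (hm : 1 ≤ m) : DD (4 * m) (bx m) ≤ 1000 * (m : ℝ) ^ (91 / 48 : ℝ) := by
  have hm0 : (0 : ℝ) < m := by exact_mod_cast hm
  have hm1 : (1 : ℝ) ≤ m := by exact_mod_cast hm
  unfold DD
  rw [w_card_bx]
  push_cast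
  have e1 : (4 * (m : ℝ)) ^ (91 / 48 : ℝ) ≤ 16 * (m : ℝ) ^ (91 / 48 : ℝ) := by
    rw [Real.mul_rpow (by norm_num) hm0.le]
    apply mul_le_mul_of_nonneg_right _ (by positivity)
    calc (4 : ℝ) ^ (91 / 48 : ℝ) ≤ (4 : ℝ) ^ (2 : ℝ) :=
          Real.rpow_le_rpow_of_exponent_le (by norm_num) (by norm_num)
      _ = 16 := by norm_num
  have e2 : (4 * (m : ℝ)) ^ (-(5 / 48 : ℝ)) ≤ (m : ℝ) ^ (-(5 / 48 : ℝ)) :=
    Real.rpow_le_rpow_of_nonpos hm0 (by linarith) (by norm_num)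
  have e3 : (2 * (m : ℝ) + 1) ^ 2 ≤ 9 * (m * m) := by nlinarith
  have e4 : (2 * (m : ℝ) + 1) ^ 2 * (4 * (m : ℝ)) ^ (-(5 / 48 : ℝ)) ≤
      9 * (m : ℝ) ^ (91 / 48 : ℝ) := by
    rw [pow_m hm0]
    calc (2 * (m : ℝ) + 1) ^ 2 * (4 * (m : ℝ)) ^ (-(5 / 48 : ℝ)) ≤
        (9 * (m * m)) * (m : ℝ) ^ (-(5 / 48 : ℝ)) :=
          mul_le_mul e3 e2 (by positivity) (by positivity)
      _ = _ := by ring
  have e5 : 0 ≤ (m : ℝ) ^ (91 / 48 : ℝ) := by positivity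
  linarith

/-- the number of vertices connected far away is large with positive probability -/
theorem count_p {A a : ℝ} (hA1 : 1 ≤ A) (ha : 0 < a) : ∃ θ c : ℝ, 0 < θ ∧ 0 < c ∧
    ∀ p : ℝ, 0 ≤ p → p ≤ 1 → ∀ m : ℕ, 1 ≤ m → AU p A (4 * m) →
      a * (m : ℝ) ^ (-(5 / 48 : ℝ)) ≤ arm p (4 * m) → ∀ S : Finset Edg, boxE (5 * m) ⊆ S →
        c ≤ Pr (fun _ => p) S (fun F => θ * (m : ℝ) ^ (91 / 48 : ℝ) ≤ Yc m F) := by
  refine ⟨a / 2, a ^ 2 / (4 * (2 * (2000 * A) ^ 2)), by positivity, by positivity,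
    fun p h0 h1 m hm hAU harm S hS => ?_⟩
  have hm0 : (0 : ℝ) < m := by exact_mod_cast hm
  have hM : 0 < (m : ℝ) ^ (91 / 48 : ℝ) := by positivity
  have ok := okq h0 h1
  have k1 : a * (m : ℝ) ^ (91 / 48 : ℝ) ≤ Ex (fun _ => p) S (Yc m) := by
    unfold Yc
    rw [Ex_sum]
    have h2 : ∀ x ∈ bx m, a * (m : ℝ) ^ (-(5 / 48 : ℝ)) ≤
        Ex (fun _ => p) S (fun F => ind (Far x (4 * m) F)) := by
      intro x hx
      refine harm.trans (far_geq h0 h1 ?_)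
      refine Finset.Subset.trans ?_ hS
      rw [VolAux.mem_bx] at hx
      unfold nv at hx
      apply bo_sub_boxE <;> omega
    have h3 := Finset.sum_le_sum h2
    rw [Finset.sum_const, nsmul_eq_mul, w_card_bx] at h3
    refine le_trans ?_ h3
    rw [pow_m hm0]
    have e1 : (m : ℝ) * m ≤ (2 * (m : ℝ) + 1) ^ 2 := by nlinarith
    have e2 : 0 ≤ a * (m : ℝ) ^ (-(5 / 48 : ℝ)) := by positivity
    calc a * (m * m * (m : ℝ) ^ (-(5 / 48 : ℝ))) = m * m * (a * (m : ℝ) ^ (-(5 / 48 : ℝ))) := by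
          ring
      _ ≤ _ := mul_le_mul_of_nonneg_right e1 e2
  have k2 := mom_far h0 h1 hA1 (s := 4 * m) (by omega) hAU S (bx m) 2
  have e0 : (((2 : ℕ).factorial : ℕ) : ℝ) = 2 := by norm_num [Nat.factorial]
  rw [e0] at k2
  have hDp := DD_pos (s := 4 * m) (by omega) (bx m)
  have k3 : Ex (fun _ => p) S (fun F => Yc m F ^ 2) ≤
      2 * (2000 * A * (m : ℝ) ^ (91 / 48 : ℝ)) ^ 2 := by
    refine le_trans k2 ?_
    apply mul_le_mul_of_nonneg_left _ (by norm_num)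
    apply pow_le_pow_left₀ (by positivity)
    calc 2 * A * DD (4 * m) (bx m) ≤ 2 * A * (1000 * (m : ℝ) ^ (91 / 48 : ℝ)) :=
          mul_le_mul_of_nonneg_left (DD_bx hm) (by positivity)
      _ = _ := by ring
  have k4 := pz h0 h1 (S := S) (f := Yc m) (Yc_nonneg m) (B := fun _ => True)
    (fun F hF => absurd trivial hF) (θ := a / 2 * (m : ℝ) ^ (91 / 48 : ℝ))
    (μ := a * (m : ℝ) ^ (91 / 48 : ℝ)) (by positivity) (by positivity) k1 (by
      have e1 : Pr (fun _ => p) S (fun _ => True) = 1 := Pr_true S (fun _ _ => trivial)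
      rw [e1]
      apply le_of_eq
      ring) k3
  rw [div_le_iff₀ (by positivity)]
  have e3 : (a ^ 2) * ((m : ℝ) ^ (91 / 48 : ℝ)) ^ 2 ≤
      (Pr (fun _ => p) S (fun F => a / 2 * (m : ℝ) ^ (91 / 48 : ℝ) ≤ Yc m F) *
        (4 * (2 * (2000 * A) ^ 2))) * ((m : ℝ) ^ (91 / 48 : ℝ)) ^ 2 := by
    calc (a ^ 2) * ((m : ℝ) ^ (91 / 48 : ℝ)) ^ 2 = (a * (m : ℝ) ^ (91 / 48 : ℝ)) ^ 2 := by ring
      _ ≤ _ := k4
      _ = _ := by ring
  exact le_of_mul_le_mul_right e3 (by positivity)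

/-- the count event at `z` -/
def CtA (z : Vtx) (T : ℝ) (m : ℕ) (F : Finset Edg) : Prop := T ≤ Yc m (sh z F)

theorem CtA_incr (S : Finset Edg) (z : Vtx) (T : ℝ) (m : ℕ) : IncrE S (CtA z T m) :=
  fun _ _ h _ hF => le_trans hF (Yc_mono (sh_mono h))

theorem pr_CtA {p T c : ℝ} {m : ℕ} (h : ∀ S : Finset Edg,
    boxE (5 * m) ⊆ S → c ≤ Pr (fun _ => p) S (fun F => T ≤ Yc m F))
    {z : Vtx} {S : Finset Edg} (hS : bo z (5 * m) ⊆ S) : c ≤ Pr (fun _ => p) S (CtA z T m) := by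
  have h1 := pr_shq p z S (fun F => T ≤ Yc m F)
  have h2 : Pr (fun _ => p) S (CtA z T m) = Pr (fun _ => p) (sh z S) (fun F => T ≤ Yc m F) := h1
  rw [h2]
  apply h
  rw [← sh_bo z (5 * m)]
  exact sh_mono hS

/-- the vertices produced by the count event -/
theorem CtA_set {z : Vtx} {T : ℝ} {m : ℕ} {F : Finset Edg} (h : CtA z T m F) :
    ∃ X : Finset Vtx, T ≤ (X.card : ℝ) ∧ ∀ u ∈ X, nv (u - z) ≤ m ∧ Far u (4 * m) F := by
  classical
  unfold CtA Yc at h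
  rw [w_sum_ind] at h
  refine ⟨((bx m).filter (fun x => Far x (4 * m) (sh z F))).map (addRightEmbedding z), ?_, ?_⟩
  · rwa [Finset.card_map]
  · intro u hu
    rw [Finset.mem_map] at hu
    obtain ⟨w, hw, rfl⟩ := hu
    rw [Finset.mem_filter] at hw
    obtain ⟨hw, v, hv, hr⟩ := hw
    refine ⟨?_, v + z, ?_, ?_⟩
    · show nv (w + z - z) ≤ m
      rw [add_sub_cancel_right]
      exact VolAux.mem_bx.mp hw
    · show 4 * m ≤ nv (v + z - (w + z))
      rw [add_sub_add_right_eq_sub]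
      exact hv
    · exact sh_reach.mp hr

end Pool.Agent.D0H95.CS
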