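import Pool.Agent.D0H95.CS.Count
import Pool.Agent.Y244.PC.Grid
import Pool.Agent.W424.NC.ArmLow
import Pool.Agent.W424.NC.ArmUp

/-!
Lower bound for the size of the cluster of the origin below the critical point: a grid of crossings.
-/

set_option autoImplicit false
set_option maxHeartbeats 400000
set_option linter.unusedVariables false

namespace Pool.Agent.D0H95.CS
open Finset H974 Pool.Agent.H160R2.CV Pool.Agent.H160R2.CV.Quad Pool.Agent.Y244.PC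
open Pool.Agent.W424.NC

/-- the centre of a cell of the grid -/
noncomputable abbrev gc (n m : ℕ) (q : ℕ × ℕ) : Vtx := Pool.Agent.Y244.PC.cen n m q.1 q.2

/-- the grid, the counts and the arm produce a large cluster of the origin -/
theorem grid_vol {n m i : ℕ} (hm : 1 ≤ m) (hn : n = 2 * m * (2 * i + 1) + m) {F : Finset Edg}
    (hG : Grid n m (2 * i + 1) F) {T : ℝ}
    (hC : ∀ q ∈ range (2 * i + 1) ×ˢ range (2 * i + 1), CtA (gc n m q) T m F)
    (hA : LA (0, 0) (4 * m) F) : Vol (((2 * i + 1 : ℕ) : ℝ) ^ 2 * T) ↑F := by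
  classical
  have hK : 4 * m * (2 * i + 1) + 2 * m ≤ 2 * n := by
    rw [hn]; ring_nf; omega
  obtain ⟨z, hz, hr⟩ := grid_meet hm hK hG
  have h1 : ∀ q : ℕ × ℕ, ∃ X : Finset Vtx, q ∈ range (2 * i + 1) ×ˢ range (2 * i + 1) →
      T ≤ (X.card : ℝ) ∧ ∀ u ∈ X, nv (u - gc n m q) ≤ m ∧ Far u (4 * m) F := by
    intro q
    by_cases hq : q ∈ range (2 * i + 1) ×ˢ range (2 * i + 1)
    · obtain ⟨X, h2, h3⟩ := CtA_set (hC q hq)
      exact ⟨X, fun _ => ⟨h2, h3⟩⟩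
    · exact ⟨∅, fun h => absurd h hq⟩
  choose X hX using h1
  have h0z : Reach (↑F ∩ ↑(boxE n)) (0, 0) z := by
    apply hr i i (by omega) (by omega) (0, 0) _ (far_of_LA hA)
    have e1 : st n m i + 3 * m = 0 := by
      unfold st
      rw [hn]
      push_cast
      ring
    unfold Pool.Agent.Y244.PC.cen
    rw [e1]
    have : ((0, 0) : Vtx) - (0, 0) = 0 := sub_self _
    rw [this]
    unfold nv
    simp
  refine ⟨(range (2 * i + 1) ×ˢ range (2 * i + 1)).biUnion X, ?_, ?_⟩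
  · rw [Finset.card_biUnion]
    · push_cast
      calc (2 * (i : ℝ) + 1) ^ 2 * T
          = ∑ q ∈ range (2 * i + 1) ×ˢ range (2 * i + 1), T := by
            rw [Finset.sum_const, Finset.card_product, Finset.card_range, nsmul_eq_mul]
            push_cast
            ring
        _ ≤ _ := Finset.sum_le_sum fun q hq => (hX q hq).1
    · intro q hq q' hq' hne
      show Disjoint (X q) (X q')
      rw [Finset.disjoint_left]
      intro u hu hu'
      have := cen_disj hm ((hX q hq).2 u hu).1 ((hX q' hq').2 u hu').1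
      exact hne (Prod.ext this.1 this.2)
  · intro u hu
    rw [Finset.mem_biUnion] at hu
    obtain ⟨q, hq, hu⟩ := hu
    obtain ⟨h2, h3⟩ := (hX q hq).2 u hu
    rw [Finset.mem_product, Finset.mem_range, Finset.mem_range] at hq
    exact (h0z.trans (hr q.1 q.2 hq.1 hq.2 u h2 h3).symm).mono Set.inter_subset_left

/-- the probability of the grid -/
theorem grid_fkg {p κ c T : ℝ} (h0 : 0 ≤ p) (h1 : p ≤ 1) {n m i : ℕ} (hm : 1 ≤ m)
    (hW : H12S.Win p κ m) (hn : n = 2 * m * (2 * i + 1) + m) (hc : 0 ≤ c)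
    (hCt : ∀ S : Finset Edg, boxE (5 * m) ⊆ S →
      c ≤ Pr (fun _ => p) S (fun F => T ≤ Yc m F)) :
    (κ ^ 12 * c) ^ ((2 * i + 1) ^ 2) * arm p (4 * m) ≤
      Pr (fun _ => p) (boxE (n + 2 * m))
        (fun F => Vol (((2 * i + 1 : ℕ) : ℝ) ^ 2 * T) ↑F) := by
  classical
  have ok := okq h0 h1
  obtain ⟨K, hKd⟩ : ∃ K : ℕ, K = 2 * i + 1 := ⟨_, rfl⟩
  have hK1 : 1 ≤ K := by omega
  have hK : 4 * m * K + 2 * m ≤ 2 * n := by
    rw [hn, ← hKd]; ring_nf; omega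
  obtain ⟨S, hS⟩ : ∃ S : Finset Edg, S = boxE (n + 2 * m) := ⟨_, rfl⟩
  have hbox : boxE n ⊆ S := by rw [hS]; exact boxE_mono (by omega)
  have hκ0 := hW.kpos
  have hκ1 : κ ≤ 1 := by linarith [hW.kle]
  obtain ⟨q0, hq0⟩ : ∃ q0 : ℝ, q0 = κ ^ (2 * K + 1) := ⟨_, rfl⟩
  have hq00 : 0 ≤ q0 := by rw [hq0]; positivity
  have hstrip : q0 ≤ hh p (2 * (n : ℤ)) (2 * m) := by
    have h2 := Pool.Agent.W424.NC.hh_long hW hm K
    rw [hq0]
    refine h2.trans (hh_mono h0 h1 (by omega) ?_ (by omega))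
    have : (2 * (n : ℤ)) = 4 * m * K + 2 * m := by
      have : 2 * n = 4 * m * K + 2 * m := by rw [hn, ← hKd]; ring
      exact_mod_cast this
    rw [this]
    have h3 : (0 : ℤ) ≤ m * K := by positivity
    nlinarith
  have eLR : ∀ j ∈ range (K + 1), q0 ≤ Pr (fun _ => p) S
      (LRc (-(n : ℤ)) n (st n m j) (st n m j + 2 * m)) := by
    intro j hj
    rw [Finset.mem_range] at hj
    have a1 := st_ge n m j
    have a3 := st_le hK (show j ≤ K by omega)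
    have h2 : LRE (-(n : ℤ)) n (st n m j) (st n m j + 2 * m) ⊆ S := by
      refine LRE_subset_RE.trans (Finset.Subset.trans ?_ hbox)
      unfold boxE
      exact RE_subset le_rfl le_rfl a1 a3
    rw [pr_LRc p h2]
    have e1 : (n : ℤ) - -(n : ℤ) = 2 * n := by ring
    have e2 : st n m j + 2 * m - st n m j = 2 * m := by ring
    rw [e1, e2]
    exact hstrip
  have eTB : ∀ j ∈ range (K + 1), q0 ≤ Pr (fun _ => p) S
      (TBc (st n m j) (st n m j + 2 * m) (-(n : ℤ)) n) := by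
    intro j hj
    rw [Finset.mem_range] at hj
    have a1 := st_ge n m j
    have a3 := st_le hK (show j ≤ K by omega)
    have h2 : TBE (st n m j) (st n m j + 2 * m) (-(n : ℤ)) n ⊆ S := by
      refine TBE_subset_RE.trans (Finset.Subset.trans ?_ hbox)
      unfold boxE
      exact RE_subset a1 a3 le_rfl le_rfl
    rw [pr_TBc p h2]
    have e1 : (n : ℤ) - -(n : ℤ) = 2 * n := by ring
    have e2 : st n m j + 2 * m - st n m j = 2 * m := by ring
    rw [e1, e2]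
    exact hstrip
  have eCt : ∀ q ∈ range K ×ˢ range K, c ≤ Pr (fun _ => p) S (CtA (gc n m q) T m) := by
    intro q hq
    rw [Finset.mem_product, Finset.mem_range, Finset.mem_range] at hq
    apply pr_CtA hCt
    rw [hS]
    exact cen_bo hK hq.1 hq.2
  have f1 := fkg_incr ok (S := S) (range (K + 1))
    (fun j => LRc (-(n : ℤ)) n (st n m j) (st n m j + 2 * m)) (fun j _ => LRc_incr _ _ _ _ _)
  have f2 := fkg_incr ok (S := S) (range (K + 1))
    (fun j => TBc (st n m j) (st n m j + 2 * m) (-(n : ℤ)) n) (fun j _ => TBc_incr _ _ _ _ _)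
  have f3 := fkg_incr ok (S := S) (range K ×ˢ range K)
    (fun q => CtA (gc n m q) T m) (fun q _ => CtA_incr _ _ _ _)
  have g1 := (pow_card_le_prod (range (K + 1)) _ hq00 eLR).trans f1
  have g2 := (pow_card_le_prod (range (K + 1)) _ hq00 eTB).trans f2
  have g3 := (pow_card_le_prod (range K ×ˢ range K) _ hc eCt).trans f3
  rw [Finset.card_range] at g1 g2
  rw [Finset.card_product, Finset.card_range] at g3
  have i1 : IncrE S (fun F => ∀ j ∈ range (K + 1),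
      LRc (-(n : ℤ)) n (st n m j) (st n m j + 2 * m) F) :=
    fun F G hFG hG h j hj => (h j hj).mono hFG
  have i2 : IncrE S (fun F => ∀ j ∈ range (K + 1),
      TBc (st n m j) (st n m j + 2 * m) (-(n : ℤ)) n F) :=
    fun F G hFG hG h j hj => (h j hj).mono hFG
  have i3 : IncrE S (fun F => ∀ q ∈ range K ×ˢ range K, CtA (gc n m q) T m F) :=
    fun F G hFG hG h q hq => CtA_incr S _ _ _ F G hFG hG (h q hq)
  have i4 : IncrE S (LA (0, 0) (4 * m)) := fun F G hFG _ h => LA_inc _ _ F G hFG h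
  have j1 := Pr_harris ok i1 i2
  have i12 : IncrE S (Grid n m K) :=
    fun F G hFG hG h => ⟨i1 F G hFG hG h.1, i2 F G hFG hG h.2⟩
  have j2 := Pr_harris ok i12 i3
  have i123 : IncrE S (fun F => Grid n m K F ∧
      ∀ q ∈ range K ×ˢ range K, CtA (gc n m q) T m F) :=
    fun F G hFG hG h => ⟨i12 F G hFG hG h.1, i3 F G hFG hG h.2⟩
  have j3 := Pr_harris ok i123 i4
  have p1 : 0 ≤ q0 ^ (K + 1) := pow_nonneg hq00 _
  have p3 : 0 ≤ c ^ (K * K) := pow_nonneg hc _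
  have k1 : q0 ^ (K + 1) * q0 ^ (K + 1) ≤ Pr (fun _ => p) S (Grid n m K) :=
    (mul_le_mul g1 g2 p1 (p1.trans g1)).trans j1
  have k2 := (mul_le_mul k1 g3 p3 ((mul_nonneg p1 p1).trans k1)).trans j2
  have harm : Pr (fun _ => p) S (LA (0, 0) (4 * m)) = arm p (4 * m) := by
    apply pr_LA_eq
    rw [hS]
    apply bo_sub_boxE <;> push_cast <;>
      (have : 2 * m * K + m = n := by rw [hn, hKd]
       have h5 : 2 * m * 1 ≤ 2 * m * K := Nat.mul_le_mul_left _ hK1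
       omega)
  have ha := arm_nonneg h0 h1 (4 * m)
  rw [harm] at j3
  have k3 := (mul_le_mul_of_nonneg_right k2 ha).trans j3
  have k4 : (κ ^ 12 * c) ^ (K ^ 2) ≤ q0 ^ (K + 1) * q0 ^ (K + 1) * c ^ (K * K) := by
    rw [mul_pow, sq K]
    apply mul_le_mul_of_nonneg_right _ p3
    rw [hq0, ← pow_mul, ← pow_mul, ← pow_add]
    apply pow_le_pow_of_le_one hκ0.le hκ1
    nlinarith
  rw [← hKd, ← hS]
  refine (mul_le_mul_of_nonneg_right k4 ha).trans (k3.trans (Pr_mono ok ?_))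
  rintro F _ ⟨⟨m1, m2⟩, m3⟩
  rw [hKd] at m1 m2 ⊢
  exact grid_vol hm hn m1 m2 m3

/-- lower bound below the critical point, in finite boxes -/
theorem sub_low : ∃ c C : ℝ, 0 < c ∧ 0 < C ∧ ∀ p : ℝ, 1 / 4 ≤ p → p ≤ 1 / 2 →
    ∀ N : ℕ, 1 ≤ N → ∃ R : ℕ, c * (N : ℝ) ^ (-(5 / 91 : ℝ)) *
      Real.exp (-(C * ((N : ℝ) * (1 / 2 - p) ^ (91 / 36 : ℝ)))) ≤
        Pr (fun _ => p) (boxE R) (fun F => Vol N ↑F) := by
  obtain ⟨κ, a, C0, hκ, ha, hC0, hG⟩ := nearG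
  obtain ⟨c2, C2, hc2, hC2, h2⟩ := arm_upper
  obtain ⟨A, hAdef⟩ : ∃ A : ℝ, A = C2 + 1 := ⟨_, rfl⟩
  have hA1 : 1 ≤ A := by rw [hAdef]; linarith
  obtain ⟨a', ha'⟩ : ∃ a' : ℝ, a' = a * (4 : ℝ) ^ (-(5 / 48 : ℝ)) := ⟨_, rfl⟩
  have ha'0 : 0 < a' := by rw [ha']; positivity
  obtain ⟨θ, c, hθ, hc, hcount⟩ := count_p hA1 ha'0
  -- the base of the exponential
  obtain ⟨b, hb⟩ : ∃ b : ℝ, b = min (κ ^ 12 * c) (1 / 2) := ⟨_, rfl⟩
  have hb0 : 0 < b := by rw [hb]; exact lt_min (by positivity) (by norm_num)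
  have hb1 : b ≤ 1 / 2 := by rw [hb]; exact min_le_right _ _
  have hlog : 0 < -Real.log b := by
    have : Real.log b < 0 := Real.log_neg hb0 (by linarith)
    linarith
  obtain ⟨D, hD⟩ : ∃ D : ℝ, D = (1 + C0 ^ (91 / 48 : ℝ)) / θ := ⟨_, rfl⟩
  have hD0 : 0 < D := by rw [hD]; positivity
  refine ⟨a' * (2 : ℝ) ^ (-(5 / 48 : ℝ)) * Real.exp (-(-Real.log b * (18 + 8 * D))),
    -Real.log b * (8 * D), by positivity, by positivity, fun p hp0 hp1 N hN => ?_⟩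
  have h0 : 0 ≤ p := by linarith
  have h1 : p ≤ 1 := by linarith
  have hN0 : (0 : ℝ) < N := by exact_mod_cast hN
  have hN1 : (1 : ℝ) ≤ N := by exact_mod_cast hN
  obtain ⟨t, ht⟩ : ∃ t : ℝ, t = 1 / 2 - p := ⟨_, rfl⟩
  have ht0 : 0 ≤ t := by rw [ht]; linarith
  obtain ⟨n0, hn0⟩ : ∃ n0 : ℕ, n0 = ⌈(N : ℝ) ^ (48 / 91 : ℝ)⌉₊ := ⟨_, rfl⟩
  have hx1 : 1 ≤ (N : ℝ) ^ (48 / 91 : ℝ) := Real.one_le_rpow hN1 (by norm_num)
  have hn01 : (N : ℝ) ^ (48 / 91 : ℝ) ≤ n0 := by rw [hn0]; exact Nat.le_ceil _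
  have hn02 : (n0 : ℝ) ≤ 2 * (N : ℝ) ^ (48 / 91 : ℝ) := by
    have := Nat.ceil_lt_add_one (a := (N : ℝ) ^ (48 / 91 : ℝ)) (by positivity)
    rw [← hn0] at this
    linarith
  have hn0p : 1 ≤ n0 := by
    have : (1 : ℝ) ≤ n0 := hx1.trans hn01
    exact_mod_cast this
  obtain ⟨m, hm1, hmn, hW, hlow, hor⟩ := hG p n0 hp0 hp1 hn0p
  rw [← ht] at hor
  have hm0 : (0 : ℝ) < m := by exact_mod_cast hm1
  have hAU : AU p A (4 * m) := by
    intro k hk _
    refine (h2 p h0 hp1 k hk).trans ?_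
    have e1 : Real.exp (-(c2 * (k * (1 / 2 - p) ^ (4 / 3 : ℝ)))) ≤ 1 := by
      apply Real.exp_le_one_iff.mpr
      rw [← ht]
      have : 0 ≤ c2 * (k * t ^ (4 / 3 : ℝ)) := by positivity
      linarith
    have e2 : 0 ≤ C2 * (k : ℝ) ^ (-(5 / 48) : ℝ) := by positivity
    calc C2 * (k : ℝ) ^ (-(5 / 48) : ℝ) * Real.exp (-(c2 * (k * (1 / 2 - p) ^ (4 / 3 : ℝ))))
        ≤ C2 * (k : ℝ) ^ (-(5 / 48) : ℝ) * 1 := mul_le_mul_of_nonneg_left e1 e2
      _ ≤ A * (k : ℝ) ^ (-(5 / 48) : ℝ) := by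
          rw [mul_one]
          apply mul_le_mul_of_nonneg_right _ (by positivity)
          rw [hAdef]; linarith
  have harm : a' * (m : ℝ) ^ (-(5 / 48 : ℝ)) ≤ arm p (4 * m) := by
    refine le_trans (le_of_eq ?_) (hlow (4 * m) (by omega) le_rfl)
    rw [ha']
    push_cast
    rw [Real.mul_rpow (by norm_num) hm0.le]
    ring
  have hct := hcount p h0 h1 m hm1 hAU harm
  -- the number of cells
  have hM : 0 < (m : ℝ) ^ (91 / 48 : ℝ) := by positivity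
  obtain ⟨x, hx⟩ : ∃ x : ℝ, x = N / (θ * (m : ℝ) ^ (91 / 48 : ℝ)) := ⟨_, rfl⟩
  have hx0 : 0 < x := by rw [hx]; positivity
  have hxD : x ≤ D * (1 + N * t ^ (91 / 36 : ℝ)) := by
    have key : (N : ℝ) / (m : ℝ) ^ (91 / 48 : ℝ) ≤
        (1 + C0 ^ (91 / 48 : ℝ)) * (1 + N * t ^ (91 / 36 : ℝ)) := by
      have t0 : 0 ≤ t ^ (91 / 36 : ℝ) := by positivity
      have c0 : 0 < C0 ^ (91 / 48 : ℝ) := by positivity
      rcases hor with hor | hor
      · have e1 : (N : ℝ) ≤ (m : ℝ) ^ (91 / 48 : ℝ) := by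
          rw [hor]
          calc (N : ℝ) = ((N : ℝ) ^ (48 / 91 : ℝ)) ^ (91 / 48 : ℝ) := by
                rw [← Real.rpow_mul hN0.le]
                norm_num
            _ ≤ (n0 : ℝ) ^ (91 / 48 : ℝ) := Real.rpow_le_rpow (by positivity) hn01 (by norm_num)
        have e2 : (N : ℝ) / (m : ℝ) ^ (91 / 48 : ℝ) ≤ 1 := by
          rw [div_le_one hM]
          exact e1
        have : 0 ≤ C0 ^ (91 / 48 : ℝ) * (1 + N * t ^ (91 / 36 : ℝ)) + N * t ^ (91 / 36 : ℝ) := by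
          positivity
        nlinarith
      · have e1 : 1 ≤ (C0 * (m * t ^ (4 / 3 : ℝ))) ^ (91 / 48 : ℝ) :=
          Real.one_le_rpow hor (by norm_num)
        have e2 : (C0 * (m * t ^ (4 / 3 : ℝ))) ^ (91 / 48 : ℝ) =
            C0 ^ (91 / 48 : ℝ) * ((m : ℝ) ^ (91 / 48 : ℝ) * t ^ (91 / 36 : ℝ)) := by
          rw [Real.mul_rpow hC0.le (by positivity), Real.mul_rpow hm0.le (by positivity),
            ← Real.rpow_mul ht0]
          norm_num
        rw [e2] at e1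
        have e3 : (N : ℝ) / (m : ℝ) ^ (91 / 48 : ℝ) ≤
            C0 ^ (91 / 48 : ℝ) * (N * t ^ (91 / 36 : ℝ)) := by
          rw [div_le_iff₀ hM]
          have := mul_le_mul_of_nonneg_left e1 hN0.le
          linarith
        have : 0 ≤ C0 ^ (91 / 48 : ℝ) + (1 + N * t ^ (91 / 36 : ℝ)) := by positivity
        nlinarith
    rw [hx, hD]
    have e4 : (N : ℝ) / (θ * (m : ℝ) ^ (91 / 48 : ℝ)) = (N / (m : ℝ) ^ (91 / 48 : ℝ)) / θ := by
      field_simp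
    rw [e4, div_mul_eq_mul_div]
    exact div_le_div_of_nonneg_right key hθ.le
  obtain ⟨i, hi⟩ : ∃ i : ℕ, i = ⌈Real.sqrt x⌉₊ := ⟨_, rfl⟩
  have hi1 : Real.sqrt x ≤ i := by rw [hi]; exact Nat.le_ceil _
  have hi2 : (i : ℝ) ≤ Real.sqrt x + 1 := by
    have := Nat.ceil_lt_add_one (a := Real.sqrt x) (Real.sqrt_nonneg _)
    rw [← hi] at this
    exact this.le
  obtain ⟨n, hn⟩ : ∃ n : ℕ, n = 2 * m * (2 * i + 1) + m := ⟨_, rfl⟩
  have hfk := grid_fkg h0 h1 hm1 (hW.anti (by omega)) hn hc.le hct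
  refine ⟨n + 2 * m, ?_⟩
  have hsq : Real.sqrt x ^ 2 = x := Real.sq_sqrt hx0.le
  have hs0 := Real.sqrt_nonneg x
  have hvol : (N : ℝ) ≤ ((2 * i + 1 : ℕ) : ℝ) ^ 2 * (θ * (m : ℝ) ^ (91 / 48 : ℝ)) := by
    have e1 : x ≤ ((2 * i + 1 : ℕ) : ℝ) ^ 2 := by
      push_cast
      nlinarith
    have e2 : (N : ℝ) = x * (θ * (m : ℝ) ^ (91 / 48 : ℝ)) := by
      rw [hx]; field_simp
    rw [e2]
    exact mul_le_mul_of_nonneg_right e1 (by positivity)
  have hcell : (((2 * i + 1) ^ 2 : ℕ) : ℝ) ≤ 18 + 8 * x := by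
    push_cast
    have hi0 : (0 : ℝ) ≤ i := Nat.cast_nonneg i
    have f1 : (2 * (i : ℝ) + 1) ^ 2 ≤ (2 * Real.sqrt x + 3) ^ 2 :=
      pow_le_pow_left₀ (by linarith) (by linarith) 2
    have f2 : 0 ≤ (2 * Real.sqrt x - 3) ^ 2 := sq_nonneg _
    have f3 : (2 * Real.sqrt x + 3) ^ 2 = 8 * Real.sqrt x ^ 2 + 18 - (2 * Real.sqrt x - 3) ^ 2 := by
      ring
    rw [f3, hsq] at f1
    linarith
  have hb2 : Real.exp (-(-Real.log b * (18 + 8 * D))) *
      Real.exp (-(-Real.log b * (8 * D) * ((N : ℝ) * t ^ (91 / 36 : ℝ)))) ≤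
      (κ ^ 12 * c) ^ ((2 * i + 1) ^ 2) := by
    have e1 : b ^ ((2 * i + 1) ^ 2) ≤ (κ ^ 12 * c) ^ ((2 * i + 1) ^ 2) := by
      apply pow_le_pow_left₀ hb0.le
      rw [hb]
      exact min_le_left _ _
    refine le_trans ?_ e1
    rw [← Real.exp_add, ← Real.rpow_natCast, Real.rpow_def_of_pos hb0]
    apply Real.exp_le_exp.mpr
    have e2 : -Real.log b * (((2 * i + 1) ^ 2 : ℕ) : ℝ) ≤
        -Real.log b * (18 + 8 * (D * (1 + N * t ^ (91 / 36 : ℝ)))) := by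
      apply mul_le_mul_of_nonneg_left _ hlog.le
      linarith
    linarith
  have hpre : a' * (2 : ℝ) ^ (-(5 / 48 : ℝ)) * (N : ℝ) ^ (-(5 / 91 : ℝ)) ≤ arm p (4 * m) := by
    refine le_trans ?_ harm
    rw [mul_assoc]
    apply mul_le_mul_of_nonneg_left _ ha'0.le
    have e1 : (m : ℝ) ≤ 2 * (N : ℝ) ^ (48 / 91 : ℝ) := by
      have : (m : ℝ) ≤ n0 := by exact_mod_cast hmn
      linarith
    have e2 : (2 * (N : ℝ) ^ (48 / 91 : ℝ)) ^ (-(5 / 48 : ℝ)) ≤ (m : ℝ) ^ (-(5 / 48 : ℝ)) :=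
      Real.rpow_le_rpow_of_nonpos hm0 e1 (by norm_num)
    refine le_trans (le_of_eq ?_) e2
    rw [Real.mul_rpow (by norm_num) (by positivity), ← Real.rpow_mul hN0.le]
    norm_num
  have hfin : Pr (fun _ => p) (boxE (n + 2 * m))
      (fun F => Vol (((2 * i + 1 : ℕ) : ℝ) ^ 2 * (θ * (m : ℝ) ^ (91 / 48 : ℝ))) ↑F) ≤
      Pr (fun _ => p) (boxE (n + 2 * m)) (fun F => Vol N ↑F) := by
    apply Pr_mono (okq h0 h1)
    rintro F _ ⟨T, k1, k2⟩
    exact ⟨T, hvol.trans k1, k2⟩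
  rw [← ht]
  calc a' * (2 : ℝ) ^ (-(5 / 48 : ℝ)) * Real.exp (-(-Real.log b * (18 + 8 * D))) *
        (N : ℝ) ^ (-(5 / 91 : ℝ)) *
        Real.exp (-(-Real.log b * (8 * D) * ((N : ℝ) * t ^ (91 / 36 : ℝ))))
      = (Real.exp (-(-Real.log b * (18 + 8 * D))) *
        Real.exp (-(-Real.log b * (8 * D) * ((N : ℝ) * t ^ (91 / 36 : ℝ))))) *
        (a' * (2 : ℝ) ^ (-(5 / 48 : ℝ)) * (N : ℝ) ^ (-(5 / 91 : ℝ))) := by ring
    _ ≤ (κ ^ 12 * c) ^ ((2 * i + 1) ^ 2) * arm p (4 * m) :=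
        mul_le_mul hb2 hpre (by positivity) (by positivity)
    _ ≤ _ := hfk.trans hfin

end Pool.Agent.D0H95.CS
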