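import Pool.Agent.D0H95.CS.SubUp
import Pool.Agent.D0H95.CS.SubLow

/-!
From finite boxes to the infinite lattice, at any parameter.
-/

set_option autoImplicit false
set_option maxHeartbeats 400000
set_option linter.unusedVariables false

namespace Pool.Agent.D0H95.CS
open Finset H974 MeasureTheory Filter Pool.Agent.H160R2.CV Pool.Agent.H160R2.CV.InfAux

theorem law_boxp (p : unitInterval) (m : ℕ) (Q : Set Edg → Prop) :
    (bondLaw p).real {ω | Q (opn ω ∩ ↑(boxE m))} =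
      Pr (fun _ => (p : ℝ)) (boxE m) (fun F => Q ↑F) := by
  have h := law_event p (boxE m) (fun F => Q ↑F)
  have e : {ω | Q (opn ω ∩ ↑(boxE m))} = {ω | (fun F : Finset Edg => Q ↑F) (FF (boxE m) ω)} := by
    ext ω
    simp only [Set.mem_ofPred_eq, FF_coe]
  rw [e, h]

theorem vol_union (N : ℝ) : {ω : sqLattice.edgeSet → Bool | Vol N (opn ω)} =
    ⋃ m : ℕ, {ω | Vol N (opn ω ∩ ↑(boxE m))} := by
  ext ω
  rw [Set.mem_iUnion]
  constructor
  · intro hω
    exact InfAux.vol_box hω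
  · rintro ⟨m, hm⟩
    exact vol_mono Set.inter_subset_left hm

theorem vol_tendsto (p : unitInterval) (N : ℝ) :
    Tendsto (fun m : ℕ => Pr (fun _ => (p : ℝ)) (boxE m) (fun F => Vol N ↑F)) atTop
      (nhds ((bondLaw p).real {ω | Vol N (opn ω)})) := by
  have hm : Monotone (fun m : ℕ => {ω : sqLattice.edgeSet → Bool | Vol N (opn ω ∩ ↑(boxE m))}) := by
    intro m m' hmm ω hω
    exact vol_mono (Set.inter_subset_inter_right _ (boxE_coe_mono hmm)) hω
  have h1 := tendsto_measure_iUnion_atTop (μ := bondLaw p) hm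
  rw [← vol_union] at h1
  have h2 : Tendsto (fun m : ℕ => (bondLaw p).real {ω | Vol N (opn ω ∩ ↑(boxE m))}) atTop
      (nhds ((bondLaw p).real {ω | Vol N (opn ω)})) :=
    (ENNReal.tendsto_toReal (measure_ne_top _ _)).comp h1
  refine h2.congr (fun m => ?_)
  exact law_boxp p m (fun F => Vol N F)

theorem vol_le (p : unitInterval) (N : ℝ) (c : ℝ)
    (h : ∀ m : ℕ, Pr (fun _ => (p : ℝ)) (boxE m) (fun F => Vol N ↑F) ≤ c) :
    (bondLaw p).real {ω | Vol N (opn ω)} ≤ c :=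
  le_of_tendsto' (vol_tendsto p N) h

theorem vol_ge (p : unitInterval) (N : ℝ) (m : ℕ) :
    Pr (fun _ => (p : ℝ)) (boxE m) (fun F => Vol N ↑F) ≤
      (bondLaw p).real {ω | Vol N (opn ω)} := by
  rw [← law_boxp p m (fun F => Vol N F)]
  exact measureReal_mono (fun ω hω => vol_mono Set.inter_subset_left hω)

theorem encard_set (N : ℕ) : {ω : sqLattice.edgeSet → Bool | (N : ℕ∞) ≤ (cluster0 ω).encard} =
    {ω | Vol N (opn ω)} := by
  ext ω
  exact encard_iff ω N

/-- the size of the cluster of the origin below the critical point -/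
theorem sub_main : ∃ c C : ℝ, 0 < c ∧ 0 < C ∧ ∀ p : unitInterval, (p : ℝ) ≤ 1 / 2 →
    ∀ N : ℕ, 1 ≤ N →
    (1 / 4 ≤ (p : ℝ) → c * (N : ℝ) ^ (-(5 / 91 : ℝ)) *
      Real.exp (-(C * ((N : ℝ) * (1 / 2 - (p : ℝ)) ^ (91 / 36 : ℝ)))) ≤
        (bondLaw p).real {ω | (N : ℕ∞) ≤ (cluster0 ω).encard}) ∧
    (bondLaw p).real {ω | (N : ℕ∞) ≤ (cluster0 ω).encard} ≤
      C * (N : ℝ) ^ (-(5 / 91 : ℝ)) *
        Real.exp (-(c * ((N : ℝ) * (1 / 2 - (p : ℝ)) ^ (91 / 36 : ℝ)))) := by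
  obtain ⟨c1, C1, hc1, hC1, h1⟩ := sub_up
  obtain ⟨c2, C2, hc2, hC2, h2⟩ := sub_low
  refine ⟨min c1 c2, max C1 C2, lt_min hc1 hc2, lt_max_of_lt_left hC1, fun p hp N hN => ?_⟩
  have h0 : 0 ≤ (p : ℝ) := p.2.1
  have hy : 0 ≤ (N : ℝ) * (1 / 2 - (p : ℝ)) ^ (91 / 36 : ℝ) := by
    have : 0 ≤ 1 / 2 - (p : ℝ) := by linarith
    positivity
  have hNp : 0 ≤ (N : ℝ) ^ (-(5 / 91 : ℝ)) := by positivity
  rw [encard_set]
  constructor
  · intro hp4
    obtain ⟨R, hR⟩ := h2 p hp4 hp N hN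
    refine le_trans ?_ (hR.trans (vol_ge p N R))
    apply mul_le_mul _ _ (Real.exp_pos _).le (by positivity)
    · exact mul_le_mul_of_nonneg_right (min_le_right _ _) hNp
    · apply Real.exp_le_exp.mpr
      apply neg_le_neg
      exact mul_le_mul_of_nonneg_right (le_max_right _ _) hy
  · refine (vol_le p N _ (fun m => h1 p h0 hp m N hN)).trans ?_
    apply mul_le_mul _ _ (Real.exp_pos _).le (by positivity)
    · exact mul_le_mul_of_nonneg_right (le_max_left _ _) hNp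
    · apply Real.exp_le_exp.mpr
      apply neg_le_neg
      exact mul_le_mul_of_nonneg_right (min_le_left _ _) hy

end Pool.Agent.D0H95.CS
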