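import Pool.Agent.D0H95.CS.Wt

/-!
Moments of the number of vertices of a box with an arm, and of the number of vertices connected to
the origin, at any parameter at which the one-arm probabilities up to distance `s` are at most
`A m ^ (-5/48)`.
-/

set_option autoImplicit false
set_option maxHeartbeats 400000
set_option linter.unusedVariables false

namespace Pool.Agent.D0H95.CS
open Finset H974 Pool.Agent.H160R2.CV Pool.Agent.H160R2.CV.Quad

/-- the upper bound of the one-arm probabilities -/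
def AU (p A : ℝ) (s : ℕ) : Prop :=
  ∀ m : ℕ, 1 ≤ m → m ≤ s → arm p m ≤ A * (m : ℝ) ^ (-(5 / 48 : ℝ))

theorem pr_LAq {p : ℝ} (h0 : 0 ≤ p) (h1 : p ≤ 1) (S : Finset Edg) (v : Vtx) (m : ℕ) :
    Pr (fun _ => p) S (LA v m) ≤ arm p m := by
  refine le_trans (Pr_mono (okq h0 h1) ?_) (arm_bound h0 h1 S v m)
  rintro F _ ⟨w, -, k2, k3⟩
  exact ⟨w, by omega, k3.mono Set.inter_subset_left⟩

theorem arm_rr {p A : ℝ} (h0 : 0 ≤ p) (h1 : p ≤ 1) (hA1 : 1 ≤ A) {s : ℕ} (hA : AU p A s) {r : ℕ}
    (hr : 1 ≤ r) (hrs : r ≤ s) : arm p ((r - 1) / 2) ≤ 2 * A * (r : ℝ) ^ (-(5 / 48 : ℝ)) := by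
  have hr0 : (0 : ℝ) < r := by exact_mod_cast hr
  have e2 : (2 : ℝ) ^ (5 / 24 : ℝ) ≤ 2 := by
    calc (2 : ℝ) ^ (5 / 24 : ℝ) ≤ (2 : ℝ) ^ (1 : ℝ) :=
          Real.rpow_le_rpow_of_exponent_le (by norm_num) (by norm_num)
      _ = 2 := Real.rpow_one 2
  rcases Nat.eq_zero_or_pos ((r - 1) / 2) with hm | hm
  · rw [hm, arm_zero]
    have h3 : (r : ℝ) ≤ 4 := by exact_mod_cast (by omega : r ≤ 4)
    have h4 : (4 : ℝ) ^ (-(5 / 48 : ℝ)) ≤ (r : ℝ) ^ (-(5 / 48 : ℝ)) :=
      Real.rpow_le_rpow_of_nonpos hr0 h3 (by norm_num)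
    have h5 : (1 / 2 : ℝ) ≤ (4 : ℝ) ^ (-(5 / 48 : ℝ)) := by
      have e3 : (4 : ℝ) ^ (-(5 / 48 : ℝ)) = ((2 : ℝ) ^ (5 / 24 : ℝ))⁻¹ := by
        rw [show (4 : ℝ) = (2 : ℝ) ^ (2 : ℝ) by norm_num, ← Real.rpow_mul (by norm_num),
          ← Real.rpow_neg (by norm_num)]
        norm_num
      rw [e3, one_div]
      exact inv_anti₀ (by positivity) e2
    nlinarith
  · obtain ⟨m, hmd⟩ : ∃ m : ℕ, m = (r - 1) / 2 := ⟨_, rfl⟩
    rw [← hmd] at hm ⊢
    have h3 := hA m hm (by omega)
    have hm0 : (0 : ℝ) < m := by exact_mod_cast hm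
    have h4 : (r : ℝ) / 4 ≤ m := by
      have : (r : ℝ) ≤ ((4 * m : ℕ) : ℝ) := by exact_mod_cast (by omega : r ≤ 4 * m)
      push_cast at this
      linarith
    have h5 : (m : ℝ) ^ (-(5 / 48 : ℝ)) ≤ 2 * (r : ℝ) ^ (-(5 / 48 : ℝ)) := by
      calc (m : ℝ) ^ (-(5 / 48 : ℝ)) ≤ ((r : ℝ) / 4) ^ (-(5 / 48 : ℝ)) :=
            Real.rpow_le_rpow_of_nonpos (by positivity) h4 (by norm_num)
        _ = (2 : ℝ) ^ (5 / 24 : ℝ) * (r : ℝ) ^ (-(5 / 48 : ℝ)) := by
            rw [Real.div_rpow hr0.le (by norm_num), Real.rpow_neg (by norm_num : (0:ℝ) ≤ 4),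
              div_inv_eq_mul, mul_comm]
            congr 1
            rw [show (4 : ℝ) = (2 : ℝ) ^ (2 : ℝ) by norm_num, ← Real.rpow_mul (by norm_num)]
            norm_num
        _ ≤ 2 * (r : ℝ) ^ (-(5 / 48 : ℝ)) := mul_le_mul_of_nonneg_right e2 (by positivity)
    calc arm p m ≤ A * (m : ℝ) ^ (-(5 / 48 : ℝ)) := h3
      _ ≤ A * (2 * (r : ℝ) ^ (-(5 / 48 : ℝ))) := mul_le_mul_of_nonneg_left h5 (by linarith)
      _ = _ := by ring

/-- arms from several vertices -/
theorem arms_prod {p A : ℝ} (h0 : 0 ≤ p) (h1 : p ≤ 1) (hA1 : 1 ≤ A) {s : ℕ} (hs : 1 ≤ s)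
    (hA : AU p A s) (S : Finset Edg) (X : Finset Vtx) :
    Pr (fun _ => p) S (fun F => ∀ x ∈ X, Far x (rr s X x) F) ≤ (2 * A) ^ X.card * wt s X := by
  classical
  have ok := okq h0 h1
  obtain ⟨m, hm⟩ : ∃ m : Vtx → ℕ, ∀ x, m x = (rr s X x - 1) / 2 := ⟨_, fun _ => rfl⟩
  obtain ⟨U, hU⟩ : ∃ U : Finset Edg, U = S ∪ X.biUnion (fun x => bo x (m x)) := ⟨_, rfl⟩
  have hsub : ∀ x ∈ X, bo x (m x) ⊆ U := by
    intro x hx
    rw [hU]
    exact (Finset.subset_biUnion_of_mem (fun x => bo x (m x)) hx).trans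
      Finset.subset_union_right
  have i1 : Pr (fun _ => p) S (fun F => ∀ x ∈ X, Far x (rr s X x) F) ≤
      Pr (fun _ => p) S (fun F => ∀ x ∈ X, LA x (m x) F) := by
    apply Pr_mono ok
    intro F _ h x hx
    apply LA_of_far _ (h x hx)
    rw [hm]
    omega
  have i2 : Pr (fun _ => p) S (fun F => ∀ x ∈ X, LA x (m x) F) ≤
      Pr (fun _ => p) U (fun F => ∀ x ∈ X, LA x (m x) F) := by
    apply Pr_mono_set ok
    · rw [hU]
      exact Finset.subset_union_left
    · intro F G hFG _ h x hx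
      exact LA_inc x (m x) F G hFG (h x hx)
  have i3 := Pool.Agent.Y244.PC.indep_prod (p := fun _ : Edg => p) (U := U) X
    (fun x => LA x (m x)) (fun x => bo x (m x)) hsub (by
      intro x hx y hy hne
      apply bo_disj
      have h3 := rr_le_of (s := s) hy (fun h => hne h.symm)
      have h4 := rr_le_of (s := s) hx hne
      have h5 := rr_pos hs X x
      have h6 := rr_pos hs X y
      rw [nv_comm'] at h3
      rw [hm, hm]
      omega) (by
      intro x hx F
      exact LA_loc (Finset.Subset.refl _) F)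
  refine i1.trans (i2.trans ?_)
  rw [i3]
  unfold wt
  rw [← Finset.prod_const, ← Finset.prod_mul_distrib]
  apply Finset.prod_le_prod
  · intro x _
    exact Pr_nonneg ok _ _
  · intro x _
    refine (pr_LAq h0 h1 U x (m x)).trans ?_
    rw [hm]
    exact arm_rr h0 h1 hA1 hA (rr_pos hs X x) (rr_le s X x)

/-- the number of vertices of `B` with the property `A` -/
noncomputable def cnt (A : Vtx → Finset Edg → Prop) (B : Finset Vtx) (F : Finset Edg) : ℝ :=
  ∑ x ∈ B, ind (A x F)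

theorem cnt_nonneg (A : Vtx → Finset Edg → Prop) (B : Finset Vtx) (F : Finset Edg) :
    0 ≤ cnt A B F := Finset.sum_nonneg fun _ _ => ind_nonneg _

/-- mixed moments -/
noncomputable def Mo (p : ℝ) (S : Finset Edg) (A : Vtx → Finset Edg → Prop) (B : Finset Vtx)
    (k : ℕ) (X : Finset Vtx) : ℝ :=
  Ex (fun _ => p) S (fun F => cnt A B F ^ k * ind (∀ x ∈ X, A x F))

theorem Mo_succ (p : ℝ) (S : Finset Edg) (A : Vtx → Finset Edg → Prop) (B : Finset Vtx)
    (k : ℕ) (X : Finset Vtx) : Mo p S A B (k + 1) X = ∑ x ∈ B, Mo p S A B k (insert x X) := by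
  unfold Mo
  rw [← Ex_sum]
  apply Ex_congr
  intro F _
  rw [pow_succ]
  have h1 : ∀ x ∈ B, cnt A B F ^ k * ind (∀ y ∈ insert x X, A y F) =
      cnt A B F ^ k * (ind (A x F) * ind (∀ y ∈ X, A y F)) := by
    intro x _
    congr 1
    rw [← ind_and]
    apply ind_congr
    rw [Finset.forall_mem_insert]
  rw [Finset.sum_congr rfl h1, ← Finset.mul_sum, ← Finset.sum_mul]
  unfold cnt
  ring

/-- the recursion for the moments -/
theorem Mo_le {p : ℝ} {S : Finset Edg} {A : Vtx → Finset Edg → Prop}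
    {B : Finset Vtx} {s : ℕ} (hs : 1 ≤ s) {c1 : ℝ} (hc1 : 1 ≤ c1) {Q : Finset Vtx → Prop}
    (hQ : ∀ X x, Q X → Q (insert x X))
    (hbase : ∀ X, Q X → X.Nonempty → Mo p S A B 0 X ≤ c1 ^ X.card * wt s X) (k : ℕ) :
    ∀ (X : Finset Vtx) (n : ℕ), Q X → X.Nonempty → X.card ≤ n →
      Mo p S A B k X ≤ (c1 * DD s B) ^ k * (n.ascFactorial k : ℕ) * (c1 ^ X.card * wt s X) := by
  have hD := DD_pos hs B
  induction k with
  | zero =>
    intro X n hX hne _
    have := hbase X hX hne
    simpa using this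
  | succ k ih =>
    intro X n hX hne hn
    rw [Mo_succ]
    have hw := wt_pos hs X
    have hn' : (X.card : ℝ) ≤ n := by exact_mod_cast hn
    have h1 : ∀ x ∈ B, Mo p S A B k (insert x X) ≤
        (c1 * DD s B) ^ k * ((n + 1).ascFactorial k : ℕ) *
          (c1 ^ (X.card + 1) * wt s (insert x X)) := by
      intro x _
      have hcard : (insert x X).card ≤ X.card + 1 := Finset.card_insert_le _ _
      refine (ih (insert x X) (n + 1) (hQ X x hX) (Finset.insert_nonempty _ _)
        (by omega)).trans ?_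
      apply mul_le_mul_of_nonneg_left _ (by positivity)
      apply mul_le_mul_of_nonneg_right _ (wt_pos hs _).le
      exact pow_le_pow_right₀ hc1 hcard
    refine (Finset.sum_le_sum h1).trans ?_
    rw [← Finset.mul_sum, ← Finset.mul_sum]
    have h2 := wt_step hs B X hne
    have h3 : DD s B * (X.card * wt s X) ≤ DD s B * (n * wt s X) := by
      apply mul_le_mul_of_nonneg_left _ hD.le
      exact mul_le_mul_of_nonneg_right hn' hw.le
    have e1 : (n : ℝ) * ((n + 1).ascFactorial k : ℕ) = (n.ascFactorial (k + 1) : ℕ) := by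
      have h4 : n * (n + 1).ascFactorial k = n.ascFactorial (k + 1) := by
        rw [Nat.ascFactorial_succ, Nat.succ_ascFactorial]
      exact_mod_cast h4
    calc (c1 * DD s B) ^ k * ((n + 1).ascFactorial k : ℕ) *
          (c1 ^ (X.card + 1) * ∑ x ∈ B, wt s (insert x X))
        ≤ (c1 * DD s B) ^ k * ((n + 1).ascFactorial k : ℕ) *
          (c1 ^ (X.card + 1) * (DD s B * (n * wt s X))) := by
          apply mul_le_mul_of_nonneg_left _ (by positivity)
          apply mul_le_mul_of_nonneg_left _ (by positivity)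
          exact h2.trans h3
      _ = (c1 * DD s B) ^ (k + 1) * ((n : ℝ) * ((n + 1).ascFactorial k : ℕ)) *
          (c1 ^ X.card * wt s X) := by ring
      _ = _ := by rw [e1]

/-- moments of the number of arms -/
theorem mom_far {p A : ℝ} (h0 : 0 ≤ p) (h1 : p ≤ 1) (hA1 : 1 ≤ A) {s : ℕ} (hs : 1 ≤ s)
    (hA : AU p A s) (S : Finset Edg) (B : Finset Vtx) (k : ℕ) :
    Ex (fun _ => p) S (fun F => cnt (fun x F => Far x s F) B F ^ k) ≤
      (k.factorial : ℕ) * (2 * A * DD s B) ^ k := by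
  have ok := okq h0 h1
  have hc1 : 1 ≤ 2 * A := by linarith
  have hD := DD_pos hs B
  have hs0 : (0 : ℝ) < s := by exact_mod_cast hs
  have e0 : ∀ k, Ex (fun _ => p) S (fun F => cnt (fun x F => Far x s F) B F ^ k) =
      Mo p S (fun x F => Far x s F) B k ∅ := by
    intro k
    unfold Mo
    apply Ex_congr
    intro F _
    rw [ind_of (by simp), mul_one]
  rw [e0]
  cases k with
  | zero =>
    rw [← e0]
    simp only [pow_zero, Nat.factorial_zero, Nat.cast_one, mul_one]
    exact le_of_eq (Ex_const _ _ _)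
  | succ k =>
    rw [Mo_succ]
    have hbase : ∀ X : Finset Vtx, True → X.Nonempty →
        Mo p S (fun x F => Far x s F) B 0 X ≤ (2 * A) ^ X.card * wt s X := by
      intro X _ _
      refine le_trans ?_ (arms_prod h0 h1 hA1 hs hA S X)
      unfold Mo Pr
      apply Ex_mono ok
      intro F _
      rw [pow_zero, one_mul]
      apply ind_mono
      intro h x hx
      exact (h x hx).mono_r (rr_le s X x)
    have h2 : ∀ x ∈ B, Mo p S (fun x F => Far x s F) B k (insert x ∅) ≤
        (2 * A * DD s B) ^ k * (k.factorial : ℕ) * (2 * A * (s : ℝ) ^ (-(5 / 48 : ℝ))) := by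
      intro x _
      have h3 := Mo_le (p := p) (S := S) (A := fun x F => Far x s F) (B := B) hs hc1
        (Q := fun _ => True) (fun _ _ _ => trivial) hbase k {x} 1 trivial
        (Finset.singleton_nonempty x) (by simp)
      rw [wt_single, Finset.card_singleton, pow_one, Nat.one_ascFactorial] at h3
      exact h3
    refine (Finset.sum_le_sum h2).trans ?_
    rw [Finset.sum_const, nsmul_eq_mul]
    have h4 : (B.card : ℝ) * (s : ℝ) ^ (-(5 / 48 : ℝ)) ≤ DD s B := by
      unfold DD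
      have : 0 ≤ (s : ℝ) ^ (91 / 48 : ℝ) := by positivity
      have : 0 ≤ (B.card : ℝ) * (s : ℝ) ^ (-(5 / 48 : ℝ)) := by positivity
      linarith
    have h5 : ((k.factorial : ℕ) : ℝ) ≤ ((k + 1).factorial : ℕ) := by
      exact_mod_cast Nat.factorial_le (Nat.le_succ k)
    calc (B.card : ℝ) * ((2 * A * DD s B) ^ k * (k.factorial : ℕ) *
          (2 * A * (s : ℝ) ^ (-(5 / 48 : ℝ))))
        = (2 * A * DD s B) ^ k * (2 * A * (B.card * (s : ℝ) ^ (-(5 / 48 : ℝ)))) *
            (k.factorial : ℕ) := by ring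
      _ ≤ (2 * A * DD s B) ^ k * (2 * A * DD s B) * ((k + 1).factorial : ℕ) := by
          apply mul_le_mul _ h5 (by positivity) (by positivity)
          apply mul_le_mul_of_nonneg_left _ (by positivity)
          exact mul_le_mul_of_nonneg_left h4 (by positivity)
      _ = _ := by ring

/-- moments of the size of the cluster of the origin -/
theorem mom_vol {p A : ℝ} (h0 : 0 ≤ p) (h1 : p ≤ 1) (hA1 : 1 ≤ A) {s : ℕ} (hs : 1 ≤ s)
    (hA : AU p A s) (S : Finset Edg) (B : Finset Vtx) (hB : (0, 0) ∉ B) (k : ℕ) (hk : 1 ≤ k) :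
    Ex (fun _ => p) S (fun F => cnt (fun x F => Reach (↑F) (0, 0) x) B F ^ k) ≤
      (k.factorial : ℕ) * (2 * A * DD s B) ^ k * (2 * A * (s : ℝ) ^ (-(5 / 48 : ℝ))) := by
  have ok := okq h0 h1
  have hc1 : 1 ≤ 2 * A := by linarith
  have hD := DD_pos hs B
  have hs0 : (0 : ℝ) < s := by exact_mod_cast hs
  have e0 : ∀ k, Ex (fun _ => p) S (fun F => cnt (fun x F => Reach (↑F) (0, 0) x) B F ^ k) =
      Mo p S (fun x F => Reach (↑F) (0, 0) x) B k {(0, 0)} := by
    intro k
    unfold Mo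
    apply Ex_congr
    intro F _
    rw [ind_of (by
      intro x hx
      rw [Finset.mem_singleton] at hx
      rw [hx]
      exact Reach.refl _ _), mul_one]
  rw [e0]
  obtain ⟨k, rfl⟩ : ∃ j, k = j + 1 := ⟨k - 1, by omega⟩
  rw [Mo_succ]
  have hbase : ∀ X : Finset Vtx, ((0, 0) ∈ X ∧ ∃ y ∈ X, y ≠ (0, 0)) → X.Nonempty →
      Mo p S (fun x F => Reach (↑F) (0, 0) x) B 0 X ≤ (2 * A) ^ X.card * wt s X := by
    rintro X ⟨hX0, y, hy, hy0⟩ _
    refine le_trans ?_ (arms_prod h0 h1 hA1 hs hA S X)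
    unfold Mo Pr
    apply Ex_mono ok
    intro F _
    rw [pow_zero, one_mul]
    apply ind_mono
    intro h x hx
    by_cases hx0 : x = (0, 0)
    · refine ⟨y, ?_, ?_⟩
      · exact rr_le_of hy (by rw [hx0]; exact hy0)
      · rw [hx0]
        exact h y hy
    · exact ⟨(0, 0), rr_le_of hX0 (fun h => hx0 h.symm), (h x hx).symm⟩
  have h2 : ∀ x ∈ B, Mo p S (fun x F => Reach (↑F) (0, 0) x) B k (insert x {(0, 0)}) ≤
      (2 * A * DD s B) ^ k * ((k + 1).factorial : ℕ) * ((2 * A) ^ 2 * wt s (insert x {(0, 0)})) := by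
    intro x hx
    have hx0 : x ≠ (0, 0) := fun h => hB (h ▸ hx)
    have h3 := Mo_le (p := p) (S := S) (A := fun x F => Reach (↑F) (0, 0) x) (B := B) hs hc1
      (Q := fun X => (0, 0) ∈ X ∧ ∃ y ∈ X, y ≠ (0, 0)) (by
        rintro X x ⟨k1, y, k2, k3⟩
        exact ⟨Finset.mem_insert_of_mem k1, y, Finset.mem_insert_of_mem k2, k3⟩) hbase k
      (insert x {(0, 0)}) 2 (by
        refine ⟨Finset.mem_insert_of_mem (Finset.mem_singleton_self _), x,
          Finset.mem_insert_self _ _, hx0⟩)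
      (Finset.insert_nonempty _ _) (by
        exact (Finset.card_insert_le _ _).trans (by simp))
    have hcard : (insert x ({(0, 0)} : Finset Vtx)).card = 2 := by
      rw [Finset.card_insert_of_notMem (by simpa using hx0), Finset.card_singleton]
    have e1 : (2 : ℕ).ascFactorial k = (k + 1).factorial := by
      have := Nat.succ_ascFactorial 1 k
      rw [Nat.one_ascFactorial, one_mul] at this
      rw [this, Nat.factorial_succ, add_comm]
    rw [hcard, e1] at h3
    exact h3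
  refine (Finset.sum_le_sum h2).trans ?_
  rw [← Finset.mul_sum, ← Finset.mul_sum]
  have h4 := wt_step hs B {(0, 0)} (Finset.singleton_nonempty _)
  rw [wt_single, Finset.card_singleton, Nat.cast_one, one_mul] at h4
  calc (2 * A * DD s B) ^ k * ((k + 1).factorial : ℕ) *
        ((2 * A) ^ 2 * ∑ x ∈ B, wt s (insert x {(0, 0)}))
      ≤ (2 * A * DD s B) ^ k * ((k + 1).factorial : ℕ) *
        ((2 * A) ^ 2 * (DD s B * (s : ℝ) ^ (-(5 / 48 : ℝ)))) := by
        apply mul_le_mul_of_nonneg_left _ (by positivity)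
        exact mul_le_mul_of_nonneg_left h4 (by positivity)
    _ = _ := by ring

/-- from moments to exponential moments -/
theorem exp_mom {p : ℝ} (h0 : 0 ≤ p) (h1 : p ≤ 1) {S : Finset Edg} {f : Finset Edg → ℝ}
    {D b z : ℝ} (hD : 0 < D) (hb : 0 ≤ b) (hz : 0 ≤ z) (hzD : z * D ≤ 1 / 2)
    (h : ∀ k : ℕ, 1 ≤ k → Ex (fun _ => p) S (fun F => f F ^ k) ≤
      (k.factorial : ℕ) * D ^ k * b) :
    Ex (fun _ => p) S (fun F => Real.exp (z * f F)) ≤ 1 + b := by
  have hs1 : HasSum (fun k : ℕ => Ex (fun _ => p) S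
      (fun F => (z * f F) ^ k / (k.factorial : ℕ))) (Ex (fun _ => p) S
        (fun F => Real.exp (z * f F))) := by
    unfold Ex
    apply hasSum_sum
    intro F _
    apply HasSum.mul_left
    have := NormedSpace.expSeries_div_hasSum_exp (z * f F : ℝ)
    rw [← Real.exp_eq_exp_ℝ] at this
    exact this
  have hs2 : HasSum (fun k : ℕ => b * (1 / 2 : ℝ) ^ k + if k = 0 then 1 - b else 0)
      (b * 2 + (1 - b)) := by
    apply HasSum.add
    · apply HasSum.mul_left
      exact hasSum_geometric_two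
    · exact hasSum_ite_eq 0 (1 - b)
  have h2 : ∀ k : ℕ, Ex (fun _ => p) S (fun F => (z * f F) ^ k / (k.factorial : ℕ)) ≤
      b * (1 / 2 : ℝ) ^ k + if k = 0 then 1 - b else 0 := by
    intro k
    rcases Nat.eq_zero_or_pos k with hk | hk
    · subst hk
      simp only [pow_zero, Nat.factorial_zero, Nat.cast_one, div_one, if_true, mul_one]
      rw [Ex_const]
      linarith
    · rw [if_neg (by omega), add_zero]
      have hf : (0 : ℝ) < (k.factorial : ℕ) := by exact_mod_cast k.factorial_pos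
      have e1 : Ex (fun _ => p) S (fun F => (z * f F) ^ k / (k.factorial : ℕ)) =
          z ^ k / (k.factorial : ℕ) * Ex (fun _ => p) S (fun F => f F ^ k) := by
        rw [← Ex_mul_left]
        apply Ex_congr
        intro F _
        rw [mul_pow]
        ring
      rw [e1]
      calc z ^ k / (k.factorial : ℕ) * Ex (fun _ => p) S (fun F => f F ^ k)
          ≤ z ^ k / (k.factorial : ℕ) * ((k.factorial : ℕ) * D ^ k * b) :=
            mul_le_mul_of_nonneg_left (h k hk) (by positivity)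
        _ = b * (z * D) ^ k := by
            rw [mul_pow]
            field_simp
        _ ≤ b * (1 / 2 : ℝ) ^ k := by
            apply mul_le_mul_of_nonneg_left _ hb
            exact pow_le_pow_left₀ (by positivity) hzD k
  have h3 := hasSum_le h2 hs1 hs2
  linarith

end Pool.Agent.D0H95.CS
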