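import Pool.Agent.D0H95.CS.Inf
import Pool.Agent.Y554.NC.Theta
import Pool.Agent.H974R2.FinalFin

/-!
Above the critical point: finite clusters with a large radius.
-/

set_option autoImplicit false
set_option maxHeartbeats 400000
set_option linter.unusedVariables false

namespace Pool.Agent.D0H95.CS
open Finset H974 H31K Pool.Agent.W424.NC

theorem steps_ge {p : ℝ} (h0 : 0 ≤ p) (h1 : p ≤ 1) {N : ℕ} (J : ℕ) {S : Finset Edg}
    (hS : boxE (2 * (2^J * N)) ⊆ S) :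
    1 - ∑ j ∈ range (J + 1), eps p (2^j * N) ≤
      Pr (fun _ => p) S (fun F => ∀ j ≤ J, Step N j F) := by
  have ok := okq h0 h1
  induction J with
  | zero =>
    have e : Pr (fun _ => p) S (fun F => ∀ j ≤ 0, Step N j F) = Pr (fun _ => p) S (Step N 0) := by
      apply Pr_congr
      intro F _
      constructor
      · intro h; exact h 0 le_rfl
      · intro h j hj
        have : j = 0 := by omega
        rw [this]; exact h
    rw [e, pr_step hS, Finset.sum_range_one]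
  | succ J ih =>
    have hle : 2 * (2^J * N) ≤ 2 * (2^(J+1) * N) := by
      rw [pow_succ]
      nlinarith [Nat.zero_le (2^J * N)]
    have hS' : boxE (2 * (2^J * N)) ⊆ S := (boxE_mono hle).trans hS
    have i1 := ih hS'
    have i2 := Pr_and_ge ok S (fun F => ∀ j ≤ J, Step N j F) (Step N (J + 1))
    have i3 : Pr (fun _ => p) S (fun F => (∀ j ≤ J, Step N j F) ∧ Step N (J + 1) F) =
        Pr (fun _ => p) S (fun F => ∀ j ≤ J + 1, Step N j F) := by
      apply Pr_congr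
      intro F _
      constructor
      · rintro ⟨h, h'⟩ j hj
        rcases Nat.lt_or_ge j (J + 1) with hlt | hge
        · exact h j (by omega)
        · have : j = J + 1 := by omega
          rw [this]; exact h'
      · intro h
        exact ⟨fun j hj => h j (by omega), h _ le_rfl⟩
    rw [pr_step hS, i3] at i2
    rw [Finset.sum_range_succ]
    linarith

/-- the chain of crossings from the scale `2 ^ i N` -/
theorem chain_exp {p : ℝ} (h0 : 0 ≤ p) (h1 : p ≤ 1) {N : ℕ} (hN : 2 ≤ N)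
    (he : eps p N ≤ 1/100) (i m : ℕ) :
    arm p (2 * (2^i * N)) * (1 - (1/4)^(2^i)) ≤ arm p m := by
  have ok := okq h0 h1
  obtain ⟨M, hM⟩ : ∃ M : ℕ, M = 2^i * N := ⟨_, rfl⟩
  have hM2 : 2 ≤ M := by
    rw [hM]
    calc 2 ≤ N := hN
      _ ≤ 2^i * N := Nat.le_mul_of_pos_left _ (by positivity)
  rw [← hM]
  have hm : m ≤ 2 * (2^m * M) := by
    have h2 : m < 2^m := Nat.lt_two_pow_self
    nlinarith [Nat.zero_le (2^m * M)]
  have hle : M ≤ 2^m * M := Nat.le_mul_of_pos_left _ (by positivity)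
  obtain ⟨S, hS⟩ : ∃ S : Finset Edg, S = boxE (2 * (2^m * M)) := ⟨_, rfl⟩
  have hbox : boxE (2 * M) ⊆ S := by rw [hS]; exact boxE_mono (by omega)
  have e1 := pr_Arm p hbox
  have e2 := pr_circ_ge h0 h1 hM2 hbox
  have e3 := steps_ge h0 h1 (N := M) m (S := S) (by rw [hS])
  have i1 := Pr_and_ge ok S (Circ M (2 * M : ℕ)) (fun F => ∀ j ≤ m, Step M j F)
  have i2 := Pr_harris ok (Arm_incr S (2 * M))
    (B := fun F => Circ M (2 * M : ℕ) F ∧ ∀ j ≤ m, Step M j F)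
    (fun F G h _ hF => ⟨hF.1.mono h, fun j hj => (hF.2 j hj).mono h⟩)
  have i3 : Pr (fun _ => p) S (fun F => Arm (2 * M) F ∧
      (Circ M (2 * M : ℕ) F ∧ ∀ j ≤ m, Step M j F)) ≤ arm p (2 * (2^m * M)) := by
    unfold arm
    rw [hS]
    apply Pr_mono ok
    rintro F _ ⟨k1, k2, k3⟩
    exact arm_of_chain hM2 m k1 k2 k3
  rw [e1] at i2
  obtain ⟨δ, hδ⟩ : ∃ δ : ℝ, δ = (1/4 : ℝ)^(2^i) := ⟨_, rfl⟩
  have hδ0 : 0 ≤ δ := by rw [hδ]; positivity
  have s1 : 25 * eps p M ≤ δ := by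
    rw [hδ, hM]
    exact eps_pow2 h0 h1 hN he i
  have s2 : ∀ j ∈ range (m + 1), eps p (2^j * M) ≤ δ / 25 * (1/4 : ℝ)^j := by
    intro j _
    have h5 := eps_pow2 h0 h1 hN he (j + i)
    have h6 : 2^(j + i) * N = 2^j * M := by rw [hM, pow_add]; ring
    rw [h6] at h5
    have h7 : ((1:ℝ)/4)^(2^(j+i)) ≤ (1/4)^(2^i + j) := by
      apply pow_le_pow_of_le_one (by norm_num) (by norm_num)
      have h8 : j < 2^j := Nat.lt_two_pow_self
      have h9 : 1 ≤ 2^i := Nat.one_le_two_pow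
      calc 2^i + j ≤ 2^i * 1 + 2^i * j := by nlinarith
        _ = 2^i * (1 + j) := by ring
        _ ≤ 2^i * 2^j := Nat.mul_le_mul_left _ (by omega)
        _ = 2^(j+i) := by rw [pow_add]; ring
    have h9 : ((1:ℝ)/4)^(2^i + j) = δ * (1/4)^j := by rw [pow_add _ (2^i) j, hδ]
    rw [h9] at h7
    have h8 : 0 ≤ δ * (1/4 : ℝ)^j := by positivity
    linarith
  have s3 : ∑ j ∈ range (m + 1), eps p (2^j * M) ≤ δ / 25 * 2 := by
    refine (Finset.sum_le_sum s2).trans ?_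
    rw [← Finset.mul_sum]
    apply mul_le_mul_of_nonneg_left _ (by positivity)
    have h5 : ∑ j ∈ range (m + 1), ((1:ℝ)/4)^j ≤ ∑' j : ℕ, ((1:ℝ)/4)^j :=
      (summable_geometric_of_lt_one (by norm_num) (by norm_num)).sum_le_tsum _
        (fun j _ => by positivity)
    rw [tsum_geometric_of_lt_one (by norm_num) (by norm_num)] at h5
    norm_num at h5 ⊢
    linarith
  have hpr : 1 - δ ≤ Pr (fun _ => p) S (fun F => Circ M (2 * M : ℕ) F ∧ ∀ j ≤ m, Step M j F) := by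
    linarith
  have ha := arm_nonneg h0 h1 (2 * M)
  have hfin := arm_anti h0 h1 hm
  rw [← hδ]
  calc arm p (2 * M) * (1 - δ) ≤ _ := mul_le_mul_of_nonneg_left hpr ha
    _ ≤ _ := i2
    _ ≤ _ := i3
    _ ≤ _ := hfin

/-- finite clusters with a large radius -/
theorem rad_fin : ∃ c C : ℝ, 0 < c ∧ 0 < C ∧ ∀ p : unitInterval, (1/2 : ℝ) < p → ∀ R : ℕ,
    arm p R - theta p ≤ C * arm p R * Real.exp (-(c * (R * ((p:ℝ) - 1/2)^(4/3 : ℝ)))) := by
  obtain ⟨E, hE1, hfar⟩ := farS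
  refine ⟨1 / (4 * (E + 3)), 2, by positivity, by norm_num, fun p hp R => ?_⟩
  have h0 : 0 ≤ (p:ℝ) := p.2.1
  have h1 : (p:ℝ) ≤ 1 := p.2.2
  obtain ⟨t, ht⟩ : ∃ t : ℝ, t = (p:ℝ) - 1/2 := ⟨_, rfl⟩
  have ht0 : 0 < t := by rw [ht]; linarith
  have ht1 : t ≤ 1 := by rw [ht]; linarith
  have hfp := hfar p hp h1
  rw [← ht] at hfp ⊢
  obtain ⟨L, hL⟩ : ∃ L : ℝ, L = t^(-(4/3 : ℝ)) := ⟨_, rfl⟩
  have hL1 : 1 ≤ L := by
    rw [hL]
    exact Real.one_le_rpow_of_pos_of_le_one_of_nonpos ht0 ht1 (by norm_num)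
  have hLt : L * t^(4/3 : ℝ) = 1 := by
    rw [hL, ← Real.rpow_add ht0]
    norm_num
  rw [← hL] at hfp
  obtain ⟨N, hN⟩ : ∃ N : ℕ, N = ⌈E * L⌉₊ + 2 := ⟨_, rfl⟩
  have hN2 : 2 ≤ N := by omega
  have hN3 : E * L ≤ N := by
    rw [hN]
    push_cast
    have := Nat.le_ceil (E * L)
    linarith
  have hN4 : (N:ℝ) ≤ (E + 3) * L := by
    rw [hN]
    push_cast
    have := Nat.ceil_lt_add_one (a := E * L) (by positivity)
    nlinarith
  have he := hfp N hN3
  have ha := arm_nonneg h0 h1 R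
  have hth := theta_nonneg p
  have htp : 0 < t^(4/3 : ℝ) := by positivity
  rcases Nat.lt_or_ge R (2 * N) with hlt | hge
  · have e1 : 1 / (4 * (E + 3)) * (R * t^(4/3 : ℝ)) ≤ 1/2 := by
      have h2 : (R:ℝ) ≤ 2 * N := by exact_mod_cast hlt.le
      have h3 : (R:ℝ) * t^(4/3 : ℝ) ≤ 2 * ((E + 3) * L) * t^(4/3 : ℝ) :=
        mul_le_mul_of_nonneg_right (by linarith) htp.le
      have h4 : 2 * ((E + 3) * L) * t^(4/3 : ℝ) = 2 * (E + 3) := by
        calc 2 * ((E + 3) * L) * t^(4/3 : ℝ) = 2 * (E + 3) * (L * t^(4/3 : ℝ)) := by ring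
          _ = _ := by rw [hLt, mul_one]
      rw [h4] at h3
      calc 1 / (4 * (E + 3)) * (R * t^(4/3 : ℝ)) ≤ 1 / (4 * (E + 3)) * (2 * (E + 3)) :=
            mul_le_mul_of_nonneg_left h3 (by positivity)
        _ = 1/2 := by field_simp; norm_num
    have e2 : 1/2 ≤ Real.exp (-(1 / (4 * (E + 3)) * (R * t^(4/3 : ℝ)))) := by
      have := Real.add_one_le_exp (-(1 / (4 * (E + 3)) * (R * t^(4/3 : ℝ))))
      linarith
    have e3 : 2 * arm p R * (1/2) ≤
        2 * arm p R * Real.exp (-(1 / (4 * (E + 3)) * (R * t^(4/3 : ℝ)))) :=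
      mul_le_mul_of_nonneg_left e2 (by positivity)
    linarith
  · obtain ⟨q, hq⟩ : ∃ q : ℕ, q = R / (2 * N) := ⟨_, rfl⟩
    have hq1 : 1 ≤ q := by
      rw [hq]
      exact (Nat.one_le_div_iff (by omega)).mpr hge
    obtain ⟨i, hi⟩ : ∃ i : ℕ, i = Nat.log 2 q := ⟨_, rfl⟩
    have hi1 : 2^i ≤ q := by rw [hi]; exact Nat.pow_log_le_self 2 (by omega)
    have hi2 : q < 2^(i+1) := by rw [hi]; exact Nat.lt_pow_succ_log_self (by norm_num) q
    have hR1 : 2 * (2^i * N) ≤ R := by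
      calc 2 * (2^i * N) = 2^i * (2 * N) := by ring
        _ ≤ q * (2 * N) := Nat.mul_le_mul_right _ hi1
        _ ≤ R := by rw [hq]; exact Nat.div_mul_le_self _ _
    have hR2 : R < 2^(i+1) * (2 * N) := by
      have h2 : R < (q + 1) * (2 * N) := by
        have k1 := Nat.div_add_mod R (2 * N)
        have k2 := Nat.mod_lt R (show 0 < 2 * N by omega)
        rw [← hq] at k1
        calc R = 2 * N * q + R % (2 * N) := k1.symm
          _ < 2 * N * q + 2 * N := by omega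
          _ = (q + 1) * (2 * N) := by ring
      exact h2.trans_le (Nat.mul_le_mul_right _ hi2)
    have hch : arm p (2 * (2^i * N)) * (1 - (1/4)^(2^i)) ≤ theta p :=
      le_theta p (fun n => chain_exp h0 h1 hN2 he i n)
    have hδ1 : ((1:ℝ)/4)^(2^i) ≤ 1 := pow_le_one₀ (by norm_num) (by norm_num)
    have i1 : arm p R * (1 - (1/4)^(2^i)) ≤ theta p :=
      (mul_le_mul_of_nonneg_right (arm_anti h0 h1 hR1) (by linarith)).trans hch
    have i2 : ((1:ℝ)/4)^(2^i) ≤ Real.exp (-(1 / (4 * (E + 3)) * (R * t^(4/3 : ℝ)))) := by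
      apply quarter_pow_le
      have h2 : (R:ℝ) ≤ 2^(i+1) * (2 * N) := by exact_mod_cast hR2.le
      have h3 : (R:ℝ) * t^(4/3 : ℝ) ≤ (2^(i+1) * (2 * ((E + 3) * L))) * t^(4/3 : ℝ) := by
        apply mul_le_mul_of_nonneg_right _ htp.le
        refine h2.trans ?_
        apply mul_le_mul_of_nonneg_left _ (by positivity)
        linarith
      have h4 : (2^(i+1) * (2 * ((E + 3) * L))) * t^(4/3 : ℝ) = 2^i * (4 * (E + 3)) := by
        calc (2^(i+1) * (2 * ((E + 3) * L))) * t^(4/3 : ℝ) =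
            2^i * (4 * (E + 3)) * (L * t^(4/3 : ℝ)) := by rw [pow_succ]; ring
          _ = _ := by rw [hLt, mul_one]
      rw [h4] at h3
      rw [one_div, ← div_eq_inv_mul, div_le_iff₀ (by positivity)]
      exact h3
    have i3 : arm p R * (1/4)^(2^i) ≤
        arm p R * Real.exp (-(1 / (4 * (E + 3)) * (R * t^(4/3 : ℝ)))) :=
      mul_le_mul_of_nonneg_left i2 ha
    have i4 : 0 ≤ arm p R * Real.exp (-(1 / (4 * (E + 3)) * (R * t^(4/3 : ℝ)))) := by positivity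
    nlinarith

end Pool.Agent.D0H95.CS
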