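import Pool.Agent.D0H95.CS.Avg
import Pool.Agent.W424.NC.ArmUp
import Pool.Agent.H160R2.CV.Inf
import Pool.Agent.H160R2.CV.Sharp
import Pool.Agent.H160R2.SA.Arm

/-!
Upper bound for the size of the cluster of the origin below the critical point.
-/

set_option autoImplicit false
set_option maxHeartbeats 400000
set_option linter.unusedVariables false

namespace Pool.Agent.D0H95.CS
open Finset H974 Pool.Agent.H160R2.CV Pool.Agent.H160R2.CV.Quad Pool.Agent.Y244.PC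
open Pool.Agent.W424.NC

theorem not_blk_of_path {F : Finset Edg} {R1 R2 : ℤ} (h1 : 0 ≤ R1) (h2 : R1 < R2) {u v : Vtx}
    (hu : inR (-R1) R1 (-R1) R1 u) (h : Reach (↑F : Set Edg) u v)
    (hv : v.1 ≤ -R2 ∨ R2 ≤ v.1 ∨ v.2 ≤ -R2 ∨ R2 ≤ v.2) : ¬ Blk R1 R2 F := by
  unfold inR at hu
  obtain ⟨w, k1, k2, k3⟩ := first_exit (a := -R2) (b := R2) (c := -R2) (d := R2)
    (by unfold inR; omega) h hv
  rintro ⟨hb1, hb2⟩
  rcases k2 with k2 | k2 | k2 | k2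
  · apply hb1
    right
    obtain ⟨y1, y2, m1, m2, m3, -⟩ := sub_LR (a := -R2) (b := -R1) (c := -R2) (d := R2) (by omega)
      (by rintro x y ⟨-, h⟩ _ _; simp only [mem_coe, mem_RE_true] at h; omega)
      (by rintro x y ⟨-, h⟩ _ _; simp only [mem_coe, mem_RE_false] at h; omega)
      k3.symm k2.le (show -R1 ≤ u.1 by omega)
    exact ⟨y1, y2, m1, m2, m3.mono (by rintro e ⟨⟨h4, -⟩, h5⟩; exact ⟨h4, h5⟩)⟩
  · apply hb1
    left
    obtain ⟨y1, y2, m1, m2, m3, -⟩ := sub_LR (a := R1) (b := R2) (c := -R2) (d := R2) (by omega)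
      (by rintro x y ⟨-, h⟩ _ _; simp only [mem_coe, mem_RE_true] at h; omega)
      (by rintro x y ⟨-, h⟩ _ _; simp only [mem_coe, mem_RE_false] at h; omega)
      k3 (show u.1 ≤ R1 by omega) k2.ge
    exact ⟨y1, y2, m1, m2, m3.mono (by rintro e ⟨⟨h4, -⟩, h5⟩; exact ⟨h4, h5⟩)⟩
  · apply hb2
    right
    obtain ⟨y1, y2, m1, m2, m3, -⟩ := sub_TB (a := -R2) (b := R2) (c := -R2) (d := -R1) (by omega)
      (by rintro x y ⟨-, h⟩ _ _; simp only [mem_coe, mem_RE_false] at h; omega)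
      (by rintro x y ⟨-, h⟩ _ _; simp only [mem_coe, mem_RE_true] at h; omega)
      k3.symm k2.le (show -R1 ≤ u.2 by omega)
    exact ⟨y1, y2, m1, m2, m3.mono (by rintro e ⟨⟨h4, -⟩, h5⟩; exact ⟨h4, h5⟩)⟩
  · apply hb2
    left
    obtain ⟨y1, y2, m1, m2, m3, -⟩ := sub_TB (a := -R2) (b := R2) (c := R1) (d := R2) (by omega)
      (by rintro x y ⟨-, h⟩ _ _; simp only [mem_coe, mem_RE_false] at h; omega)
      (by rintro x y ⟨-, h⟩ _ _; simp only [mem_coe, mem_RE_true] at h; omega)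
      k3 (show u.2 ≤ R1 by omega) k2.ge
    exact ⟨y1, y2, m1, m2, m3.mono (by rintro e ⟨⟨h4, -⟩, h5⟩; exact ⟨h4, h5⟩)⟩

/-- a block with an arm gives a crossing of an annulus -/
theorem YY_blk {h : ℕ} (hh : 1 ≤ h) {j : ℤ × ℤ} {F : Finset Edg} (hF : 1 ≤ YY h j F) :
    ¬ Blk (h : ℤ) ((2 * h + 1 : ℕ) : ℤ) (sh (cen h j) F) := by
  have hex : ∃ x ∈ blk h j, LA x (4 * h) F := by
    by_contra hc
    push Not at hc
    have : YY h j F = 0 := by
      unfold YY cnt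
      apply Finset.sum_eq_zero
      intro x hx
      exact ind_not_of (hc x hx)
    linarith
  obtain ⟨x, hx, w, k1, k2, k3⟩ := hex
  have hc := blk_cen hx
  have hr : Reach (↑(sh (cen h j) F)) (x - cen h j) (w - cen h j) := by
    rw [sh_reach, sub_add_cancel, sub_add_cancel]
    exact k3.mono Set.inter_subset_left
  obtain ⟨c, hcen⟩ : ∃ c : Vtx, c = cen h j := ⟨_, rfl⟩
  rw [← hcen] at hc hr ⊢
  unfold nv at hc
  simp only [Prod.fst_sub, Prod.snd_sub] at hc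
  unfold inR at k1
  refine not_blk_of_path (R1 := (h : ℤ)) (R2 := ((2 * h + 1 : ℕ) : ℤ)) (by positivity)
    (by push_cast; omega) (u := x - c) ?_ hr ?_
  · unfold inR
    simp only [Prod.fst_sub, Prod.snd_sub]
    omega
  · simp only [Prod.fst_sub, Prod.snd_sub]
    push_cast at k1 k2 ⊢
    omega

/-- the probability that a block has an arm, beyond the correlation length -/
theorem YY_small {p : ℝ} (h0 : 0 ≤ p) (h1 : p ≤ 1) {N : ℕ} (hN : 2 ≤ N)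
    (he : eps (1 - p) N ≤ 1 / 100) {h : ℕ} (hh : h + 1 = 2 ^ 9 * N) {U : Finset Edg} {j : ℤ × ℤ}
    (hU : ngb h j ⊆ U) :
    Pr (fun _ => p) U (fun F => 1 ≤ YY h j F) ≤ ((1 / 2 : ℝ) ^ 17) ^ 36 := by
  have ok := okq h0 h1
  have hh1 : 1 ≤ h := by omega
  have i1 : Pr (fun _ => p) U (fun F => 1 ≤ YY h j F) ≤
      Pr (fun _ => p) U (fun F => ¬ Blk (h : ℤ) ((2 * h + 1 : ℕ) : ℤ) (sh (cen h j) F)) :=
    Pr_mono ok (fun F _ hF => YY_blk hh1 hF)
  have e1 := pr_shq p (cen h j) U (fun F => ¬ Blk (h : ℤ) ((2 * h + 1 : ℕ) : ℤ) F)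
  rw [e1] at i1
  have e2 : (2 ^ 9 * N - 1 : ℕ) = h := by omega
  have e3 : (2 * (2 ^ 9 * N) - 1 : ℕ) = 2 * h + 1 := by omega
  have i2 := pr_nblk_pow h0 h1 hN he 9 (S := sh (cen h j) U) (by
    rw [e2, e3]
    have k1 : sh (cen h j) (ngb h j) ⊆ sh (cen h j) U := sh_mono hU
    unfold ngb at k1
    rw [sh_bo] at k1
    exact ((annE_sub _ _).trans (boxE_mono (by omega))).trans k1)
  rw [e2, e3] at i2
  refine i1.trans (i2.trans ?_)
  have e4 : ((1 : ℝ) / 4) ^ (2 ^ 9) = (1 / 2 : ℝ) ^ (2 * 2 ^ 9) := by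
    rw [pow_mul]
    norm_num
  rw [e4, ← pow_mul]
  exact pow_le_pow_of_le_one (by norm_num) (by norm_num) (by norm_num)

/-- the constant of the exponential rate -/
noncomputable def kz (A : ℝ) : ℝ := 1 / (40 * A * (2 * (4 : ℝ) ^ (91 / 48 : ℝ) * 33))

theorem kz_pos {A : ℝ} (hA : 1 ≤ A) : 0 < kz A := by
  unfold kz
  positivity

theorem kz_D4 {A : ℝ} (hA : 1 ≤ A) {h : ℕ} (hh : 1 ≤ h) :
    kz A * (h : ℝ) ^ (-(91 / 48 : ℝ)) * (20 * A * D4 h) ≤ 1 / 2 := by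
  have h0 : (0 : ℝ) < h := by exact_mod_cast hh
  apply le_of_eq
  unfold kz D4
  rw [Real.mul_rpow (by norm_num) h0.le, Real.rpow_neg h0.le]
  have h1 := Real.rpow_pos_of_pos h0 (91 / 48)
  have h2 : (0 : ℝ) < (4 : ℝ) ^ (91 / 48 : ℝ) := by positivity
  field_simp
  ring

/-- conversion of the prefactor -/
theorem pref_conv {A : ℝ} (hA : 1 ≤ A) {h : ℕ} (hh : 1 ≤ h) {N : ℝ} (hN : 0 < N) {b : ℝ}
    (hb : 0 < b) (hb1 : b ≤ 1) :
    (h : ℝ) ^ (-(5 / 48 : ℝ)) * Real.exp (-(b * (kz A * (h : ℝ) ^ (-(91 / 48 : ℝ)) * N))) ≤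
      (2 / b) * (kz A) ^ (-(5 / 91 : ℝ)) * (N ^ (-(5 / 91 : ℝ)) *
        Real.exp (-(b / 2 * (kz A * (h : ℝ) ^ (-(91 / 48 : ℝ)) * N)))) := by
  have h0 : (0 : ℝ) < h := by exact_mod_cast hh
  have hk := kz_pos hA
  obtain ⟨x, hx⟩ : ∃ x : ℝ, x = kz A * (h : ℝ) ^ (-(91 / 48 : ℝ)) * N := ⟨_, rfl⟩
  have hx0 : 0 < x := by rw [hx]; positivity
  rw [← hx]
  have e1 : (h : ℝ) ^ (-(5 / 48 : ℝ)) =
      (kz A) ^ (-(5 / 91 : ℝ)) * N ^ (-(5 / 91 : ℝ)) * x ^ (5 / 91 : ℝ) := by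
    have e2 : x ^ (5 / 91 : ℝ) =
        (kz A) ^ (5 / 91 : ℝ) * (h : ℝ) ^ (-(5 / 48 : ℝ)) * N ^ (5 / 91 : ℝ) := by
      rw [hx, Real.mul_rpow (by positivity) hN.le, Real.mul_rpow hk.le (by positivity),
        ← Real.rpow_mul h0.le]
      norm_num
    rw [e2, Real.rpow_neg hk.le, Real.rpow_neg hN.le]
    have := Real.rpow_pos_of_pos hk (5 / 91)
    have := Real.rpow_pos_of_pos hN (5 / 91)
    field_simp
  have e3 : x ^ (5 / 91 : ℝ) * Real.exp (-(b * x)) ≤ 2 / b * Real.exp (-(b / 2 * x)) := by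
    have i1 : x ^ (5 / 91 : ℝ) ≤ 1 + x := by
      rcases le_or_gt x 1 with hx1 | hx1
      · have := Real.rpow_le_one hx0.le hx1 (by norm_num : (0 : ℝ) ≤ 5 / 91)
        linarith
      · calc x ^ (5 / 91 : ℝ) ≤ x ^ (1 : ℝ) :=
            Real.rpow_le_rpow_of_exponent_le hx1.le (by norm_num)
          _ = x := Real.rpow_one x
          _ ≤ 1 + x := by linarith
    have i2 : 1 + x ≤ 2 / b * Real.exp (b / 2 * x) := by
      have := Real.add_one_le_exp (b / 2 * x)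
      have h3 : 2 / b * (b / 2 * x + 1) ≤ 2 / b * Real.exp (b / 2 * x) :=
        mul_le_mul_of_nonneg_left this (by positivity)
      have h4 : 2 / b * (b / 2 * x + 1) = x + 2 / b := by
        field_simp
      have h5 : 1 ≤ 2 / b := by rw [le_div_iff₀ hb]; linarith
      linarith
    calc x ^ (5 / 91 : ℝ) * Real.exp (-(b * x)) ≤
        (2 / b * Real.exp (b / 2 * x)) * Real.exp (-(b * x)) :=
          mul_le_mul_of_nonneg_right (i1.trans i2) (Real.exp_pos _).le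
      _ = 2 / b * Real.exp (-(b / 2 * x)) := by
          rw [mul_assoc, ← Real.exp_add]
          congr 2
          ring
  rw [e1]
  calc (kz A) ^ (-(5 / 91 : ℝ)) * N ^ (-(5 / 91 : ℝ)) * x ^ (5 / 91 : ℝ) * Real.exp (-(b * x))
      = (kz A) ^ (-(5 / 91 : ℝ)) * N ^ (-(5 / 91 : ℝ)) *
        (x ^ (5 / 91 : ℝ) * Real.exp (-(b * x))) := by ring
    _ ≤ (kz A) ^ (-(5 / 91 : ℝ)) * N ^ (-(5 / 91 : ℝ)) *
        (2 / b * Real.exp (-(b / 2 * x))) := mul_le_mul_of_nonneg_left e3 (by positivity)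
    _ = _ := by ring

/-- the blocks fit in the box -/
theorem ngb_box {h n : ℕ} (hh : 1 ≤ h) {j : ℤ × ℤ} (hj : j ∈ (bx n).image (idx h)) :
    ngb h j ⊆ boxE (n + 6 * h) := by
  rw [Finset.mem_image] at hj
  obtain ⟨x, hx, rfl⟩ := hj
  have h1 := blk_cen ((mem_blk_idx hh (j := idx h x) (x := x)).mpr rfl)
  rw [VolAux.mem_bx] at hx
  obtain ⟨c, hcen⟩ : ∃ c : Vtx, c = cen h (idx h x) := ⟨_, rfl⟩
  unfold ngb
  rw [← hcen] at h1 ⊢
  unfold nv at h1 hx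
  simp only [Prod.fst_sub, Prod.snd_sub] at h1
  apply bo_sub_boxE <;> push_cast <;> omega

/-- the critical upper bound in finite boxes -/
theorem crit_up : ∃ C : ℝ, 0 < C ∧ ∀ p : ℝ, 0 ≤ p → p ≤ 1 / 2 → ∀ R N : ℕ, 1 ≤ N →
    Pr (fun _ => p) (boxE R) (fun F => Vol N ↑F) ≤ C * (N : ℝ) ^ (-(5 / 91 : ℝ)) := by
  obtain ⟨c, C, hc, hC, h⟩ := sharp_vol Pool.Agent.H160R2.SA.arSharp
  refine ⟨C, hC, fun p h0 h1 R N hN => ?_⟩
  have i1 : Pr (fun _ => p) (boxE R) (fun F => Vol N ↑F) ≤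
      Pr (fun _ => (1 / 2 : ℝ)) (boxE R) (fun F => Vol N ↑F) := by
    apply Pr_mono_param (okq h0 (by linarith)) (okq (by norm_num) (by norm_num))
      (fun _ => h1)
    rintro F G hFG _ ⟨T, k1, k2⟩
    exact ⟨T, k1, fun u hu => (k2 u hu).mono (by exact_mod_cast hFG)⟩
  have i2 := InfAux.lower (fun F : Set Edg => Vol N F) (fun F G hFG h => InfAux.vol_mono hFG h) R
  have e : {ω : sqLattice.edgeSet → Bool | Vol N (opn ω)} =
      {ω | (N : ℕ∞) ≤ (cluster0 ω).encard} := by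
    ext ω
    exact (InfAux.encard_iff ω N).symm
  rw [e] at i2
  exact i1.trans (i2.trans (h N hN).2)

/-- upper bound below the critical point, in finite boxes -/
theorem sub_up : ∃ c C : ℝ, 0 < c ∧ 0 < C ∧ ∀ p : ℝ, 0 ≤ p → p ≤ 1 / 2 → ∀ R N : ℕ, 1 ≤ N →
    Pr (fun _ => p) (boxE R) (fun F => Vol N ↑F) ≤
      C * (N : ℝ) ^ (-(5 / 91 : ℝ)) *
        Real.exp (-(c * ((N : ℝ) * (1 / 2 - p) ^ (91 / 36 : ℝ)))) := by
  obtain ⟨C1, hC1, h1⟩ := crit_up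
  obtain ⟨c2, C2, hc2, hC2, h2⟩ := arm_upper
  obtain ⟨E, hE1, hfar⟩ := farN
  obtain ⟨A, hAdef⟩ : ∃ A : ℝ, A = C2 + 1 := ⟨_, rfl⟩
  have hA1 : 1 ≤ A := by rw [hAdef]; linarith
  have hk := kz_pos hA1
  obtain ⟨k3, hk3⟩ : ∃ k3 : ℝ, k3 = kz A * (512 * E) ^ (-(91 / 48 : ℝ)) := ⟨_, rfl⟩
  have hk30 : 0 < k3 := by rw [hk3]; positivity
  obtain ⟨C4, hC4⟩ : ∃ C4 : ℝ, C4 = 4000 * A * (288 * (kz A) ^ (-(5 / 91 : ℝ))) := ⟨_, rfl⟩
  have hC40 : 0 < C4 := by rw [hC4]; positivity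
  refine ⟨k3 / 288, C1 * Real.exp 1 + C4, by positivity, by positivity,
    fun p h0 hp R N hN => ?_⟩
  have hN0 : (0 : ℝ) < N := by exact_mod_cast hN
  have hNp : 0 < (N : ℝ) ^ (-(5 / 91 : ℝ)) := by positivity
  rcases hp.lt_or_eq with hlt | heq
  swap
  · rw [heq, sub_self, Real.zero_rpow (by norm_num), mul_zero, mul_zero, neg_zero, Real.exp_zero,
      mul_one]
    refine (h1 (1 / 2) (by norm_num) le_rfl R N hN).trans ?_
    apply mul_le_mul_of_nonneg_right _ hNp.le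
    have : 1 ≤ Real.exp 1 := Real.one_le_exp (by norm_num)
    nlinarith
  have hp1 : p ≤ 1 := by linarith
  obtain ⟨t, ht⟩ : ∃ t : ℝ, t = 1 / 2 - p := ⟨_, rfl⟩
  have ht0 : 0 < t := by rw [ht]; linarith
  obtain ⟨N0, hN02, hN0E, hN01, heps⟩ := hfar p h0 hlt
  rw [← ht] at hN0E hN01 ⊢
  obtain ⟨h, hh⟩ : ∃ h : ℕ, h + 1 = 2 ^ 9 * N0 := ⟨2 ^ 9 * N0 - 1, by omega⟩
  have hh1 : 1 ≤ h := by omega
  have hh0 : (0 : ℝ) < h := by exact_mod_cast hh1
  -- the scale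
  have hsc : (h : ℝ) ≤ 512 * E * t ^ (-(4 / 3 : ℝ)) := by
    have e1 : (h : ℝ) ≤ 512 * N0 := by
      have : h ≤ 512 * N0 := by omega
      exact_mod_cast this
    have e2 : (N0 : ℝ) ≤ E * t ^ (-(4 / 3 : ℝ)) := by
      rw [Real.rpow_neg ht0.le, ← div_eq_mul_inv, le_div_iff₀ (by positivity)]
      exact hN0E
    calc (h : ℝ) ≤ 512 * N0 := e1
      _ ≤ 512 * (E * t ^ (-(4 / 3 : ℝ))) := mul_le_mul_of_nonneg_left e2 (by norm_num)
      _ = _ := by ring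
  have hz : k3 * t ^ (91 / 36 : ℝ) ≤ kz A * (h : ℝ) ^ (-(91 / 48 : ℝ)) := by
    have e1 : (512 * E * t ^ (-(4 / 3 : ℝ))) ^ (-(91 / 48 : ℝ)) ≤ (h : ℝ) ^ (-(91 / 48 : ℝ)) :=
      Real.rpow_le_rpow_of_nonpos hh0 hsc (by norm_num)
    have e2 : (512 * E * t ^ (-(4 / 3 : ℝ))) ^ (-(91 / 48 : ℝ)) =
        (512 * E) ^ (-(91 / 48 : ℝ)) * t ^ (91 / 36 : ℝ) := by
      rw [Real.mul_rpow (by positivity) (by positivity), ← Real.rpow_mul ht0.le]
      norm_num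
    rw [e2] at e1
    rw [hk3, mul_assoc]
    exact mul_le_mul_of_nonneg_left e1 hk.le
  have hAU : AU p A (4 * h) := by
    intro m hm _
    refine (h2 p h0 hp m hm).trans ?_
    have e1 : Real.exp (-(c2 * (m * (1 / 2 - p) ^ (4 / 3 : ℝ)))) ≤ 1 := by
      apply Real.exp_le_one_iff.mpr
      rw [← ht]
      have : 0 ≤ c2 * (m * t ^ (4 / 3 : ℝ)) := by positivity
      linarith
    have e2 : 0 ≤ C2 * (m : ℝ) ^ (-(5 / 48) : ℝ) := by positivity
    calc C2 * (m : ℝ) ^ (-(5 / 48) : ℝ) * Real.exp (-(c2 * (m * (1 / 2 - p) ^ (4 / 3 : ℝ))))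
        ≤ C2 * (m : ℝ) ^ (-(5 / 48) : ℝ) * 1 := mul_le_mul_of_nonneg_left e1 e2
      _ ≤ A * (m : ℝ) ^ (-(5 / 48) : ℝ) := by
          rw [mul_one]
          apply mul_le_mul_of_nonneg_right _ (by positivity)
          rw [hAdef]; linarith
  obtain ⟨z, hzd⟩ : ∃ z : ℝ, z = kz A * (h : ℝ) ^ (-(91 / 48 : ℝ)) := ⟨_, rfl⟩
  have hz0 : 0 < z := by rw [hzd]; positivity
  have hzD : z * (20 * A * D4 h) ≤ 1 / 2 := by rw [hzd]; exact kz_D4 hA1 hh1
  rw [← hzd] at hz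
  rcases lt_or_ge (z * N) 2 with hs | hs
  · -- small sizes
    have e1 : k3 / 288 * ((N : ℝ) * t ^ (91 / 36 : ℝ)) ≤ 1 := by
      have e2 : k3 * t ^ (91 / 36 : ℝ) * N ≤ z * N := mul_le_mul_of_nonneg_right hz hN0.le
      have e3 : k3 / 288 * ((N : ℝ) * t ^ (91 / 36 : ℝ)) =
          (k3 * t ^ (91 / 36 : ℝ) * N) / 288 := by ring
      rw [e3]
      linarith
    have e4 : 1 ≤ Real.exp 1 * Real.exp (-(k3 / 288 * ((N : ℝ) * t ^ (91 / 36 : ℝ)))) := by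
      rw [← Real.exp_add]
      apply Real.one_le_exp
      linarith
    calc Pr (fun _ => p) (boxE R) (fun F => Vol N ↑F) ≤ C1 * (N : ℝ) ^ (-(5 / 91 : ℝ)) :=
          h1 p h0 hp R N hN
      _ ≤ C1 * (N : ℝ) ^ (-(5 / 91 : ℝ)) *
          (Real.exp 1 * Real.exp (-(k3 / 288 * ((N : ℝ) * t ^ (91 / 36 : ℝ))))) :=
          le_mul_of_one_le_right (by positivity) e4
      _ = (C1 * Real.exp 1) * (N : ℝ) ^ (-(5 / 91 : ℝ)) *
          Real.exp (-(k3 / 288 * ((N : ℝ) * t ^ (91 / 36 : ℝ)))) := by ring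
      _ ≤ _ := by
          apply mul_le_mul_of_nonneg_right _ (Real.exp_pos _).le
          apply mul_le_mul_of_nonneg_right _ hNp.le
          linarith
  · -- large sizes
    have hzD2 : z * (2 * A * D4 h) ≤ 1 / 2 := by
      refine le_trans ?_ hzD
      apply mul_le_mul_of_nonneg_left _ hz0.le
      have := D4_pos hh1
      nlinarith
    have i1 := EV_prob (p := p) (A := A) (z := z) h0 hp1 hA1 hh1 hAU hz0.le hzD2
      (U := boxE (R + h + 6 * h)) (n := R + h) (by omega) (fun j hj => ngb_box hh1 hj)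
      (fun j hj => YY_small h0 hp1 hN02 heps hh (ngb_box hh1 hj)) N
    have i2 : Pr (fun _ => p) (boxE (R + h + 6 * h))
        (fun F => ∃ v ∈ blk h (0, 0), EV h (R + h) N v F) ≤
        (4 * Real.exp (-(z * N / 144))) ^ 2 := by
      refine i1.trans ?_
      rw [mul_pow, ← Real.exp_nat_mul]
      have e1 : ((2 : ℕ) : ℝ) * -(z * N / 144) = -(z * (N / 72)) := by push_cast; ring
      rw [e1]
      have := Real.exp_pos (-(z * ((N : ℝ) / 72)))
      nlinarith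
    have i3 := vol_box (p := p) (A := A) (z := z) (g := 4 * Real.exp (-(z * N / 144))) h0 hp1 hA1
      hh1 hAU hz0 hzD (N := (N : ℝ)) hs (R := R) (n := R + h) le_rfl
      (U := boxE (R + h + 6 * h)) (boxE_mono (by omega)) (by positivity) i2
    have i4 : 4 * Real.exp (-(z * N / 144)) + Real.exp (-(z * N)) ≤
        5 * Real.exp (-(z * N / 144)) := by
      have : Real.exp (-(z * N)) ≤ Real.exp (-(z * N / 144)) := by
        apply Real.exp_le_exp.mpr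
        have : 0 < z * N := by positivity
        linarith
      linarith
    have i5 := pref_conv hA1 hh1 hN0 (b := 1 / 144) (by norm_num) (by norm_num)
    rw [← hzd] at i5
    have e5 : (1 : ℝ) / 144 * (z * N) = z * N / 144 := by ring
    have e6 : (1 : ℝ) / 144 / 2 * (z * N) = z * N / 288 := by ring
    rw [e5, e6] at i5
    have i6 : Real.exp (-(z * N / 288)) ≤
        Real.exp (-(k3 / 288 * ((N : ℝ) * t ^ (91 / 36 : ℝ)))) := by
      apply Real.exp_le_exp.mpr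
      have e2 : k3 * t ^ (91 / 36 : ℝ) * N ≤ z * N := mul_le_mul_of_nonneg_right hz hN0.le
      have e3 : k3 / 288 * ((N : ℝ) * t ^ (91 / 36 : ℝ)) =
          (k3 * t ^ (91 / 36 : ℝ) * N) / 288 := by ring
      rw [e3]
      linarith
    have hx : 0 ≤ (h : ℝ) ^ (-(5 / 48 : ℝ)) := by positivity
    calc Pr (fun _ => p) (boxE R) (fun F => Vol N ↑F)
        ≤ 800 * A * (h : ℝ) ^ (-(5 / 48 : ℝ)) * (5 * Real.exp (-(z * N / 144))) :=
          i3.trans (mul_le_mul_of_nonneg_left i4 (by positivity))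
      _ = 4000 * A * ((h : ℝ) ^ (-(5 / 48 : ℝ)) * Real.exp (-(z * N / 144))) := by ring
      _ ≤ 4000 * A * (2 / (1 / 144) * (kz A) ^ (-(5 / 91 : ℝ)) * ((N : ℝ) ^ (-(5 / 91 : ℝ)) *
          Real.exp (-(z * N / 288)))) := mul_le_mul_of_nonneg_left i5 (by positivity)
      _ = C4 * (N : ℝ) ^ (-(5 / 91 : ℝ)) * Real.exp (-(z * N / 288)) := by
          rw [hC4]; ring
      _ ≤ C4 * (N : ℝ) ^ (-(5 / 91 : ℝ)) *
          Real.exp (-(k3 / 288 * ((N : ℝ) * t ^ (91 / 36 : ℝ)))) :=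
          mul_le_mul_of_nonneg_left i6 (by positivity)
      _ ≤ _ := by
          apply mul_le_mul_of_nonneg_right _ (Real.exp_pos _).le
          apply mul_le_mul_of_nonneg_right _ hNp.le
          have := Real.exp_pos 1
          nlinarith

end Pool.Agent.D0H95.CS
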