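import Pool.Agent.D0H95.CS.SupUp2
import Pool.Agent.W424.NC.Win

/-!
Lower bound for the size of the finite cluster of the origin above the critical point: a large
piece of cluster surrounded by a closed dual circuit.
-/

set_option autoImplicit false
set_option maxHeartbeats 400000
set_option linter.unusedVariables false

namespace Pool.Agent.D0H95.CS
open Finset H974 MeasureTheory Filter Pool.Agent.H160R2.CV Pool.Agent.H160R2.CV.Quad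
open Pool.Agent.Y244.PC Pool.Agent.W424.NC

/-- second moment method for the cluster of the origin -/
theorem vol_low {A a : ℝ} (hA1 : 1 ≤ A) (ha : 0 < a) : ∃ ε c : ℝ, 0 < ε ∧ 0 < c ∧
    ∀ p : ℝ, 1 / 2 ≤ p → p ≤ 1 → ∀ h R : ℕ, 1 ≤ h → h ≤ R → AU p A (4 * h) →
      a * (h : ℝ) ^ (-(5 / 48 : ℝ)) ≤ arm p (4 * R) →
        c * (h : ℝ) ^ (-(5 / 48 : ℝ)) ≤ Pr (fun _ => p) (boxE (5 * R))
          (fun F => Vol (ε * ((R : ℝ) ^ 2 * (h : ℝ) ^ (-(5 / 48 : ℝ)))) ↑F) := by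
  classical
  obtain ⟨κ, hκ⟩ : ∃ κ : ℝ, κ = (1 / 2 : ℝ) ^ 188 := ⟨_, rfl⟩
  have hκ0 : 0 < κ := by rw [hκ]; positivity
  refine ⟨κ * a ^ 2 / (4 * A), (κ * a ^ 2) ^ 2 / (16 * A * (1650 * A) ^ 2), by positivity,
    by positivity, fun p hp h1 h R hh1 hhR hAU harm => ?_⟩
  have h0 : 0 ≤ p := by linarith
  have ok := okq h0 h1
  have hh0 : (0 : ℝ) < h := by exact_mod_cast hh1
  have hR1 : 1 ≤ R := hh1.trans hhR
  have hR0 : (0 : ℝ) < R := by exact_mod_cast hR1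
  have hhR' : (h : ℝ) ≤ R := by exact_mod_cast hhR
  obtain ⟨s, hs⟩ : ∃ s : ℝ, s = (h : ℝ) ^ (-(5 / 48 : ℝ)) := ⟨_, rfl⟩
  have hs0 : 0 < s := by rw [hs]; positivity
  rw [← hs] at harm ⊢
  obtain ⟨D, hD⟩ : ∃ D : Finset Vtx, D = (bx R).filter (fun x => h / 4 < nv x) := ⟨_, rfl⟩
  have hD0 : (0, 0) ∉ D := by
    rw [hD, Finset.mem_filter]
    rintro ⟨-, h2⟩
    have : nv (0, 0) = 0 := by unfold nv; simp
    omega
  have hDb : D ⊆ bx R := by rw [hD]; exact Finset.filter_subset _ _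
  have hDc1 : (R : ℝ) ^ 2 ≤ D.card := by
    have e1 : bx R ⊆ D ∪ bx (h / 4) := by
      intro x hx
      rw [Finset.mem_union, hD, Finset.mem_filter]
      by_cases hc : h / 4 < nv x
      · exact Or.inl ⟨hx, hc⟩
      · refine Or.inr ?_
        rw [VolAux.mem_bx]
        omega
    have e2 : ((bx R).card : ℝ) ≤ D.card + (bx (h / 4)).card := by
      exact_mod_cast (Finset.card_le_card e1).trans (Finset.card_union_le _ _)
    rw [w_card_bx, w_card_bx] at e2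
    have e3 : ((h / 4 : ℕ) : ℝ) ≤ R / 4 := by
      have : ((h / 4 : ℕ) : ℝ) ≤ h / 4 := Nat.cast_div_le
      linarith
    have e4 : (0 : ℝ) ≤ ((h / 4 : ℕ) : ℝ) := Nat.cast_nonneg _
    nlinarith
  have hDc2 : (D.card : ℝ) ≤ 9 * (R : ℝ) ^ 2 := by
    have e1 : (D.card : ℝ) ≤ ((bx R).card : ℝ) := by exact_mod_cast Finset.card_le_card hDb
    rw [w_card_bx] at e1
    have : (1 : ℝ) ≤ R := by exact_mod_cast hR1
    nlinarith
  obtain ⟨S, hS⟩ : ∃ S : Finset Edg, S = boxE (5 * R) := ⟨_, rfl⟩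
  rw [← hS]
  -- first moment
  have k1 : κ * a ^ 2 * ((R : ℝ) ^ 2 * s ^ 2) ≤
      Ex (fun _ => p) S (fun F => cnt (fun x F => Reach (↑F) (0, 0) x) D F) := by
    unfold cnt
    rw [Ex_sum]
    have e1 : ∀ x ∈ D, κ * a ^ 2 * s ^ 2 ≤
        Ex (fun _ => p) S (fun F => ind (Reach (↑F) (0, 0) x)) := by
      intro x hx
      have hxb := hDb hx
      rw [VolAux.mem_bx] at hxb
      unfold nv at hxb
      have h2 := two_point (q := p) h0 h1 (r := R) (by omega) (x1 := x.1) (x2 := x.2)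
        (by unfold inR; simp only; omega) (S := S) (by rw [hS])
      have h3 : (1 / 2 : ℝ) ^ 47 ≤ hh p ((6 * R : ℕ) : ℤ) ((2 * R : ℕ) : ℤ) := by
        apply rsw_p hp h1 (n := (R : ℤ)) (by omega)
        · push_cast; omega
        · push_cast; omega
        · push_cast; omega
      have h4 : κ ≤ (hh p ((6 * R : ℕ) : ℤ) ((2 * R : ℕ) : ℤ)) ^ 4 := by
        calc κ = ((1 / 2 : ℝ) ^ 47) ^ 4 := by rw [hκ, ← pow_mul]
          _ ≤ _ := pow_le_pow_left₀ (by positivity) h3 4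
      have h5 : arm p (4 * R) ≤ arm p (3 * R) := arm_anti h0 h1 (by omega)
      have h6 : a ^ 2 * s ^ 2 ≤ arm p (3 * R) * arm p (4 * R) := by
        calc a ^ 2 * s ^ 2 = (a * s) * (a * s) := by ring
          _ ≤ arm p (3 * R) * arm p (4 * R) :=
            mul_le_mul (harm.trans h5) harm (by positivity) (by linarith [arm_nonneg h0 h1 (3 * R)])
      calc κ * a ^ 2 * s ^ 2 = (a ^ 2 * s ^ 2) * κ := by ring
        _ ≤ arm p (3 * R) * arm p (4 * R) *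
            (hh p ((6 * R : ℕ) : ℤ) ((2 * R : ℕ) : ℤ)) ^ 4 := by
            apply mul_le_mul h6 h4 hκ0.le
            exact (by positivity : (0:ℝ) ≤ a ^ 2 * s ^ 2).trans h6
        _ ≤ Pr (fun _ => p) S (TP (x.1, x.2)) := h2
        _ = _ := rfl
    have e2 := Finset.sum_le_sum e1
    rw [Finset.sum_const, nsmul_eq_mul] at e2
    refine le_trans ?_ e2
    calc κ * a ^ 2 * ((R : ℝ) ^ 2 * s ^ 2) = (R : ℝ) ^ 2 * (κ * a ^ 2 * s ^ 2) := by ring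
      _ ≤ _ := mul_le_mul_of_nonneg_right hDc1 (by positivity)
  -- the arm
  have k2 : Pr (fun _ => p) S (Far (0, 0) (h / 4 + 1)) ≤ 2 * A * s := by
    refine (far_leq h0 h1 S (0, 0) (h / 4 + 1)).trans ?_
    refine (hAU (h / 4 + 1) (by omega) (by omega)).trans ?_
    have e1 : (h : ℝ) / 4 ≤ ((h / 4 + 1 : ℕ) : ℝ) := by
      have : h ≤ 4 * (h / 4 + 1) := by omega
      have : (h : ℝ) ≤ 4 * ((h / 4 + 1 : ℕ) : ℝ) := by exact_mod_cast this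
      linarith
    have e2 : ((h / 4 + 1 : ℕ) : ℝ) ^ (-(5 / 48 : ℝ)) ≤ 2 * s := by
      calc ((h / 4 + 1 : ℕ) : ℝ) ^ (-(5 / 48 : ℝ)) ≤ ((h : ℝ) / 4) ^ (-(5 / 48 : ℝ)) :=
            Real.rpow_le_rpow_of_nonpos (by positivity) e1 (by norm_num)
        _ = (4 : ℝ) ^ (5 / 48 : ℝ) * s := by
            rw [Real.div_rpow hh0.le (by norm_num), Real.rpow_neg (by norm_num : (0:ℝ) ≤ 4),
              div_inv_eq_mul, mul_comm, hs]
        _ ≤ 2 * s := by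
            apply mul_le_mul_of_nonneg_right _ hs0.le
            calc (4 : ℝ) ^ (5 / 48 : ℝ) ≤ (4 : ℝ) ^ (1 / 2 : ℝ) :=
                  Real.rpow_le_rpow_of_exponent_le (by norm_num) (by norm_num)
              _ = 2 := by
                  rw [← Real.sqrt_eq_rpow]
                  rw [show (4 : ℝ) = 2 ^ 2 by norm_num]
                  exact Real.sqrt_sq (by norm_num)
    calc A * ((h / 4 + 1 : ℕ) : ℝ) ^ (-(5 / 48 : ℝ)) ≤ A * (2 * s) :=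
          mul_le_mul_of_nonneg_left e2 (by linarith)
      _ = _ := by ring
  -- second moment
  have k3 : Ex (fun _ => p) S (fun F => cnt (fun x F => Reach (↑F) (0, 0) x) D F ^ 2) ≤
      4 * A * (1650 * A) ^ 2 * ((R : ℝ) ^ 4 * s ^ 3) := by
    have e1 := mom_vol h0 h1 hA1 (s := 4 * h) (by omega) hAU S D hD0 2 (by norm_num)
    have e0 : (((2 : ℕ).factorial : ℕ) : ℝ) = 2 := by norm_num [Nat.factorial]
    rw [e0] at e1
    have e2 : ((4 * h : ℕ) : ℝ) ^ (-(5 / 48 : ℝ)) ≤ s := by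
      rw [hs]
      apply Real.rpow_le_rpow_of_nonpos hh0 _ (by norm_num)
      push_cast
      linarith
    have e3 : DD (4 * h) D ≤ 825 * ((R : ℝ) ^ 2 * s) := by
      unfold DD
      have f1 : ((4 * h : ℕ) : ℝ) ^ (91 / 48 : ℝ) ≤ 16 * ((R : ℝ) ^ 2 * s) := by
        push_cast
        rw [Real.mul_rpow (by norm_num) hh0.le, pow_m hh0, ← hs]
        have g1 : (4 : ℝ) ^ (91 / 48 : ℝ) ≤ 16 := by
          calc (4 : ℝ) ^ (91 / 48 : ℝ) ≤ (4 : ℝ) ^ (2 : ℝ) :=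
                Real.rpow_le_rpow_of_exponent_le (by norm_num) (by norm_num)
            _ = 16 := by norm_num
        have g2 : (h : ℝ) * h * s ≤ (R : ℝ) ^ 2 * s := by
          apply mul_le_mul_of_nonneg_right _ hs0.le
          nlinarith
        exact mul_le_mul g1 g2 (by positivity) (by norm_num)
      have f2 : (D.card : ℝ) * ((4 * h : ℕ) : ℝ) ^ (-(5 / 48 : ℝ)) ≤ 9 * ((R : ℝ) ^ 2 * s) := by
        calc (D.card : ℝ) * ((4 * h : ℕ) : ℝ) ^ (-(5 / 48 : ℝ)) ≤ (9 * (R : ℝ) ^ 2) * s :=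
              mul_le_mul hDc2 e2 (by positivity) (by positivity)
          _ = _ := by ring
      linarith
    have hDDp := DD_pos (s := 4 * h) (by omega) D
    have e4 : (2 * A * DD (4 * h) D) ^ 2 ≤ (1650 * A * ((R : ℝ) ^ 2 * s)) ^ 2 := by
      apply pow_le_pow_left₀ (by positivity)
      calc 2 * A * DD (4 * h) D ≤ 2 * A * (825 * ((R : ℝ) ^ 2 * s)) :=
            mul_le_mul_of_nonneg_left e3 (by positivity)
        _ = _ := by ring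
    refine e1.trans ?_
    calc 2 * (2 * A * DD (4 * h) D) ^ 2 * (2 * A * ((4 * h : ℕ) : ℝ) ^ (-(5 / 48 : ℝ)))
        ≤ 2 * (1650 * A * ((R : ℝ) ^ 2 * s)) ^ 2 * (2 * A * s) := by
          apply mul_le_mul _ _ (by positivity) (by positivity)
          · linarith
          · exact mul_le_mul_of_nonneg_left e2 (by positivity)
      _ = _ := by ring
  have k4 := pz h0 h1 (S := S) (f := fun F => cnt (fun x F => Reach (↑F) (0, 0) x) D F)
    (fun F => cnt_nonneg _ _ _) (B := Far (0, 0) (h / 4 + 1)) (by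
      intro F hF
      unfold cnt
      apply Finset.sum_eq_zero
      intro x hx
      apply ind_not_of
      intro hr
      apply hF
      rw [hD, Finset.mem_filter] at hx
      refine ⟨x, ?_, hr⟩
      have e2 : x - (0, 0) = x := by refine Prod.ext ?_ ?_ <;> simp
      rw [e2]
      omega) (θ := κ * a ^ 2 / (4 * A) * ((R : ℝ) ^ 2 * s)) (μ := κ * a ^ 2 * ((R : ℝ) ^ 2 * s ^ 2))
    (by positivity) (by positivity) k1 (by
      calc κ * a ^ 2 / (4 * A) * ((R : ℝ) ^ 2 * s) *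
            Pr (fun _ => p) S (Far (0, 0) (h / 4 + 1))
          ≤ κ * a ^ 2 / (4 * A) * ((R : ℝ) ^ 2 * s) * (2 * A * s) :=
            mul_le_mul_of_nonneg_left k2 (by positivity)
        _ = κ * a ^ 2 * ((R : ℝ) ^ 2 * s ^ 2) / 2 := by
            field_simp
            norm_num) k3
  have k5 : Pr (fun _ => p) S (fun F => κ * a ^ 2 / (4 * A) * ((R : ℝ) ^ 2 * s) ≤
      cnt (fun x F => Reach (↑F) (0, 0) x) D F) ≤
      Pr (fun _ => p) S (fun F => Vol (κ * a ^ 2 / (4 * A) * ((R : ℝ) ^ 2 * s)) ↑F) := by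
    apply Pr_mono ok
    intro F _ hF
    refine ⟨D.filter (fun x => Reach (↑F) (0, 0) x), ?_, ?_⟩
    · rw [← w_sum_ind]
      exact hF
    · intro u hu
      exact (Finset.mem_filter.mp hu).2
  refine le_trans ?_ k5
  obtain ⟨P, hP⟩ : ∃ P : ℝ, P = Pr (fun _ => p) S (fun F => κ * a ^ 2 / (4 * A) *
    ((R : ℝ) ^ 2 * s) ≤ cnt (fun x F => Reach (↑F) (0, 0) x) D F) := ⟨_, rfl⟩
  rw [← hP] at k4 ⊢
  have k6 : ((κ * a ^ 2) ^ 2 * s) * ((R : ℝ) ^ 4 * s ^ 3) ≤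
      (16 * A * (1650 * A) ^ 2 * P) * ((R : ℝ) ^ 4 * s ^ 3) := by
    calc ((κ * a ^ 2) ^ 2 * s) * ((R : ℝ) ^ 4 * s ^ 3) =
        (κ * a ^ 2 * ((R : ℝ) ^ 2 * s ^ 2)) ^ 2 := by ring
      _ ≤ _ := k4
      _ = _ := by ring
  have k7 := le_of_mul_le_mul_right k6 (by positivity)
  rw [div_mul_eq_mul_div, div_le_iff₀ (by positivity)]
  linarith

/-- a closed dual circuit -/
theorem blk_low : ∃ c C : ℝ, 0 < c ∧ 0 < C ∧ ∀ p : ℝ, 1 / 2 ≤ p → p ≤ 3 / 4 → ∀ R : ℕ, 1 ≤ R →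
    ∀ S : Finset Edg, annE (5 * R) (15 * R) ⊆ S →
      c * Real.exp (-(C * (R * (p - 1 / 2) ^ (4 / 3 : ℝ)))) ≤
        Pr (fun _ => p) S (Blk ((5 * R : ℕ) : ℤ) ((15 * R : ℕ) : ℤ)) := by
  obtain ⟨c, C, hc, hC, hw⟩ := win_lower_dual 3 (by norm_num)
  refine ⟨c ^ 4, 40 * C, by positivity, by positivity, fun p hp hp1 R hR S hS => ?_⟩
  have h0 : 0 ≤ p := by linarith
  have h1 : p ≤ 1 := by linarith
  have ok := okq h0 h1
  have h2 := hw (1 - p) (by linarith) (by linarith) (10 * R) (30 * R) (by omega) (by omega)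
    (by omega) (by omega)
  have e1 : (1 : ℝ) - (1 - p) = p := by ring
  have e2 : (1 / 2 : ℝ) - (1 - p) = p - 1 / 2 := by ring
  rw [e1, e2] at h2
  obtain ⟨q, hq⟩ : ∃ q : ℝ, q = hh p ((10 * R : ℕ) : ℤ) ((30 * R : ℕ) : ℤ) := ⟨_, rfl⟩
  rw [← hq] at h2
  obtain ⟨s1, s2, s3, s4⟩ := ann_sub (n := 5 * R) (m := 15 * R) (by omega)
  have d1 : ((15 * R : ℕ) : ℤ) - ((5 * R : ℕ) : ℤ) = ((10 * R : ℕ) : ℤ) := by push_cast; ring
  have d2 : ((15 * R : ℕ) : ℤ) - -((15 * R : ℕ) : ℤ) = ((30 * R : ℕ) : ℤ) := by push_cast; ring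
  have d3 : -((5 * R : ℕ) : ℤ) - -((15 * R : ℕ) : ℤ) = ((10 * R : ℕ) : ℤ) := by push_cast; ring
  have f1 := pr_LRc p (s1.trans hS)
  have f2 := pr_LRc p (s2.trans hS)
  have f3 := pr_TBc p (s3.trans hS)
  have f4 := pr_TBc p (s4.trans hS)
  rw [d1, d2, ← hq] at f1
  rw [d3, d2, ← hq] at f2
  rw [d1, d2, ← hq] at f3
  rw [d3, d2, ← hq] at f4
  have g1 := Pr_harris_dd ok (S := S) (LRc_incr S ((5 * R : ℕ) : ℤ) ((15 * R : ℕ) : ℤ)
    (-((15 * R : ℕ) : ℤ)) ((15 * R : ℕ) : ℤ)) (LRc_incr S (-((15 * R : ℕ) : ℤ))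
    (-((5 * R : ℕ) : ℤ)) (-((15 * R : ℕ) : ℤ)) ((15 * R : ℕ) : ℤ))
  have g2 := Pr_harris_dd ok (S := S) (TBc_incr S (-((15 * R : ℕ) : ℤ)) ((15 * R : ℕ) : ℤ)
    ((5 * R : ℕ) : ℤ) ((15 * R : ℕ) : ℤ)) (TBc_incr S (-((15 * R : ℕ) : ℤ)) ((15 * R : ℕ) : ℤ)
    (-((15 * R : ℕ) : ℤ)) (-((5 * R : ℕ) : ℤ)))
  rw [f1, f2] at g1
  rw [f3, f4] at g2
  have e3 : Pr (fun _ => p) S (fun F => ¬ LRc ((5 * R : ℕ) : ℤ) ((15 * R : ℕ) : ℤ)
      (-((15 * R : ℕ) : ℤ)) ((15 * R : ℕ) : ℤ) F ∧ ¬ LRc (-((15 * R : ℕ) : ℤ))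
      (-((5 * R : ℕ) : ℤ)) (-((15 * R : ℕ) : ℤ)) ((15 * R : ℕ) : ℤ) F) =
      1 - Pr (fun _ => p) S (fun F => LRc ((5 * R : ℕ) : ℤ) ((15 * R : ℕ) : ℤ)
      (-((15 * R : ℕ) : ℤ)) ((15 * R : ℕ) : ℤ) F ∨ LRc (-((15 * R : ℕ) : ℤ))
      (-((5 * R : ℕ) : ℤ)) (-((15 * R : ℕ) : ℤ)) ((15 * R : ℕ) : ℤ) F) := by
    rw [← Pr_not]
    apply Pr_congr
    intro F _
    rw [not_or]
  have e4 : Pr (fun _ => p) S (fun F => ¬ TBc (-((15 * R : ℕ) : ℤ)) ((15 * R : ℕ) : ℤ)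
      ((5 * R : ℕ) : ℤ) ((15 * R : ℕ) : ℤ) F ∧ ¬ TBc (-((15 * R : ℕ) : ℤ)) ((15 * R : ℕ) : ℤ)
      (-((15 * R : ℕ) : ℤ)) (-((5 * R : ℕ) : ℤ)) F) =
      1 - Pr (fun _ => p) S (fun F => TBc (-((15 * R : ℕ) : ℤ)) ((15 * R : ℕ) : ℤ)
      ((5 * R : ℕ) : ℤ) ((15 * R : ℕ) : ℤ) F ∨ TBc (-((15 * R : ℕ) : ℤ)) ((15 * R : ℕ) : ℤ)
      (-((15 * R : ℕ) : ℤ)) (-((5 * R : ℕ) : ℤ)) F) := by
    rw [← Pr_not]
    apply Pr_congr
    intro F _
    rw [not_or]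
  rw [e3] at g1
  rw [e4] at g2
  have g3 := Pr_harris_dd ok (S := S)
    (A := fun F => LRc ((5 * R : ℕ) : ℤ) ((15 * R : ℕ) : ℤ)
      (-((15 * R : ℕ) : ℤ)) ((15 * R : ℕ) : ℤ) F ∨ LRc (-((15 * R : ℕ) : ℤ))
      (-((5 * R : ℕ) : ℤ)) (-((15 * R : ℕ) : ℤ)) ((15 * R : ℕ) : ℤ) F)
    (B := fun F => TBc (-((15 * R : ℕ) : ℤ)) ((15 * R : ℕ) : ℤ)
      ((5 * R : ℕ) : ℤ) ((15 * R : ℕ) : ℤ) F ∨ TBc (-((15 * R : ℕ) : ℤ)) ((15 * R : ℕ) : ℤ)
      (-((15 * R : ℕ) : ℤ)) (-((5 * R : ℕ) : ℤ)) F)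
    (fun F G h _ hF => hF.imp (fun k => k.mono h) (fun k => k.mono h))
    (fun F G h _ hF => hF.imp (fun k => k.mono h) (fun k => k.mono h))
  have hx : 0 ≤ c * Real.exp (-(C * (((10 * R : ℕ) : ℝ) * (p - 1 / 2) ^ (4 / 3 : ℝ)))) := by
    positivity
  have g4 : (c * Real.exp (-(C * (((10 * R : ℕ) : ℝ) * (p - 1 / 2) ^ (4 / 3 : ℝ))))) ^ 2 ≤
      (1 - q) * (1 - q) := by
    rw [sq]
    exact mul_le_mul h2 h2 hx (hx.trans h2)
  have g5 := mul_le_mul (g4.trans g1) (g4.trans g2) (by positivity)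
    ((sq_nonneg _).trans (g4.trans g1))
  refine le_trans (le_of_eq ?_) (g5.trans g3)
  rw [← pow_add, mul_pow, ← Real.exp_nat_mul]
  congr 2
  push_cast
  ring

/-- a large finite cluster -/
theorem fin_low (p : unitInterval) (N R : ℕ) (hR : 1 ≤ R) {T : ℝ} (hT : (N : ℝ) ≤ T) :
    Pr (fun _ => (p : ℝ)) (boxE (5 * R)) (fun F => Vol T ↑F) *
      Pr (fun _ => (p : ℝ)) (boxE (15 * R)) (Blk ((5 * R : ℕ) : ℤ) ((15 * R : ℕ) : ℤ)) ≤
    (bondLaw p).real {ω | (N : ℕ∞) ≤ (cluster0 ω).encard ∧ (cluster0 ω).Finite} := by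
  have h0 : 0 ≤ (p : ℝ) := p.2.1
  have h1 : (p : ℝ) ≤ 1 := p.2.2
  have ok := okq h0 h1
  have hsub : boxE (5 * R) ⊆ boxE (15 * R) := boxE_mono (by omega)
  have hlocV : ∀ F : Finset Edg, Vol T (↑F ∩ ↑(boxE (5 * R))) ↔
      Vol T (↑(F ∩ boxE (5 * R)) ∩ ↑(boxE (5 * R))) := by
    intro F
    rw [coe_inter_eq (Finset.Subset.refl _)]
  have e1 : Pr (fun _ => (p : ℝ)) (boxE (5 * R)) (fun F => Vol T ↑F) =
      Pr (fun _ => (p : ℝ)) (boxE (15 * R)) (fun F => Vol T (↑F ∩ ↑(boxE (5 * R)))) := by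
    rw [Pr_local (A := fun F => Vol T (↑F ∩ ↑(boxE (5 * R)))) hsub (fun F _ => hlocV F)]
    apply Pr_congr
    intro F hF
    have e : (↑F ∩ ↑(boxE (5 * R)) : Set Edg) = ↑F :=
      Set.inter_eq_left.mpr (by exact_mod_cast hF)
    rw [e]
  have hd : Disjoint (boxE (5 * R)) (annE (5 * R) (15 * R)) := by
    unfold annE
    exact Finset.disjoint_sdiff
  have e2 := Pr_indep (p := fun _ => (p : ℝ)) hsub (annE_sub (5 * R) (15 * R)) hd
    (A := fun F => Vol T (↑F ∩ ↑(boxE (5 * R))))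
    (B := Blk ((5 * R : ℕ) : ℤ) ((15 * R : ℕ) : ℤ)) (fun F _ => hlocV F)
    (fun F _ => Blk_local (by omega) (Finset.Subset.refl _) F)
  rw [e1, ← e2, ← law_event p (boxE (15 * R))
    (fun F => Vol T (↑F ∩ ↑(boxE (5 * R))) ∧ Blk ((5 * R : ℕ) : ℤ) ((15 * R : ℕ) : ℤ) F)]
  refine measureReal_mono ?_ (measure_ne_top _ _)
  rintro ω ⟨hV, hB⟩
  constructor
  · rw [InfAux.encard_iff]
    obtain ⟨X, k1, k2⟩ := hV
    refine ⟨X, hT.trans k1, fun u hu => (k2 u hu).mono ?_⟩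
    refine Set.inter_subset_left.trans ?_
    rw [FF_coe]
    exact Set.inter_subset_left
  · by_contra hinf
    have hinf' : (cluster0 ω).Infinite := hinf
    rw [infinite_iff] at hinf'
    obtain ⟨v, hv, hr⟩ := hinf' (15 * R)
    unfold onB at hv
    refine not_blk_of_arm (F := FF (boxE (15 * R)) ω) (R1 := ((5 * R : ℕ) : ℤ))
      (R2 := ((15 * R : ℕ) : ℤ)) (by positivity) (by push_cast; omega) (v := v)
      (hr.mono Set.inter_subset_left) ?_ hB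
    omega

/-- lower bound above the critical point -/
theorem sup_low : ∃ c C : ℝ, 0 < c ∧ 0 < C ∧ ∀ p : unitInterval, (1 / 2 : ℝ) < p →
    (p : ℝ) ≤ 3 / 4 → ∀ N : ℕ, 1 ≤ N →
      c * (N : ℝ) ^ (-(5 / 91 : ℝ)) *
        Real.exp (-(C * Real.sqrt ((N : ℝ) * ((p : ℝ) - 1 / 2) ^ (91 / 36 : ℝ)))) ≤
    (bondLaw p).real {ω | (N : ℕ∞) ≤ (cluster0 ω).encard ∧ (cluster0 ω).Finite} := by
  obtain ⟨A, K, hA1, hK1, hscale⟩ := sup_scale
  obtain ⟨c1, hc1, hth⟩ := Pool.Agent.Y554.NC.theta_lower'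
  obtain ⟨c2, C2, hc2, hC2, hcr⟩ := Pool.Agent.W424.NC.arm_crit
  obtain ⟨c4, C4, hc4, hC4, hblk⟩ := blk_low
  obtain ⟨a, ha⟩ : ∃ a : ℝ, a = min (c1 * K ^ (-(5 / 48 : ℝ))) (c2 * (4 : ℝ) ^ (-(5 / 48 : ℝ))) :=
    ⟨_, rfl⟩
  have hK0 : 0 < K := by linarith
  have ha0 : 0 < a := by rw [ha]; exact lt_min (by positivity) (by positivity)
  obtain ⟨ε', c5, hε', hc5, hvol'⟩ := vol_low hA1 ha0
  -- a smaller ε
  obtain ⟨ε, hε⟩ : ∃ ε : ℝ, ε = min ε' 1 := ⟨_, rfl⟩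
  have hε0 : 0 < ε := by rw [hε]; exact lt_min hε' one_pos
  have hε1 : ε ≤ 1 := by rw [hε]; exact min_le_right _ _
  obtain ⟨M, hM⟩ : ∃ M : ℝ, M = Real.sqrt (4 * K ^ (5 / 48 : ℝ) / ε) := ⟨_, rfl⟩
  have hM0 : 0 < M := by rw [hM]; positivity
  refine ⟨c5 * c4 * Real.exp (-(C4 * K)) * ((2 : ℝ) ^ (-(5 / 48 : ℝ)) * ε), C4 * M,
    by positivity, by positivity, fun p hp hp1 N hN => ?_⟩
  have h0 : 0 ≤ (p : ℝ) := p.2.1
  have h1 : (p : ℝ) ≤ 1 := p.2.2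
  have hN0 : (0 : ℝ) < N := by exact_mod_cast hN
  have hN1 : (1 : ℝ) ≤ N := by exact_mod_cast hN
  obtain ⟨h, hh, hAU, hsc1, hsc2⟩ := hscale p hp h1
  have hthp := hth p hp
  have hblkp := hblk p hp.le hp1
  obtain ⟨t, ht⟩ : ∃ t : ℝ, t = (p : ℝ) - 1 / 2 := ⟨_, rfl⟩
  have ht0 : 0 < t := by rw [ht]; linarith
  have hh0 : (0 : ℝ) < h := by exact_mod_cast hh
  rw [← ht] at hsc1 hsc2 hthp hblkp ⊢
  have htp : 0 < t ^ (4 / 3 : ℝ) := by positivity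
  have htL : t ^ (-(4 / 3 : ℝ)) * t ^ (4 / 3 : ℝ) = 1 := by
    rw [← Real.rpow_add ht0]
    norm_num
  have hht : (h : ℝ) * t ^ (4 / 3 : ℝ) ≤ K := by
    have := mul_le_mul_of_nonneg_right hsc1 htp.le
    rw [mul_assoc, htL, mul_one] at this
    exact this
  have hε5 : ε ≤ ε ^ (5 / 91 : ℝ) := by
    calc ε = ε ^ (1 : ℝ) := (Real.rpow_one ε).symm
      _ ≤ ε ^ (5 / 91 : ℝ) := Real.rpow_le_rpow_of_exponent_ge hε0 hε1 (by norm_num)
  have hNε : ((N : ℝ) / ε) ^ (-(5 / 91 : ℝ)) = ε ^ (5 / 91 : ℝ) * (N : ℝ) ^ (-(5 / 91 : ℝ)) := by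
    rw [Real.div_rpow hN0.le hε0.le, Real.rpow_neg hε0.le, div_inv_eq_mul, mul_comm]
  have h2p : (2 : ℝ) ^ (-(5 / 48 : ℝ)) ≤ 1 := by
    apply Real.rpow_le_one_of_one_le_of_nonpos (by norm_num) (by norm_num)
  have h2p0 : 0 < (2 : ℝ) ^ (-(5 / 48 : ℝ)) := by positivity
  have hNp : 0 < (N : ℝ) ^ (-(5 / 91 : ℝ)) := by positivity
  -- it is enough to find the scales
  suffices hsuff : ∃ g R : ℕ, 1 ≤ g ∧ g ≤ R ∧ AU p A (4 * g) ∧
      a * (g : ℝ) ^ (-(5 / 48 : ℝ)) ≤ arm p (4 * R) ∧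
      (N : ℝ) ≤ ε * ((R : ℝ) ^ 2 * (g : ℝ) ^ (-(5 / 48 : ℝ))) ∧
      (R : ℝ) * t ^ (4 / 3 : ℝ) ≤ K + M * Real.sqrt ((N : ℝ) * t ^ (91 / 36 : ℝ)) ∧
      (2 : ℝ) ^ (-(5 / 48 : ℝ)) * ((N : ℝ) / ε) ^ (-(5 / 91 : ℝ)) ≤
        (g : ℝ) ^ (-(5 / 48 : ℝ)) by
    obtain ⟨g, R, hg, hgR, hAg, harm, hNR, hRt, hpre⟩ := hsuff
    have hR1 : 1 ≤ R := hg.trans hgR
    have i1 := hvol' p hp.le h1 g R hg hgR hAg harm
    have hT : (N : ℝ) ≤ ε' * ((R : ℝ) ^ 2 * (g : ℝ) ^ (-(5 / 48 : ℝ))) := by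
      refine hNR.trans ?_
      apply mul_le_mul_of_nonneg_right _ (by positivity)
      rw [hε]
      exact min_le_left _ _
    have i2 := fin_low p N R hR1 hT
    have i3 := hblkp R hR1 (boxE (15 * R)) (annE_sub _ _)
    have i4 : Real.exp (-(C4 * K)) * Real.exp (-(C4 * M *
        Real.sqrt ((N : ℝ) * t ^ (91 / 36 : ℝ)))) ≤
        Real.exp (-(C4 * (R * t ^ (4 / 3 : ℝ)))) := by
      rw [← Real.exp_add]
      apply Real.exp_le_exp.mpr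
      have := mul_le_mul_of_nonneg_left hRt hC4.le
      linarith
    have i5 : (2 : ℝ) ^ (-(5 / 48 : ℝ)) * ε * (N : ℝ) ^ (-(5 / 91 : ℝ)) ≤
        (g : ℝ) ^ (-(5 / 48 : ℝ)) := by
      refine le_trans ?_ hpre
      rw [hNε, mul_assoc]
      apply mul_le_mul_of_nonneg_left _ h2p0.le
      exact mul_le_mul_of_nonneg_right hε5 hNp.le
    refine le_trans ?_ i2
    calc c5 * c4 * Real.exp (-(C4 * K)) * ((2 : ℝ) ^ (-(5 / 48 : ℝ)) * ε) *
          (N : ℝ) ^ (-(5 / 91 : ℝ)) *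
          Real.exp (-(C4 * M * Real.sqrt ((N : ℝ) * t ^ (91 / 36 : ℝ))))
        = (c5 * ((2 : ℝ) ^ (-(5 / 48 : ℝ)) * ε * (N : ℝ) ^ (-(5 / 91 : ℝ)))) *
          (c4 * (Real.exp (-(C4 * K)) * Real.exp (-(C4 * M *
            Real.sqrt ((N : ℝ) * t ^ (91 / 36 : ℝ)))))) := by ring
      _ ≤ (c5 * (g : ℝ) ^ (-(5 / 48 : ℝ))) * (c4 * Real.exp (-(C4 * (R * t ^ (4 / 3 : ℝ))))) := by
          apply mul_le_mul _ _ (by positivity) (by positivity)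
          · exact mul_le_mul_of_nonneg_left i5 hc5.le
          · exact mul_le_mul_of_nonneg_left i4 hc4.le
      _ ≤ _ := by
          apply mul_le_mul i1 i3 (by positivity)
          exact (by positivity : (0:ℝ) ≤ c5 * (g : ℝ) ^ (-(5 / 48 : ℝ))).trans i1
  obtain ⟨y, hy⟩ : ∃ y : ℝ, y = (N : ℝ) / ε := ⟨_, rfl⟩
  have hy1 : 1 ≤ y := by
    rw [hy, le_div_iff₀ hε0]
    linarith
  have hy0 : 0 < y := by linarith
  have hNy : (N : ℝ) = ε * y := by rw [hy]; field_simp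
  rw [← hy]
  rcases le_or_gt y ((h : ℝ) ^ (91 / 48 : ℝ)) with hc | hc
  · -- below the correlation length
    obtain ⟨w, hw⟩ : ∃ w : ℝ, w = y ^ (48 / 91 : ℝ) := ⟨_, rfl⟩
    have hw1 : 1 ≤ w := by rw [hw]; exact Real.one_le_rpow hy1 (by norm_num)
    have hwy : w ^ (91 / 48 : ℝ) = y := by
      rw [hw, ← Real.rpow_mul hy0.le]
      norm_num
    obtain ⟨g, hg⟩ : ∃ g : ℕ, g = ⌈w⌉₊ := ⟨_, rfl⟩
    have hwg : w ≤ g := by rw [hg]; exact Nat.le_ceil _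
    have hg2 : (g : ℝ) ≤ 2 * w := by
      have := Nat.ceil_lt_add_one (a := w) (by linarith)
      rw [← hg] at this
      linarith
    have hg1 : 1 ≤ g := by
      have : (1 : ℝ) ≤ g := hw1.trans hwg
      exact_mod_cast this
    have hg0 : (0 : ℝ) < g := by exact_mod_cast hg1
    have hgh : g ≤ h := by
      rw [hg]
      apply Nat.ceil_le.mpr
      calc w = y ^ (48 / 91 : ℝ) := hw
        _ ≤ ((h : ℝ) ^ (91 / 48 : ℝ)) ^ (48 / 91 : ℝ) :=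
            Real.rpow_le_rpow hy0.le hc (by norm_num)
        _ = h := by
            rw [← Real.rpow_mul hh0.le]
            norm_num
    refine ⟨g, g, hg1, le_rfl, fun m hm hm4 => hAU m hm (by omega), ?_, ?_, ?_, ?_⟩
    · have i1 := (hcr (4 * g) (by omega)).1
      have i2 := arm_mono_param (p := 1 / 2) (q := p) (by norm_num) hp.le h1 (4 * g)
      refine le_trans ?_ (i1.trans i2)
      push_cast
      rw [Real.mul_rpow (by norm_num) hg0.le, ← mul_assoc]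
      apply mul_le_mul_of_nonneg_right _ (by positivity)
      rw [ha]
      exact min_le_right _ _
    · rw [hNy]
      apply mul_le_mul_of_nonneg_left _ hε0.le
      calc y = w ^ (91 / 48 : ℝ) := hwy.symm
        _ ≤ (g : ℝ) ^ (91 / 48 : ℝ) := Real.rpow_le_rpow (by linarith) hwg (by norm_num)
        _ = (g : ℝ) ^ 2 * (g : ℝ) ^ (-(5 / 48 : ℝ)) := by rw [pow_m hg0]; ring
    · have i1 : (g : ℝ) ≤ h := by exact_mod_cast hgh
      have i2 : (g : ℝ) * t ^ (4 / 3 : ℝ) ≤ h * t ^ (4 / 3 : ℝ) :=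
        mul_le_mul_of_nonneg_right i1 htp.le
      have i3 : 0 ≤ M * Real.sqrt ((N : ℝ) * t ^ (91 / 36 : ℝ)) := by positivity
      linarith
    · calc (2 : ℝ) ^ (-(5 / 48 : ℝ)) * y ^ (-(5 / 91 : ℝ)) = (2 * w) ^ (-(5 / 48 : ℝ)) := by
            rw [Real.mul_rpow (by norm_num) (by linarith), hw, ← Real.rpow_mul hy0.le]
            norm_num
        _ ≤ (g : ℝ) ^ (-(5 / 48 : ℝ)) :=
            Real.rpow_le_rpow_of_nonpos hg0 hg2 (by norm_num)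
  · -- beyond the correlation length
    obtain ⟨w, hw⟩ : ∃ w : ℝ, w = Real.sqrt (y * (h : ℝ) ^ (5 / 48 : ℝ)) := ⟨_, rfl⟩
    have hw2 : w ^ 2 = y * (h : ℝ) ^ (5 / 48 : ℝ) := by
      rw [hw]; exact Real.sq_sqrt (by positivity)
    have hwn : 0 ≤ w := by rw [hw]; exact Real.sqrt_nonneg _
    have hwh : (h : ℝ) ≤ w := by
      have e1 : (h : ℝ) ^ 2 ≤ w ^ 2 := by
        rw [hw2]
        calc (h : ℝ) ^ 2 = (h : ℝ) ^ (91 / 48 : ℝ) * (h : ℝ) ^ (5 / 48 : ℝ) := by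
              rw [← Real.rpow_add hh0]
              norm_num
          _ ≤ _ := mul_le_mul_of_nonneg_right hc.le (by positivity)
      exact le_of_sq_le_sq e1 hwn
    obtain ⟨R, hR⟩ : ∃ R : ℕ, R = ⌈w⌉₊ := ⟨_, rfl⟩
    have hwR : w ≤ R := by rw [hR]; exact Nat.le_ceil _
    have hh1 : (1 : ℝ) ≤ h := by exact_mod_cast hh
    have hR2 : (R : ℝ) ≤ 2 * w := by
      have := Nat.ceil_lt_add_one (a := w) (by linarith)
      rw [← hR] at this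
      linarith
    have hhR : h ≤ R := by
      have : (h : ℝ) ≤ R := hwh.trans hwR
      exact_mod_cast this
    refine ⟨h, R, hh, hhR, fun m hm hm4 => hAU m hm (by omega), ?_, ?_, ?_, ?_⟩
    · refine le_trans ?_ (hthp.trans (theta_le_arm p (4 * R)))
      have i1 : (h : ℝ) ^ (-(5 / 48 : ℝ)) ≤ K ^ (5 / 48 : ℝ) * t ^ (5 / 36 : ℝ) := by
        have e1 : t ^ (-(4 / 3 : ℝ)) / K ≤ h := by
          rw [div_le_iff₀ hK0]
          linarith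
        calc (h : ℝ) ^ (-(5 / 48 : ℝ)) ≤ (t ^ (-(4 / 3 : ℝ)) / K) ^ (-(5 / 48 : ℝ)) :=
              Real.rpow_le_rpow_of_nonpos (by positivity) e1 (by norm_num)
          _ = K ^ (5 / 48 : ℝ) * t ^ (5 / 36 : ℝ) := by
              rw [Real.div_rpow (by positivity) hK0.le, ← Real.rpow_mul ht0.le,
                Real.rpow_neg hK0.le, div_inv_eq_mul, mul_comm]
              norm_num
      have i2 : a ≤ c1 * K ^ (-(5 / 48 : ℝ)) := by rw [ha]; exact min_le_left _ _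
      calc a * (h : ℝ) ^ (-(5 / 48 : ℝ)) ≤
          (c1 * K ^ (-(5 / 48 : ℝ))) * (K ^ (5 / 48 : ℝ) * t ^ (5 / 36 : ℝ)) :=
            mul_le_mul i2 i1 (by positivity) (by positivity)
        _ = c1 * t ^ (5 / 36 : ℝ) := by
            rw [Real.rpow_neg hK0.le]
            have := Real.rpow_pos_of_pos hK0 (5 / 48)
            field_simp
    · rw [hNy]
      apply mul_le_mul_of_nonneg_left _ hε0.le
      have e1 : w ^ 2 ≤ (R : ℝ) ^ 2 := pow_le_pow_left₀ hwn hwR 2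
      calc y = (y * (h : ℝ) ^ (5 / 48 : ℝ)) * (h : ℝ) ^ (-(5 / 48 : ℝ)) := by
            rw [mul_assoc, ← Real.rpow_add hh0]
            norm_num
        _ = w ^ 2 * (h : ℝ) ^ (-(5 / 48 : ℝ)) := by rw [hw2]
        _ ≤ _ := mul_le_mul_of_nonneg_right e1 (by positivity)
    · have i1 : (R : ℝ) * t ^ (4 / 3 : ℝ) ≤ M * Real.sqrt ((N : ℝ) * t ^ (91 / 36 : ℝ)) := by
        rw [hM, ← Real.sqrt_mul (by positivity)]
        apply Real.le_sqrt_of_sq_le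
        have e1 : (R : ℝ) ^ 2 ≤ 4 * w ^ 2 := by
          have := pow_le_pow_left₀ (Nat.cast_nonneg R) hR2 2
          nlinarith
        have e2 : (h : ℝ) ^ (5 / 48 : ℝ) ≤ K ^ (5 / 48 : ℝ) * t ^ (-(5 / 36) : ℝ) := by
          calc (h : ℝ) ^ (5 / 48 : ℝ) ≤ (K * t ^ (-(4 / 3 : ℝ))) ^ (5 / 48 : ℝ) :=
                Real.rpow_le_rpow hh0.le hsc1 (by norm_num)
            _ = _ := by
                rw [Real.mul_rpow hK0.le (by positivity), ← Real.rpow_mul ht0.le]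
                norm_num
        have e3 : (t ^ (4 / 3 : ℝ)) ^ 2 * t ^ (-(5 / 36) : ℝ) = t ^ (91 / 36 : ℝ) := by
          rw [← Real.rpow_natCast, ← Real.rpow_mul ht0.le, ← Real.rpow_add ht0]
          norm_num
        calc ((R : ℝ) * t ^ (4 / 3 : ℝ)) ^ 2 = (R : ℝ) ^ 2 * (t ^ (4 / 3 : ℝ)) ^ 2 := by ring
          _ ≤ (4 * w ^ 2) * (t ^ (4 / 3 : ℝ)) ^ 2 :=
              mul_le_mul_of_nonneg_right e1 (by positivity)
          _ = 4 * y * (h : ℝ) ^ (5 / 48 : ℝ) * (t ^ (4 / 3 : ℝ)) ^ 2 := by rw [hw2]; ring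
          _ ≤ 4 * y * (K ^ (5 / 48 : ℝ) * t ^ (-(5 / 36) : ℝ)) * (t ^ (4 / 3 : ℝ)) ^ 2 := by
              apply mul_le_mul_of_nonneg_right _ (by positivity)
              exact mul_le_mul_of_nonneg_left e2 (by positivity)
          _ = 4 * K ^ (5 / 48 : ℝ) * y * ((t ^ (4 / 3 : ℝ)) ^ 2 * t ^ (-(5 / 36) : ℝ)) := by ring
          _ = 4 * K ^ (5 / 48 : ℝ) / ε * ((N : ℝ) * t ^ (91 / 36 : ℝ)) := by
              rw [e3, hNy]
              field_simp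
      linarith
    · have i1 : y ^ (-(5 / 91 : ℝ)) ≤ ((h : ℝ) ^ (91 / 48 : ℝ)) ^ (-(5 / 91 : ℝ)) :=
        Real.rpow_le_rpow_of_nonpos (by positivity) hc.le (by norm_num)
      have i2 : ((h : ℝ) ^ (91 / 48 : ℝ)) ^ (-(5 / 91 : ℝ)) = (h : ℝ) ^ (-(5 / 48 : ℝ)) := by
        rw [← Real.rpow_mul hh0.le]
        norm_num
      rw [i2] at i1
      have i3 : 0 < y ^ (-(5 / 91 : ℝ)) := by positivity
      nlinarith

end Pool.Agent.D0H95.CS
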