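import Pool.Agent.D0H95.CS.SupLow

/-!
The size of the finite cluster of the origin above the critical point: both bounds together.
-/

set_option autoImplicit false
set_option maxHeartbeats 400000
set_option linter.unusedVariables false

namespace Pool.Agent.D0H95.CS
open Finset H974 MeasureTheory Filter Pool.Agent.H160R2.CV Pool.Agent.H160R2.CV.InfAux

theorem sup_main : ∃ c C : ℝ, 0 < c ∧ 0 < C ∧ ∀ p : unitInterval, 1 / 2 < (p : ℝ) →
    ∀ N : ℕ, 1 ≤ N →
    ((p : ℝ) ≤ 3 / 4 → c * (N : ℝ) ^ (-(5 / 91 : ℝ)) *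
      Real.exp (-(C * Real.sqrt ((N : ℝ) * ((p : ℝ) - 1 / 2) ^ (91 / 36 : ℝ)))) ≤
        (bondLaw p).real {ω | (N : ℕ∞) ≤ (cluster0 ω).encard ∧ (cluster0 ω).Finite}) ∧
    (bondLaw p).real {ω | (N : ℕ∞) ≤ (cluster0 ω).encard ∧ (cluster0 ω).Finite} ≤
      C * (N : ℝ) ^ (-(5 / 91 : ℝ)) *
        Real.exp (-(c * Real.sqrt ((N : ℝ) * ((p : ℝ) - 1 / 2) ^ (91 / 36 : ℝ)))) := by
  obtain ⟨c1, C1, hc1, hC1, h1⟩ := sup_up
  obtain ⟨c2, C2, hc2, hC2, h2⟩ := sup_low
  refine ⟨min c1 c2, max C1 C2, lt_min hc1 hc2, lt_max_of_lt_left hC1, fun p hp N hN => ?_⟩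
  have hy : 0 ≤ Real.sqrt ((N : ℝ) * ((p : ℝ) - 1 / 2) ^ (91 / 36 : ℝ)) := Real.sqrt_nonneg _
  constructor
  · intro hp1
    refine le_trans ?_ (h2 p hp hp1 N hN)
    apply mul_le_mul _ _ (by positivity) (by positivity)
    · exact mul_le_mul_of_nonneg_right (min_le_right _ _) (by positivity)
    · apply Real.exp_le_exp.mpr
      have := mul_le_mul_of_nonneg_right (le_max_right C1 C2) hy
      linarith
  · refine (h1 p hp N hN).trans ?_
    apply mul_le_mul _ _ (by positivity) (by positivity)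
    · exact mul_le_mul_of_nonneg_right (le_max_left _ _) (by positivity)
    · apply Real.exp_le_exp.mpr
      have := mul_le_mul_of_nonneg_right (min_le_left c1 c2) hy
      linarith

end Pool.Agent.D0H95.CS
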