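import Pool.Agent.D0H95.CS.Rad
import Pool.Agent.Y244.PC.ManyUp

/-!
Upper bound for the size of the finite cluster of the origin above the critical point.
-/

set_option autoImplicit false
set_option maxHeartbeats 400000
set_option linter.unusedVariables false

namespace Pool.Agent.D0H95.CS
open Finset H974 MeasureTheory Filter Pool.Agent.H160R2.CV Pool.Agent.H160R2.CV.Quad
open Pool.Agent.Y244.PC Pool.Agent.W424.NC

/-- the scale of the correlation length above the critical point -/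
theorem sup_scale : ∃ A K : ℝ, 1 ≤ A ∧ 1 ≤ K ∧ ∀ p : ℝ, 1 / 2 < p → p ≤ 1 → ∃ h : ℕ, 1 ≤ h ∧
    AU p A (8 * h) ∧ (h : ℝ) ≤ K * (p - 1 / 2) ^ (-(4 / 3 : ℝ)) ∧
      (p - 1 / 2) ^ (-(4 / 3 : ℝ)) ≤ K * h := by
  obtain ⟨κ, b, hκ, hb, hS⟩ := armS
  obtain ⟨c, C, hc, hC, hcr⟩ := Pool.Agent.W424.NC.arm_crit
  obtain ⟨β, hβ⟩ : ∃ β : ℝ, β = b ^ (4 / 3 : ℝ) := ⟨_, rfl⟩
  have hβ0 : 0 < β := by rw [hβ]; positivity
  obtain ⟨K, hK⟩ : ∃ K : ℝ, K = 1 + β + 32 / β := ⟨_, rfl⟩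
  have hK1 : 1 ≤ K := by
    rw [hK]
    have : 0 < 32 / β := by positivity
    linarith
  refine ⟨3 * C + 2, K, by linarith, hK1, fun p hp hp1 => ?_⟩
  obtain ⟨t, ht⟩ : ∃ t : ℝ, t = p - 1 / 2 := ⟨_, rfl⟩
  have ht0 : 0 < t := by rw [ht]; linarith
  have ht1 : t ≤ 1 := by rw [ht]; linarith
  rw [← ht]
  obtain ⟨L, hL⟩ : ∃ L : ℝ, L = t ^ (-(4 / 3 : ℝ)) := ⟨_, rfl⟩
  have hL1 : 1 ≤ L := by
    rw [hL]
    exact Real.one_le_rpow_of_pos_of_le_one_of_nonpos ht0 ht1 (by norm_num)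
  rw [← hL]
  have hbt : (b / t) ^ (4 / 3 : ℝ) = β * L := by
    rw [Real.div_rpow hb.le ht0.le, hβ, hL, Real.rpow_neg ht0.le, div_eq_mul_inv]
  obtain ⟨n, hn⟩ : ∃ n : ℕ, n = ⌊β * L⌋₊ := ⟨_, rfl⟩
  have hn1 : (n : ℝ) ≤ β * L := by rw [hn]; exact Nat.floor_le (by positivity)
  have hn2 : β * L < n + 1 := by rw [hn]; exact Nat.lt_floor_add_one _
  rcases Nat.lt_or_ge n 8 with hlt | hge
  · refine ⟨1, le_rfl, ?_, ?_, ?_⟩
    · intro m hm hm8
      have hm0 : (0 : ℝ) < m := by exact_mod_cast hm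
      have h1 := arm_le_one (q := p) (by linarith) hp1 m
      have h2 : (8 : ℝ) ^ (-(5 / 48 : ℝ)) ≤ (m : ℝ) ^ (-(5 / 48 : ℝ)) := by
        apply Real.rpow_le_rpow_of_nonpos hm0 _ (by norm_num)
        exact_mod_cast hm8
      have h3 : (1 / 2 : ℝ) ≤ (8 : ℝ) ^ (-(5 / 48 : ℝ)) := by
        have e3 : (8 : ℝ) ^ (-(5 / 48 : ℝ)) = (2 : ℝ) ^ (-(5 / 16) : ℝ) := by
          rw [show (8 : ℝ) = (2 : ℝ) ^ (3 : ℝ) by norm_num, ← Real.rpow_mul (by norm_num)]
          norm_num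
        rw [e3]
        calc (1 / 2 : ℝ) = (2 : ℝ) ^ (-1 : ℝ) := by rw [Real.rpow_neg_one]; norm_num
          _ ≤ _ := Real.rpow_le_rpow_of_exponent_le (by norm_num) (by norm_num)
      nlinarith
    · push_cast
      nlinarith
    · have h3 : β * L < 8 := by
        have : (n : ℝ) + 1 ≤ 8 := by exact_mod_cast hlt
        linarith
      have h4 : L ≤ 32 / β := by
        rw [le_div_iff₀ hβ0]
        linarith
      push_cast
      rw [hK]
      linarith
  · obtain ⟨h, hh⟩ : ∃ h : ℕ, h = n / 8 := ⟨_, rfl⟩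
    have hh1 : 1 ≤ h := by omega
    have hh8 : 8 * h ≤ n := by omega
    have hh16 : n ≤ 16 * h := by omega
    refine ⟨h, hh1, ?_, ?_, ?_⟩
    · intro m hm hm8
      have hm0 : (0 : ℝ) < m := by exact_mod_cast hm
      have hmL : (m : ℝ) ≤ (b / t) ^ (4 / 3 : ℝ) := by
        rw [hbt]
        have : (m : ℝ) ≤ n := by exact_mod_cast hm8.trans hh8
        linarith
      have hw : |p - 1 / 2| ≤ b * (m : ℝ) ^ (-(3 / 4 : ℝ)) := by
        rw [← ht, abs_of_pos ht0, Real.rpow_neg hm0.le, ← div_eq_mul_inv,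
          le_div_iff₀ (by positivity)]
        have h2 : (m : ℝ) ^ (3 / 4 : ℝ) ≤ b / t := by
          calc (m : ℝ) ^ (3 / 4 : ℝ) ≤ ((b / t) ^ (4 / 3 : ℝ)) ^ (3 / 4 : ℝ) :=
                Real.rpow_le_rpow hm0.le hmL (by norm_num)
            _ = b / t := by
                rw [← Real.rpow_mul (by positivity)]
                norm_num
        rw [le_div_iff₀ ht0] at h2
        linarith
      obtain ⟨-, h3, -⟩ := hS m hm p hw
      have h4 := (hcr m hm).2
      have h5 : 0 < (m : ℝ) ^ (-(5 / 48 : ℝ)) := by positivity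
      calc arm p m ≤ 3 * arm (1 / 2) m := h3
        _ ≤ 3 * (C * (m : ℝ) ^ (-(5 / 48) : ℝ)) := by linarith
        _ ≤ (3 * C + 2) * (m : ℝ) ^ (-(5 / 48 : ℝ)) := by nlinarith
    · have h2 : (h : ℝ) ≤ n := by exact_mod_cast (by omega : h ≤ n)
      have h3 : 0 < 32 / β := by positivity
      calc (h : ℝ) ≤ β * L := h2.trans hn1
        _ ≤ K * L := by
            apply mul_le_mul_of_nonneg_right _ (by linarith)
            rw [hK]; linarith
    · have h2 : (n : ℝ) ≤ 16 * h := by exact_mod_cast hh16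
      have h3 : (1 : ℝ) ≤ h := by exact_mod_cast hh1
      have h4 : β * L ≤ 32 * h := by linarith
      have h5 : L ≤ 32 / β * h := by
        rw [div_mul_eq_mul_div, le_div_iff₀ hβ0]
        linarith
      calc L ≤ 32 / β * h := h5
        _ ≤ K * h := by
            apply mul_le_mul_of_nonneg_right _ (by linarith)
            rw [hK]; linarith

theorem far_leq {p : ℝ} (h0 : 0 ≤ p) (h1 : p ≤ 1) (S : Finset Edg) (v : Vtx) (r : ℕ) :
    Pr (fun _ => p) S (Far v r) ≤ arm p r :=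
  (Pr_mono (okq h0 h1) (fun F _ hF => LA_of_far le_rfl hF)).trans (pr_LAq h0 h1 S v r)

theorem vol_loc_le {p : ℝ} (h0 : 0 ≤ p) (h1 : p ≤ 1) (N : ℝ) (S : Finset Edg) (R : ℕ) :
    Pr (fun _ => p) S (fun F => Vol N (↑F ∩ ↑(boxE R))) ≤
      Pr (fun _ => p) (boxE R) (fun F => Vol N ↑F) := by
  have ok := okq h0 h1
  have i1 : Pr (fun _ => p) S (fun F => Vol N (↑F ∩ ↑(boxE R))) ≤
      Pr (fun _ => p) (S ∪ boxE R) (fun F => Vol N (↑F ∩ ↑(boxE R))) := by
    apply Pr_mono_set ok Finset.subset_union_left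
    intro F G hFG _ hF
    exact InfAux.vol_mono (Set.inter_subset_inter_left _ (by exact_mod_cast hFG)) hF
  have i2 : Pr (fun _ => p) (S ∪ boxE R) (fun F => Vol N (↑F ∩ ↑(boxE R))) =
      Pr (fun _ => p) (boxE R) (fun F => Vol N (↑F ∩ ↑(boxE R))) := by
    apply Pr_local Finset.subset_union_right
    intro F _
    rw [coe_inter_eq (Finset.Subset.refl _)]
  have i3 : Pr (fun _ => p) (boxE R) (fun F => Vol N (↑F ∩ ↑(boxE R))) =
      Pr (fun _ => p) (boxE R) (fun F => Vol N ↑F) := by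
    apply Pr_congr
    intro F hF
    have e : (↑F ∩ ↑(boxE R) : Set Edg) = ↑F := Set.inter_eq_left.mpr (by exact_mod_cast hF)
    rw [e]
  rw [i2, i3] at i1
  exact i1

/-- large clusters: large radius or large volume in a box -/
theorem vol_split {p : ℝ} (h0 : 0 ≤ p) (h1 : p ≤ 1) (N : ℝ) (S : Finset Edg) (R : ℕ) :
    Pr (fun _ => p) S (fun F => Vol N ↑F) ≤
      arm p R + Pr (fun _ => p) (boxE R) (fun F => Vol N ↑F) := by
  have ok := okq h0 h1
  have i1 : Pr (fun _ => p) S (fun F => Vol N ↑F) ≤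
      Pr (fun _ => p) S (fun F => Far (0, 0) R F ∨ Vol N (↑F ∩ ↑(boxE R))) := by
    apply Pr_mono ok
    rintro F _ ⟨T, k1, k2⟩
    by_cases hF : Far (0, 0) R F
    · exact Or.inl hF
    · right
      refine ⟨T, k1, fun u hu => ?_⟩
      have e : boxE R = bo (0, 0) R := by
        unfold boxE bo
        simp
      rw [e]
      apply reach_bo _ (k2 u hu)
      intro w hw
      by_contra hc
      exact hF ⟨w, by omega, hw⟩
  refine i1.trans ((Pr_or_le ok _ _ _).trans ?_)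
  exact add_le_add (far_leq h0 h1 S (0, 0) R) (vol_loc_le h0 h1 N S R)

/-- small sizes -/
theorem sup_small {A : ℝ} (hA1 : 1 ≤ A) : ∃ C : ℝ, 0 < C ∧ ∀ p : ℝ, 0 ≤ p → p ≤ 1 →
    ∀ h : ℕ, 1 ≤ h → AU p A (8 * h) → ∀ N : ℕ, 1 ≤ N →
    kz A * (h : ℝ) ^ (-(91 / 48 : ℝ)) * N ≤ 2 → ∀ S : Finset Edg,
      Pr (fun _ => p) S (fun F => Vol N ↑F) ≤ C * (N : ℝ) ^ (-(5 / 91 : ℝ)) := by
  have hk := kz_pos hA1
  refine ⟨(2 / kz A) ^ (5 / 91 : ℝ) * (1 + 18 * A), by positivity,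
    fun p h0 h1 h hh hAU N hN hx S => ?_⟩
  have ok := okq h0 h1
  have hN0 : (0 : ℝ) < N := by exact_mod_cast hN
  have hh0 : (0 : ℝ) < h := by exact_mod_cast hh
  obtain ⟨w, hw⟩ : ∃ w : ℝ, w = kz A * N / 2 := ⟨_, rfl⟩
  have hw0 : 0 < w := by rw [hw]; positivity
  have ew : w ^ (-(5 / 91 : ℝ)) = (2 / kz A) ^ (5 / 91 : ℝ) * (N : ℝ) ^ (-(5 / 91 : ℝ)) := by
    have : w = (2 / kz A)⁻¹ * N := by rw [hw]; field_simp
    rw [this, Real.mul_rpow (by positivity) hN0.le, Real.inv_rpow (by positivity),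
      Real.rpow_neg (by positivity), inv_inv]
  rcases lt_or_ge w 1 with hw1 | hw1
  · have e1 : 1 ≤ w ^ (-(5 / 91 : ℝ)) :=
      Real.one_le_rpow_of_pos_of_le_one_of_nonpos hw0 hw1.le (by norm_num)
    rw [ew] at e1
    have e2 := Pr_le_one ok S (fun F => Vol N ↑F)
    have e3 : 0 ≤ (2 / kz A) ^ (5 / 91 : ℝ) * (N : ℝ) ^ (-(5 / 91 : ℝ)) := by positivity
    nlinarith
  · obtain ⟨u, hu⟩ : ∃ u : ℝ, u = w ^ (48 / 91 : ℝ) := ⟨_, rfl⟩
    have hu1 : 1 ≤ u := by rw [hu]; exact Real.one_le_rpow hw1 (by norm_num)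
    have huw : u ^ (91 / 48 : ℝ) = w := by
      rw [hu, ← Real.rpow_mul hw0.le]
      norm_num
    obtain ⟨g, hg⟩ : ∃ g : ℕ, g = ⌊u⌋₊ := ⟨_, rfl⟩
    have hg1 : 1 ≤ g := by rw [hg]; exact Nat.le_floor (by exact_mod_cast hu1)
    have hg0 : (0 : ℝ) < g := by exact_mod_cast hg1
    have hgu : (g : ℝ) ≤ u := by rw [hg]; exact Nat.floor_le (by linarith)
    have hug : u ≤ 2 * g := by
      have h3 : u < g + 1 := by rw [hg]; exact Nat.lt_floor_add_one u
      have h4 : (1 : ℝ) ≤ g := by exact_mod_cast hg1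
      linarith
    have hgh : g ≤ h := by
      have h3 : w ≤ (h : ℝ) ^ (91 / 48 : ℝ) := by
        rw [Real.rpow_neg hh0.le] at hx
        have h5 : 0 < (h : ℝ) ^ (91 / 48 : ℝ) := by positivity
        have h6 : kz A * N ≤ 2 * (h : ℝ) ^ (91 / 48 : ℝ) := by
          have h7 : kz A * ((h : ℝ) ^ (91 / 48 : ℝ))⁻¹ * N * (h : ℝ) ^ (91 / 48 : ℝ) ≤
              2 * (h : ℝ) ^ (91 / 48 : ℝ) := mul_le_mul_of_nonneg_right hx h5.le
          have h8 : kz A * ((h : ℝ) ^ (91 / 48 : ℝ))⁻¹ * N * (h : ℝ) ^ (91 / 48 : ℝ) =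
              kz A * N := by field_simp
          rwa [h8] at h7
        rw [hw]
        linarith
      have h4 : u ≤ h := by
        calc u = w ^ (48 / 91 : ℝ) := hu
          _ ≤ ((h : ℝ) ^ (91 / 48 : ℝ)) ^ (48 / 91 : ℝ) :=
              Real.rpow_le_rpow hw0.le h3 (by norm_num)
          _ = h := by
              rw [← Real.rpow_mul hh0.le]
              norm_num
      have h5 : (g : ℝ) ≤ h := hgu.trans h4
      exact_mod_cast h5
    have hz2 : 2 ≤ kz A * (g : ℝ) ^ (-(91 / 48 : ℝ)) * N := by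
      have h3 : (g : ℝ) ^ (91 / 48 : ℝ) ≤ w := by
        rw [← huw]
        exact Real.rpow_le_rpow hg0.le hgu (by norm_num)
      rw [Real.rpow_neg hg0.le]
      have h5 : 0 < (g : ℝ) ^ (91 / 48 : ℝ) := by positivity
      have h6 : kz A * ((g : ℝ) ^ (91 / 48 : ℝ))⁻¹ * N = kz A * N / (g : ℝ) ^ (91 / 48 : ℝ) := by
        field_simp
      rw [h6, le_div_iff₀ h5]
      rw [hw] at h3
      linarith
    have hAU4 : AU p A (4 * g) := fun m hm hm4 => hAU m hm (by omega)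
    have i1 : Pr (fun _ => p) S (fun F => Vol N ↑F) ≤
        Pr (fun _ => p) S (fun F => Far (0, 0) (8 * g) F ∨ ∃ T : Finset Vtx, T ⊆ bx (8 * g) ∧
          (N : ℝ) ≤ (T.card : ℝ) ∧ ∀ u ∈ T, Reach (↑F) (0, 0) u) := by
      apply Pr_mono ok
      rintro F _ ⟨T, k1, k2⟩
      by_cases hF : Far (0, 0) (8 * g) F
      · exact Or.inl hF
      · right
        refine ⟨T, ?_, k1, k2⟩
        intro x hx'
        rw [VolAux.mem_bx]
        by_contra hc
        apply hF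
        refine ⟨x, ?_, k2 x hx'⟩
        have e2 : x - (0, 0) = x := by refine Prod.ext ?_ ?_ <;> simp
        rw [e2]
        omega
    have i2 := vol_small h0 h1 hA1 hg1 hAU4 (z := kz A * (g : ℝ) ^ (-(91 / 48 : ℝ)))
      (by positivity) (kz_D4 hA1 hg1) (N := N) hz2 S
    have i3 := far_leq h0 h1 S (0, 0) (8 * g)
    have i4 := hAU (8 * g) (by omega) (by omega)
    have i5 : ((8 * g : ℕ) : ℝ) ^ (-(5 / 48 : ℝ)) ≤ (g : ℝ) ^ (-(5 / 48 : ℝ)) := by
      apply Real.rpow_le_rpow_of_nonpos hg0 _ (by norm_num)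
      push_cast
      linarith
    have i6 : Real.exp (-(kz A * (g : ℝ) ^ (-(91 / 48 : ℝ)) * N)) ≤ 1 :=
      Real.exp_le_one_iff.mpr (by linarith)
    have i7 : (g : ℝ) ^ (-(5 / 48 : ℝ)) ≤ 2 * w ^ (-(5 / 91 : ℝ)) := by
      calc (g : ℝ) ^ (-(5 / 48 : ℝ)) ≤ (u / 2) ^ (-(5 / 48 : ℝ)) :=
            Real.rpow_le_rpow_of_nonpos (by positivity) (by linarith) (by norm_num)
        _ = (2 : ℝ) ^ (5 / 48 : ℝ) * u ^ (-(5 / 48 : ℝ)) := by
            rw [Real.div_rpow (by linarith) (by norm_num), Real.rpow_neg (by norm_num : (0:ℝ) ≤ 2),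
              div_inv_eq_mul, mul_comm]
        _ ≤ 2 * u ^ (-(5 / 48 : ℝ)) := by
            apply mul_le_mul_of_nonneg_right _ (by positivity)
            calc (2 : ℝ) ^ (5 / 48 : ℝ) ≤ (2 : ℝ) ^ (1 : ℝ) :=
                  Real.rpow_le_rpow_of_exponent_le (by norm_num) (by norm_num)
              _ = 2 := Real.rpow_one 2
        _ = 2 * w ^ (-(5 / 91 : ℝ)) := by
            rw [hu, ← Real.rpow_mul hw0.le]
            norm_num
    have hgp : 0 < (g : ℝ) ^ (-(5 / 48 : ℝ)) := by positivity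
    calc Pr (fun _ => p) S (fun F => Vol N ↑F)
        ≤ A * (g : ℝ) ^ (-(5 / 48 : ℝ)) + 8 * A * (g : ℝ) ^ (-(5 / 48 : ℝ)) * 1 := by
          refine i1.trans ((Pr_or_le ok _ _ _).trans (add_le_add ?_ ?_))
          · refine i3.trans (i4.trans ?_)
            exact mul_le_mul_of_nonneg_left i5 (by linarith)
          · exact i2.trans (mul_le_mul_of_nonneg_left i6 (by positivity))
      _ = 9 * A * (g : ℝ) ^ (-(5 / 48 : ℝ)) := by ring
      _ ≤ 9 * A * (2 * w ^ (-(5 / 91 : ℝ))) := mul_le_mul_of_nonneg_left i7 (by positivity)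
      _ = (2 / kz A) ^ (5 / 91 : ℝ) * (18 * A) * (N : ℝ) ^ (-(5 / 91 : ℝ)) := by
          rw [ew]; ring
      _ ≤ _ := by
          apply mul_le_mul_of_nonneg_right _ (by positivity)
          apply mul_le_mul_of_nonneg_left _ (by positivity)
          linarith

/-- the number of blocks -/
theorem card_idx {h n : ℕ} (hh : 1 ≤ h) {y : ℝ} (hy : 0 ≤ y) (hn : (n : ℝ) ≤ (2 + y) * h) :
    (((bx n).image (idx h)).card : ℝ) ≤ (4 + y) ^ 2 := by
  classical
  obtain ⟨q, hq⟩ : ∃ q : ℕ, q = (n + h) / (2 * h) := ⟨_, rfl⟩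
  have hsub : (bx n).image (idx h) ⊆ Finset.Icc (-(q : ℤ)) q ×ˢ Finset.Icc (-(q : ℤ)) q := by
    intro j hj
    rw [Finset.mem_image] at hj
    obtain ⟨x, hx, rfl⟩ := hj
    rw [VolAux.mem_bx] at hx
    have hx1 : x.1.natAbs ≤ n := (le_max_left _ _).trans hx
    have hx2 : x.2.natAbs ≤ n := (le_max_right _ _).trans hx
    have key : ∀ a : ℤ, a.natAbs ≤ n → -(q : ℤ) ≤ (a + h) / (2 * h) ∧
        (a + h) / (2 * h) ≤ q := by
      intro a ha
      have hpos : (0 : ℤ) < 2 * h := by omega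
      have hqn : (n : ℤ) + h < 2 * h * (q + 1) := by
        have k1 := Nat.div_add_mod (n + h) (2 * h)
        have k2 := Nat.mod_lt (n + h) (show 0 < 2 * h by omega)
        rw [← hq] at k1
        have k3 : n + h < 2 * h * (q + 1) := by
          calc n + h = 2 * h * q + (n + h) % (2 * h) := k1.symm
            _ < 2 * h * q + 2 * h := by omega
            _ = 2 * h * (q + 1) := by ring
        exact_mod_cast k3
      have ha1 : -(n : ℤ) ≤ a := by omega
      have ha2 : a ≤ (n : ℤ) := by omega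
      have e2 : 2 * (h : ℤ) * (q + 1) = 2 * h * q + 2 * h := by ring
      rw [e2] at hqn
      constructor
      · rw [Int.le_ediv_iff_mul_le hpos]
        have e3 : -(q : ℤ) * (2 * h) = -(2 * h * q) := by ring
        rw [e3]
        linarith
      · have : (a + h) / (2 * h) < q + 1 := by
          rw [Int.ediv_lt_iff_lt_mul hpos]
          have e3 : ((q : ℤ) + 1) * (2 * h) = 2 * h * q + 2 * h := by ring
          rw [e3]
          linarith
        omega
    rw [Finset.mem_product, Finset.mem_Icc, Finset.mem_Icc]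
    exact ⟨key x.1 hx1, key x.2 hx2⟩
  have h1 := Finset.card_le_card hsub
  rw [Finset.card_product, Int.card_Icc] at h1
  have e1 : ((q : ℤ) + 1 - -(q : ℤ)).toNat = 2 * q + 1 := by omega
  rw [e1] at h1
  have h2 : (((bx n).image (idx h)).card : ℝ) ≤ (2 * q + 1) * (2 * q + 1) := by exact_mod_cast h1
  have hh0 : (0 : ℝ) < h := by exact_mod_cast hh
  have h3 : (2 * (q : ℝ) + 1) ≤ 4 + y := by
    have k1 : 2 * h * q ≤ n + h := by rw [hq]; exact Nat.mul_div_le _ _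
    have k2 : 2 * (h : ℝ) * q ≤ n + h := by exact_mod_cast k1
    have k3 : (2 * (q : ℝ)) * h ≤ (3 + y) * h := by nlinarith
    have k4 := le_of_mul_le_mul_right k3 hh0
    linarith
  nlinarith

/-- large sizes in a box of radius `h √x / 20` -/
theorem sup_box {A : ℝ} (hA1 : 1 ≤ A) {p : ℝ} (h0 : 0 ≤ p) (h1 : p ≤ 1) {h : ℕ} (hh : 1 ≤ h)
    (hAU : AU p A (8 * h)) {N : ℝ} {x : ℝ}
    (hx : x = kz A * (h : ℝ) ^ (-(91 / 48 : ℝ)) * N) (hx2 : 2 ≤ x) {R : ℕ}
    (hR : (R : ℝ) ≤ (1 + Real.sqrt x / 20) * h) :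
    Pr (fun _ => p) (boxE R) (fun F => Vol N ↑F) ≤
      (800 * A * (6 * Real.exp 16 + 1)) * ((h : ℝ) ^ (-(5 / 48 : ℝ)) * Real.exp (-(x / 144))) := by
  classical
  have ok := okq h0 h1
  have hh0 : (0 : ℝ) < h := by exact_mod_cast hh
  have hk := kz_pos hA1
  have hD := D4_pos hh
  have hs0 := Real.sqrt_nonneg x
  have hss : Real.sqrt x ^ 2 = x := Real.sq_sqrt (by linarith)
  obtain ⟨z, hz⟩ : ∃ z : ℝ, z = kz A * (h : ℝ) ^ (-(91 / 48 : ℝ)) := ⟨_, rfl⟩
  have hz0 : 0 < z := by rw [hz]; positivity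
  have hzD : z * (20 * A * D4 h) ≤ 1 / 2 := by rw [hz]; exact kz_D4 hA1 hh
  have hzD2 : z * (2 * A * D4 h) ≤ 1 / 2 := by
    refine le_trans ?_ hzD
    apply mul_le_mul_of_nonneg_left _ hz0.le
    nlinarith
  rw [← hz] at hx
  have hAU4 : AU p A (4 * h) := fun m hm hm4 => hAU m hm (by omega)
  obtain ⟨J, hJ⟩ : ∃ J : Finset (ℤ × ℤ), J = (bx (R + h)).image (idx h) := ⟨_, rfl⟩
  have hJc : (J.card : ℝ) ≤ 32 + x / 200 := by
    have k1 := card_idx (h := h) (n := R + h) hh (y := Real.sqrt x / 20) (by positivity) (by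
      push_cast
      linarith)
    rw [← hJ] at k1
    nlinarith [sq_nonneg (Real.sqrt x / 20 - 4)]
  have i1 : Pr (fun _ => p) (boxE (R + h + 6 * h))
      (fun F => ∃ v ∈ blk h (0, 0), EV h (R + h) N v F) ≤
      Pr (fun _ => p) (boxE (R + h + 6 * h)) (fun F => N ≤ ∑ j ∈ J, YY h j F) := by
    apply Pr_mono ok
    rintro F _ ⟨v, hv, hF⟩
    obtain ⟨A', hA', -, hs⟩ := EV_anim hh (by omega) hv hF
    have hsub := (mem_Fam.mp hA').1
    rw [← hJ] at hsub
    exact hs.trans (Finset.sum_le_sum_of_subset_of_nonneg hsub (fun j _ _ => YY_nonneg h j F))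
  have i2 := all_sum h0 h1 hA1 hh hAU4 hz0.le hzD2 (U := boxE (R + h + 6 * h)) J
    (fun j hj => ngb_box hh (by rw [← hJ]; exact hj)) N
  have i3 : (36 : ℝ) * (2 ^ J.card * Real.exp (-(z * (N / 36)))) ≤
      (6 * Real.exp 16 * Real.exp (-(x / 144))) ^ 2 := by
    have e1 : (2 : ℝ) ^ J.card ≤ Real.exp (32 + x / 200) := by
      calc (2 : ℝ) ^ J.card ≤ (Real.exp 1) ^ J.card := by
            apply pow_le_pow_left₀ (by norm_num)
            have := Real.add_one_le_exp (1 : ℝ)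
            linarith
        _ = Real.exp J.card := by rw [← Real.exp_nat_mul, mul_one]
        _ ≤ _ := Real.exp_le_exp.mpr hJc
    have e2 : (6 * Real.exp 16 * Real.exp (-(x / 144))) ^ 2 =
        36 * Real.exp (32 + -(x / 72)) := by
      rw [mul_pow, mul_pow, ← Real.exp_nat_mul, ← Real.exp_nat_mul, Real.exp_add]
      have e3 : ((2 : ℕ) : ℝ) * 16 = 32 := by norm_num
      have e4 : ((2 : ℕ) : ℝ) * -(x / 144) = -(x / 72) := by push_cast; ring
      rw [e3, e4]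
      ring
    rw [e2]
    apply mul_le_mul_of_nonneg_left _ (by norm_num)
    calc (2 : ℝ) ^ J.card * Real.exp (-(z * (N / 36))) ≤
        Real.exp (32 + x / 200) * Real.exp (-(z * (N / 36))) :=
          mul_le_mul_of_nonneg_right e1 (Real.exp_pos _).le
      _ = Real.exp (32 + x / 200 + -(z * (N / 36))) := by rw [← Real.exp_add]
      _ ≤ _ := by
          apply Real.exp_le_exp.mpr
          have : z * (N / 36) = x / 36 := by rw [hx]; ring
          rw [this]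
          linarith
  have i4 := vol_box (p := p) (A := A) (z := z) (g := 6 * Real.exp 16 * Real.exp (-(x / 144)))
    h0 h1 hA1 hh hAU4 hz0 hzD (N := N) (by rw [← hx]; exact hx2) (R := R) (n := R + h) le_rfl
    (U := boxE (R + h + 6 * h)) (boxE_mono (by omega)) (by positivity)
    (i1.trans (i2.trans i3))
  refine i4.trans ?_
  have e1 : Real.exp (-(z * N)) ≤ Real.exp (-(x / 144)) := by
    apply Real.exp_le_exp.mpr
    rw [← hx]
    linarith
  have hp : 0 ≤ 800 * A * (h : ℝ) ^ (-(5 / 48 : ℝ)) := by positivity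
  calc 800 * A * (h : ℝ) ^ (-(5 / 48 : ℝ)) *
        (6 * Real.exp 16 * Real.exp (-(x / 144)) + Real.exp (-(z * N)))
      ≤ 800 * A * (h : ℝ) ^ (-(5 / 48 : ℝ)) *
        (6 * Real.exp 16 * Real.exp (-(x / 144)) + Real.exp (-(x / 144))) := by
        apply mul_le_mul_of_nonneg_left _ hp
        linarith
    _ = _ := by ring

end Pool.Agent.D0H95.CS
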