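import Pool.Agent.D0H95.CS.SupUp

/-!
Upper bound for the size of the finite cluster of the origin above the critical point, in the
infinite lattice.
-/

set_option autoImplicit false
set_option maxHeartbeats 400000
set_option linter.unusedVariables false

namespace Pool.Agent.D0H95.CS
open Finset H974 MeasureTheory Filter Pool.Agent.H160R2.CV Pool.Agent.H160R2.CV.Quad
open Pool.Agent.Y244.PC Pool.Agent.W424.NC

theorem meas_inf : MeasurableSet {ω : sqLattice.edgeSet → Bool | (cluster0 ω).Infinite} := by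
  rw [infinite_eq]
  exact MeasurableSet.iInter fun n => meas_event _ _

/-- the finite cluster of the origin has at least `N` vertices -/
theorem fin_eq (p : unitInterval) (N : ℕ) :
    (bondLaw p).real {ω | (N : ℕ∞) ≤ (cluster0 ω).encard ∧ (cluster0 ω).Finite} =
      (bondLaw p).real {ω | Vol N (opn ω)} - theta p := by
  have e1 : {ω : sqLattice.edgeSet → Bool | (N : ℕ∞) ≤ (cluster0 ω).encard ∧
      (cluster0 ω).Finite} = {ω | Vol N (opn ω)} \ {ω | (cluster0 ω).Infinite} := by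
    ext ω
    rw [Set.mem_sdiff]
    constructor
    · rintro ⟨h1, h2⟩
      exact ⟨(InfAux.encard_iff ω N).mp h1, fun h3 => h3 h2⟩
    · rintro ⟨h1, h2⟩
      refine ⟨(InfAux.encard_iff ω N).mpr h1, ?_⟩
      by_contra h3
      exact h2 h3
  rw [e1, measureReal_sdiff _ meas_inf]
  · rfl
  · intro ω hω
    have h1 : (N : ℕ∞) ≤ (cluster0 ω).encard := by
      have : (cluster0 ω).encard = ⊤ := Set.encard_eq_top_iff.mpr hω
      rw [this]
      exact le_top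
    exact (InfAux.encard_iff ω N).mp h1

/-- conversion of the prefactor -/
theorem pref_sqrt {A : ℝ} (hA : 1 ≤ A) {h : ℕ} (hh : 1 ≤ h) {N x b : ℝ} (hN : 0 < N)
    (hx : x = kz A * (h : ℝ) ^ (-(91 / 48 : ℝ)) * N) (hx2 : 1 ≤ x) (hb : 0 < b) :
    (h : ℝ) ^ (-(5 / 48 : ℝ)) * Real.exp (-(b * Real.sqrt x)) ≤
      (8 / b ^ 2) * (kz A) ^ (-(5 / 91 : ℝ)) * (N ^ (-(5 / 91 : ℝ)) *
        Real.exp (-(b / 2 * Real.sqrt x))) := by
  have h0 : (0 : ℝ) < h := by exact_mod_cast hh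
  have hk := kz_pos hA
  have hx0 : 0 < x := by linarith
  have hs0 := Real.sqrt_nonneg x
  have hss : Real.sqrt x ^ 2 = x := Real.sq_sqrt hx0.le
  have e1 : (h : ℝ) ^ (-(5 / 48 : ℝ)) =
      (kz A) ^ (-(5 / 91 : ℝ)) * N ^ (-(5 / 91 : ℝ)) * x ^ (5 / 91 : ℝ) := by
    have e2 : x ^ (5 / 91 : ℝ) =
        (kz A) ^ (5 / 91 : ℝ) * (h : ℝ) ^ (-(5 / 48 : ℝ)) * N ^ (5 / 91 : ℝ) := by
      rw [hx, Real.mul_rpow (by positivity) hN.le, Real.mul_rpow hk.le (by positivity),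
        ← Real.rpow_mul h0.le]
      norm_num
    rw [e2, Real.rpow_neg hk.le, Real.rpow_neg hN.le]
    have := Real.rpow_pos_of_pos hk (5 / 91)
    have := Real.rpow_pos_of_pos hN (5 / 91)
    field_simp
  have e3 : x ^ (5 / 91 : ℝ) * Real.exp (-(b * Real.sqrt x)) ≤
      8 / b ^ 2 * Real.exp (-(b / 2 * Real.sqrt x)) := by
    have i1 : x ^ (5 / 91 : ℝ) ≤ x := by
      calc x ^ (5 / 91 : ℝ) ≤ x ^ (1 : ℝ) :=
            Real.rpow_le_rpow_of_exponent_le hx2 (by norm_num)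
        _ = x := Real.rpow_one x
    have i2 : x ≤ 8 / b ^ 2 * Real.exp (b / 2 * Real.sqrt x) := by
      have h3 := Real.quadratic_le_exp_of_nonneg (x := b / 2 * Real.sqrt x) (by positivity)
      have h4 : (b / 2 * Real.sqrt x) ^ 2 / 2 ≤ Real.exp (b / 2 * Real.sqrt x) := by
        have : 0 ≤ b / 2 * Real.sqrt x := by positivity
        linarith
      have h5 : 8 / b ^ 2 * ((b / 2 * Real.sqrt x) ^ 2 / 2) = x := by
        rw [mul_pow, hss]
        field_simp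
        norm_num
      calc x = 8 / b ^ 2 * ((b / 2 * Real.sqrt x) ^ 2 / 2) := h5.symm
        _ ≤ _ := mul_le_mul_of_nonneg_left h4 (by positivity)
    calc x ^ (5 / 91 : ℝ) * Real.exp (-(b * Real.sqrt x)) ≤
        (8 / b ^ 2 * Real.exp (b / 2 * Real.sqrt x)) * Real.exp (-(b * Real.sqrt x)) :=
          mul_le_mul_of_nonneg_right (i1.trans i2) (Real.exp_pos _).le
      _ = 8 / b ^ 2 * Real.exp (-(b / 2 * Real.sqrt x)) := by
          rw [mul_assoc, ← Real.exp_add]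
          congr 2
          ring
  rw [e1]
  calc (kz A) ^ (-(5 / 91 : ℝ)) * N ^ (-(5 / 91 : ℝ)) * x ^ (5 / 91 : ℝ) *
        Real.exp (-(b * Real.sqrt x))
      = (kz A) ^ (-(5 / 91 : ℝ)) * N ^ (-(5 / 91 : ℝ)) *
        (x ^ (5 / 91 : ℝ) * Real.exp (-(b * Real.sqrt x))) := by ring
    _ ≤ (kz A) ^ (-(5 / 91 : ℝ)) * N ^ (-(5 / 91 : ℝ)) *
        (8 / b ^ 2 * Real.exp (-(b / 2 * Real.sqrt x))) :=
        mul_le_mul_of_nonneg_left e3 (by positivity)
    _ = _ := by ring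

/-- upper bound above the critical point -/
theorem sup_up : ∃ c C : ℝ, 0 < c ∧ 0 < C ∧ ∀ p : unitInterval, (1 / 2 : ℝ) < p →
    ∀ N : ℕ, 1 ≤ N →
    (bondLaw p).real {ω | (N : ℕ∞) ≤ (cluster0 ω).encard ∧ (cluster0 ω).Finite} ≤
      C * (N : ℝ) ^ (-(5 / 91 : ℝ)) *
        Real.exp (-(c * Real.sqrt ((N : ℝ) * ((p : ℝ) - 1 / 2) ^ (91 / 36 : ℝ)))) := by
  obtain ⟨c1, C1, hc1, hC1, hrad⟩ := rad_fin
  obtain ⟨A, K, hA1, hK1, hscale⟩ := sup_scale
  obtain ⟨C2, hC2, hsmall⟩ := sup_small hA1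
  have hk := kz_pos hA1
  obtain ⟨k3, hk3⟩ : ∃ k3 : ℝ, k3 = kz A * K ^ (-(91 / 48 : ℝ)) := ⟨_, rfl⟩
  have hk30 : 0 < k3 := by rw [hk3]; positivity
  obtain ⟨b, hb⟩ : ∃ b : ℝ, b = min (1 / 144) (c1 / (20 * K)) := ⟨_, rfl⟩
  have hb0 : 0 < b := by rw [hb]; exact lt_min (by norm_num) (by positivity)
  have hb1 : b ≤ 1 / 144 := by rw [hb]; exact min_le_left _ _
  have hb2 : b ≤ c1 / (20 * K) := by rw [hb]; exact min_le_right _ _
  obtain ⟨C3, hC3⟩ : ∃ C3 : ℝ, C3 = C1 * A + 800 * A * (6 * Real.exp 16 + 1) := ⟨_, rfl⟩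
  have hC30 : 0 < C3 := by rw [hC3]; positivity
  obtain ⟨C4, hC4⟩ : ∃ C4 : ℝ, C4 = C3 * (8 / b ^ 2 * (kz A) ^ (-(5 / 91 : ℝ))) := ⟨_, rfl⟩
  have hC40 : 0 < C4 := by rw [hC4]; positivity
  refine ⟨b / 2 * Real.sqrt k3, C2 * Real.exp 1 + C4, by positivity, by positivity,
    fun p hp N hN => ?_⟩
  have h0 : 0 ≤ (p : ℝ) := p.2.1
  have h1 : (p : ℝ) ≤ 1 := p.2.2
  have hN0 : (0 : ℝ) < N := by exact_mod_cast hN
  have hNp : 0 < (N : ℝ) ^ (-(5 / 91 : ℝ)) := by positivity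
  obtain ⟨h, hh, hAU, hsc1, hsc2⟩ := hscale p hp h1
  obtain ⟨t, ht⟩ : ∃ t : ℝ, t = (p : ℝ) - 1 / 2 := ⟨_, rfl⟩
  have ht0 : 0 < t := by rw [ht]; linarith
  have hh0 : (0 : ℝ) < h := by exact_mod_cast hh
  have hrp := hrad p hp
  rw [fin_eq]
  rw [← ht] at hsc1 hsc2 hrp ⊢
  obtain ⟨x, hx⟩ : ∃ x : ℝ, x = kz A * (h : ℝ) ^ (-(91 / 48 : ℝ)) * N := ⟨_, rfl⟩
  have hx0 : 0 < x := by rw [hx]; positivity
  have hy : k3 * ((N : ℝ) * t ^ (91 / 36 : ℝ)) ≤ x := by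
    have e1 : (K * t ^ (-(4 / 3 : ℝ))) ^ (-(91 / 48 : ℝ)) ≤ (h : ℝ) ^ (-(91 / 48 : ℝ)) :=
      Real.rpow_le_rpow_of_nonpos hh0 hsc1 (by norm_num)
    have e2 : (K * t ^ (-(4 / 3 : ℝ))) ^ (-(91 / 48 : ℝ)) =
        K ^ (-(91 / 48 : ℝ)) * t ^ (91 / 36 : ℝ) := by
      rw [Real.mul_rpow (by linarith) (by positivity), ← Real.rpow_mul ht0.le]
      norm_num
    rw [e2] at e1
    calc k3 * ((N : ℝ) * t ^ (91 / 36 : ℝ)) =
        kz A * (K ^ (-(91 / 48 : ℝ)) * t ^ (91 / 36 : ℝ)) * N := by rw [hk3]; ring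
      _ ≤ kz A * (h : ℝ) ^ (-(91 / 48 : ℝ)) * N := by
          apply mul_le_mul_of_nonneg_right _ hN0.le
          exact mul_le_mul_of_nonneg_left e1 hk.le
      _ = x := hx.symm
  have hysq : b / 2 * Real.sqrt k3 * Real.sqrt ((N : ℝ) * t ^ (91 / 36 : ℝ)) ≤
      b / 2 * Real.sqrt x := by
    rw [mul_assoc, ← Real.sqrt_mul hk30.le]
    apply mul_le_mul_of_nonneg_left _ (by positivity)
    exact Real.sqrt_le_sqrt hy
  have hexp : Real.exp (-(b / 2 * Real.sqrt x)) ≤ Real.exp (-(b / 2 * Real.sqrt k3 *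
      Real.sqrt ((N : ℝ) * t ^ (91 / 36 : ℝ)))) := Real.exp_le_exp.mpr (neg_le_neg hysq)
  have hth := theta_nonneg p
  have hs0 := Real.sqrt_nonneg x
  have hss : Real.sqrt x ^ 2 = x := Real.sq_sqrt hx0.le
  rcases le_or_gt x 2 with hx2 | hx2
  · have i1 : (bondLaw p).real {ω | Vol N (opn ω)} ≤ C2 * (N : ℝ) ^ (-(5 / 91 : ℝ)) :=
      vol_le p N _ (fun m => hsmall p h0 h1 h hh hAU N hN (by rw [← hx]; exact hx2) (boxE m))
    have i2 : 1 ≤ Real.exp 1 * Real.exp (-(b / 2 * Real.sqrt x)) := by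
      rw [← Real.exp_add]
      apply Real.one_le_exp
      have : Real.sqrt x ≤ 2 := by
        rw [Real.sqrt_le_left (by norm_num)]
        linarith
      nlinarith
    have i3 : C2 * (N : ℝ) ^ (-(5 / 91 : ℝ)) ≤ (C2 * Real.exp 1) * (N : ℝ) ^ (-(5 / 91 : ℝ)) *
        Real.exp (-(b / 2 * Real.sqrt k3 * Real.sqrt ((N : ℝ) * t ^ (91 / 36 : ℝ)))) := by
      calc C2 * (N : ℝ) ^ (-(5 / 91 : ℝ)) ≤ C2 * (N : ℝ) ^ (-(5 / 91 : ℝ)) *
            (Real.exp 1 * Real.exp (-(b / 2 * Real.sqrt x))) :=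
            le_mul_of_one_le_right (by positivity) i2
        _ = (C2 * Real.exp 1) * (N : ℝ) ^ (-(5 / 91 : ℝ)) * Real.exp (-(b / 2 * Real.sqrt x)) := by
            ring
        _ ≤ _ := mul_le_mul_of_nonneg_left hexp (by positivity)
    have i4 : (C2 * Real.exp 1) * (N : ℝ) ^ (-(5 / 91 : ℝ)) *
        Real.exp (-(b / 2 * Real.sqrt k3 * Real.sqrt ((N : ℝ) * t ^ (91 / 36 : ℝ)))) ≤
        (C2 * Real.exp 1 + C4) * (N : ℝ) ^ (-(5 / 91 : ℝ)) *
        Real.exp (-(b / 2 * Real.sqrt k3 * Real.sqrt ((N : ℝ) * t ^ (91 / 36 : ℝ)))) := by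
      apply mul_le_mul_of_nonneg_right _ (Real.exp_pos _).le
      apply mul_le_mul_of_nonneg_right _ hNp.le
      linarith
    linarith
  · -- large sizes
    obtain ⟨R, hR⟩ : ∃ R : ℕ, R = h + ⌊Real.sqrt x / 20 * h⌋₊ := ⟨_, rfl⟩
    have hw0 : 0 ≤ Real.sqrt x / 20 * h := by positivity
    have hR1 : (R : ℝ) ≤ (1 + Real.sqrt x / 20) * h := by
      rw [hR]
      push_cast
      have := Nat.floor_le hw0
      linarith
    have hR2 : Real.sqrt x / 20 * h ≤ R := by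
      rw [hR]
      push_cast
      have h3 := Nat.lt_floor_add_one (Real.sqrt x / 20 * h)
      have h4 : (1 : ℝ) ≤ h := by exact_mod_cast hh
      linarith
    have i1 : (bondLaw p).real {ω | Vol N (opn ω)} ≤
        arm p R + Pr (fun _ => (p : ℝ)) (boxE R) (fun F => Vol N ↑F) :=
      vol_le p N _ (fun m => vol_split h0 h1 N (boxE m) R)
    have i2 := sup_box hA1 h0 h1 hh hAU (N := (N : ℝ)) hx hx2.le hR1
    have i3 := hrp R
    have i4 : arm p R ≤ A * (h : ℝ) ^ (-(5 / 48 : ℝ)) :=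
      (arm_anti h0 h1 (show h ≤ R by omega)).trans (hAU h hh (by omega))
    have i5 : b * Real.sqrt x ≤ c1 * (R * t ^ (4 / 3 : ℝ)) := by
      have htL : t ^ (-(4 / 3 : ℝ)) * t ^ (4 / 3 : ℝ) = 1 := by
        rw [← Real.rpow_add ht0]
        norm_num
      have htp : 0 < t ^ (4 / 3 : ℝ) := by positivity
      have e1 : 1 ≤ K * h * t ^ (4 / 3 : ℝ) := by
        have := mul_le_mul_of_nonneg_right hsc2 htp.le
        rw [htL] at this
        exact this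
      have e2 : Real.sqrt x / (20 * K) ≤ R * t ^ (4 / 3 : ℝ) := by
        calc Real.sqrt x / (20 * K) = Real.sqrt x / (20 * K) * 1 := by ring
          _ ≤ Real.sqrt x / (20 * K) * (K * h * t ^ (4 / 3 : ℝ)) :=
              mul_le_mul_of_nonneg_left e1 (by positivity)
          _ = (Real.sqrt x / 20 * h) * t ^ (4 / 3 : ℝ) := by field_simp
          _ ≤ R * t ^ (4 / 3 : ℝ) := mul_le_mul_of_nonneg_right hR2 htp.le
      calc b * Real.sqrt x ≤ c1 / (20 * K) * Real.sqrt x := mul_le_mul_of_nonneg_right hb2 hs0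
        _ = c1 * (Real.sqrt x / (20 * K)) := by ring
        _ ≤ _ := mul_le_mul_of_nonneg_left e2 hc1.le
    have i6 : C1 * arm p R * Real.exp (-(c1 * (R * t ^ (4 / 3 : ℝ)))) ≤
        C1 * A * ((h : ℝ) ^ (-(5 / 48 : ℝ)) * Real.exp (-(b * Real.sqrt x))) := by
      have e1 : Real.exp (-(c1 * (R * t ^ (4 / 3 : ℝ)))) ≤ Real.exp (-(b * Real.sqrt x)) :=
        Real.exp_le_exp.mpr (neg_le_neg i5)
      have e2 := arm_nonneg h0 h1 R
      calc C1 * arm p R * Real.exp (-(c1 * (R * t ^ (4 / 3 : ℝ)))) ≤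
          C1 * (A * (h : ℝ) ^ (-(5 / 48 : ℝ))) * Real.exp (-(b * Real.sqrt x)) := by
            apply mul_le_mul _ e1 (Real.exp_pos _).le (by positivity)
            exact mul_le_mul_of_nonneg_left i4 hC1.le
        _ = _ := by ring
    have i7 : Real.exp (-(x / 144)) ≤ Real.exp (-(b * Real.sqrt x)) := by
      apply Real.exp_le_exp.mpr
      have h3 : 1 ≤ Real.sqrt x := by
        rw [Real.one_le_sqrt]
        linarith
      have h4 : Real.sqrt x ≤ x := by nlinarith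
      have h5 : b * Real.sqrt x ≤ 1 / 144 * x := mul_le_mul hb1 h4 hs0 (by norm_num)
      linarith
    have hhp : 0 < (h : ℝ) ^ (-(5 / 48 : ℝ)) := by positivity
    have i8 : (bondLaw p).real {ω | Vol N (opn ω)} - theta p ≤
        C3 * ((h : ℝ) ^ (-(5 / 48 : ℝ)) * Real.exp (-(b * Real.sqrt x))) := by
      have e1 : (800 * A * (6 * Real.exp 16 + 1)) *
          ((h : ℝ) ^ (-(5 / 48 : ℝ)) * Real.exp (-(x / 144))) ≤
          (800 * A * (6 * Real.exp 16 + 1)) *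
          ((h : ℝ) ^ (-(5 / 48 : ℝ)) * Real.exp (-(b * Real.sqrt x))) := by
        apply mul_le_mul_of_nonneg_left _ (by positivity)
        exact mul_le_mul_of_nonneg_left i7 hhp.le
      rw [hC3]
      linarith
    have i9 := pref_sqrt hA1 hh hN0 hx (by linarith) hb0
    calc (bondLaw p).real {ω | Vol N (opn ω)} - theta p
        ≤ C3 * ((h : ℝ) ^ (-(5 / 48 : ℝ)) * Real.exp (-(b * Real.sqrt x))) := i8
      _ ≤ C3 * ((8 / b ^ 2) * (kz A) ^ (-(5 / 91 : ℝ)) * ((N : ℝ) ^ (-(5 / 91 : ℝ)) *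
          Real.exp (-(b / 2 * Real.sqrt x)))) := mul_le_mul_of_nonneg_left i9 hC30.le
      _ = C4 * (N : ℝ) ^ (-(5 / 91 : ℝ)) * Real.exp (-(b / 2 * Real.sqrt x)) := by
          rw [hC4]; ring
      _ ≤ C4 * (N : ℝ) ^ (-(5 / 91 : ℝ)) * Real.exp (-(b / 2 * Real.sqrt k3 *
          Real.sqrt ((N : ℝ) * t ^ (91 / 36 : ℝ)))) :=
          mul_le_mul_of_nonneg_left hexp (by positivity)
      _ ≤ _ := by
          apply mul_le_mul_of_nonneg_right _ (Real.exp_pos _).le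
          apply mul_le_mul_of_nonneg_right _ hNp.le
          have := Real.exp_pos 1
          nlinarith

end Pool.Agent.D0H95.CS
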