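import Pool.Agent.Y244.PC.ManyLow
import Pool.Agent.Y244.PC.Count

/-!
Weights of finite sets of vertices: `∏ x, r(x) ^ (-5/48)`, where `r(x)` is the distance from `x` to
the rest of the set, truncated at `s`; the sum over one more vertex.
-/

set_option autoImplicit false
set_option maxHeartbeats 400000

namespace Pool.Agent.D0H95.CS
open Finset H974 Pool.Agent.H160R2.CV

/-- distance from `x` to the rest of `X`, truncated at `s` -/
def rr (s : ℕ) (X : Finset Vtx) (x : Vtx) : ℕ := (X.erase x).fold min s (fun y => nv (y - x))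

theorem rr_le (s : ℕ) (X : Finset Vtx) (x : Vtx) : rr s X x ≤ s :=
  (Finset.fold_min_le _).mpr (Or.inl le_rfl)

theorem rr_le_of {s : ℕ} {X : Finset Vtx} {x y : Vtx} (hy : y ∈ X) (hyx : y ≠ x) :
    rr s X x ≤ nv (y - x) :=
  (Finset.fold_min_le _).mpr (Or.inr ⟨y, Finset.mem_erase.mpr ⟨hyx, hy⟩, le_rfl⟩)

theorem rr_cases {s : ℕ} {X : Finset Vtx} {x : Vtx} :
    rr s X x = s ∨ ∃ y ∈ X, y ≠ x ∧ nv (y - x) ≤ rr s X x := by
  rcases (Finset.fold_min_le (s := X.erase x) (b := s) (f := fun y => nv (y - x))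
    (rr s X x)).mp le_rfl with h | ⟨y, hy, h⟩
  · exact Or.inl (le_antisymm (rr_le _ _ _) h)
  · rw [Finset.mem_erase] at hy
    exact Or.inr ⟨y, hy.2, hy.1, h⟩

theorem nv_pos {v : Vtx} (h : v ≠ 0) : 1 ≤ nv v := by
  by_contra hc
  apply h
  unfold nv at hc
  refine Prod.ext ?_ ?_
  · show v.1 = 0
    omega
  · show v.2 = 0
    omega

theorem nv_comm' (x y : Vtx) : nv (x - y) = nv (y - x) := by
  unfold nv
  simp only [Prod.fst_sub, Prod.snd_sub]
  omega

theorem rr_pos {s : ℕ} (hs : 1 ≤ s) (X : Finset Vtx) (x : Vtx) : 1 ≤ rr s X x := by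
  rw [rr, Finset.le_fold_min]
  refine ⟨hs, ?_⟩
  intro y hy
  rw [Finset.mem_erase] at hy
  exact nv_pos (sub_ne_zero.mpr hy.1)

theorem rr_insert {s : ℕ} {X : Finset Vtx} {x z : Vtx} (hz : z ∉ X) (hx : x ∈ X) :
    rr s (insert z X) x = min (nv (z - x)) (rr s X x) := by
  have hne : z ≠ x := fun h => hz (h ▸ hx)
  unfold rr
  rw [Finset.erase_insert_of_ne hne, Finset.fold_insert]
  intro h
  exact hz (Finset.mem_of_mem_erase h)

theorem rr_insert_self {s : ℕ} {X : Finset Vtx} {z : Vtx} (hz : z ∉ X) :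
    rr s (insert z X) z = rr s X z := by
  unfold rr
  rw [Finset.erase_insert hz, Finset.erase_eq_of_notMem hz]

/-- the weight of a finite set -/
noncomputable def wt (s : ℕ) (X : Finset Vtx) : ℝ :=
  ∏ x ∈ X, ((rr s X x : ℕ) : ℝ) ^ (-(5 / 48 : ℝ))

theorem wt_pos {s : ℕ} (hs : 1 ≤ s) (X : Finset Vtx) : 0 < wt s X := by
  apply Finset.prod_pos
  intro x _
  have : (0 : ℝ) < (rr s X x : ℕ) := by exact_mod_cast rr_pos hs X x
  positivity

theorem wt_empty (s : ℕ) : wt s ∅ = 1 := Finset.prod_empty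

theorem wt_single (s : ℕ) (x : Vtx) : wt s {x} = (s : ℝ) ^ (-(5 / 48 : ℝ)) := by
  unfold wt
  rw [Finset.prod_singleton]
  congr 2
  unfold rr
  simp

/-- the vertices whose distance changes -/
def aff (s : ℕ) (X : Finset Vtx) (z : Vtx) : Finset Vtx :=
  X.filter fun x => nv (z - x) < rr s X x

theorem aff_card {s : ℕ} {X : Finset Vtx} {z : Vtx} : (aff s X z).card ≤ 4 := by
  have h : (Finset.univ : Finset (Bool × Bool)).card = 4 := by simp
  rw [← h]
  apply Finset.card_le_card_of_injOn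
    (fun x => (decide (z.1 ≤ x.1), decide (z.2 ≤ x.2))) (fun _ _ => Finset.mem_univ _)
  intro x hx y hy hxy
  have hx' : x ∈ aff s X z := hx
  have hy' : y ∈ aff s X z := hy
  unfold aff at hx' hy'
  rw [Finset.mem_filter] at hx' hy'
  simp only [Prod.mk.injEq, decide_eq_decide] at hxy
  by_contra hne
  have h1 := rr_le_of (s := s) hy'.1 (fun h => hne h.symm)
  have h2 := rr_le_of (s := s) hx'.1 hne
  have h3 := hx'.2.trans_le h1
  have h4 := hy'.2.trans_le h2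
  unfold nv at h3 h4
  simp only [Prod.fst_sub, Prod.snd_sub] at h3 h4
  omega

theorem aff_prod {s : ℕ} (hs : 1 ≤ s) {X : Finset Vtx} {z : Vtx} (hz : z ∉ X) :
    ∏ x ∈ aff s X z, (((rr s X x : ℕ) : ℝ) / nv (z - x)) ^ (5 / 48 : ℝ) ≤
      2 * ((s : ℝ) / rr s X z) ^ (5 / 48 : ℝ) := by
  have hD0 : (0 : ℝ) < rr s X z := by exact_mod_cast rr_pos hs X z
  have hDs : ((rr s X z : ℕ) : ℝ) ≤ s := by exact_mod_cast rr_le s X z
  have h1s : 1 ≤ (s : ℝ) / rr s X z := by rw [le_div_iff₀ hD0, one_mul]; exact hDs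
  have h1 : 1 ≤ ((s : ℝ) / rr s X z) ^ (5 / 48 : ℝ) := Real.one_le_rpow h1s (by norm_num)
  rcases (aff s X z).eq_empty_or_nonempty with he | hne
  · rw [he, Finset.prod_empty]
    linarith
  · obtain ⟨x0, hx0, hmin⟩ := Finset.exists_min_image (aff s X z) (fun x => nv (z - x)) hne
    have hmem : ∀ x ∈ aff s X z, x ∈ X ∧ nv (z - x) < rr s X x := by
      intro x hx
      exact Finset.mem_filter.mp hx
    have hpos : ∀ x ∈ aff s X z, (0 : ℝ) < nv (z - x) := by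
      intro x hx
      have h2 : z - x ≠ 0 := sub_ne_zero.mpr (fun h => hz (h ▸ (hmem x hx).1))
      exact_mod_cast nv_pos h2
    rw [← Finset.mul_prod_erase _ _ hx0]
    have hA : (((rr s X x0 : ℕ) : ℝ) / nv (z - x0)) ^ (5 / 48 : ℝ) ≤
        ((s : ℝ) / rr s X z) ^ (5 / 48 : ℝ) := by
      apply Real.rpow_le_rpow (by positivity) _ (by norm_num)
      apply div_le_div₀ (by positivity) _ hD0
      · have h3 : rr s X z ≤ nv (x0 - z) :=
          rr_le_of (hmem x0 hx0).1 (fun h => hz (h ▸ (hmem x0 hx0).1))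
        rw [nv_comm'] at h3
        exact_mod_cast h3
      · exact_mod_cast rr_le s X x0
    have hB : ∏ x ∈ (aff s X z).erase x0, (((rr s X x : ℕ) : ℝ) / nv (z - x)) ^ (5 / 48 : ℝ) ≤
        2 := by
      calc ∏ x ∈ (aff s X z).erase x0, (((rr s X x : ℕ) : ℝ) / nv (z - x)) ^ (5 / 48 : ℝ)
          ≤ ∏ x ∈ (aff s X z).erase x0, (2 : ℝ) ^ (5 / 48 : ℝ) := by
            apply Finset.prod_le_prod
            · intro x _
              positivity
            · intro x hx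
              rw [Finset.mem_erase] at hx
              apply Real.rpow_le_rpow (by positivity) _ (by norm_num)
              rw [div_le_iff₀ (hpos x hx.2)]
              have h4 : rr s X x ≤ nv (x0 - x) :=
                rr_le_of (hmem x0 hx0).1 (fun h => hx.1 h.symm)
              have h5 := hmin x hx.2
              have h6 : nv (x0 - x) ≤ nv (z - x0) + nv (z - x) := by
                unfold nv
                simp only [Prod.fst_sub, Prod.snd_sub]
                omega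
              have h7 : rr s X x ≤ 2 * nv (z - x) := by omega
              exact_mod_cast h7
        _ = ((2 : ℝ) ^ (5 / 48 : ℝ)) ^ ((aff s X z).erase x0).card := by
            rw [Finset.prod_const]
        _ ≤ ((2 : ℝ) ^ (5 / 48 : ℝ)) ^ 4 := by
            apply pow_le_pow_right₀ (Real.one_le_rpow (by norm_num) (by norm_num))
            exact (Finset.card_erase_le).trans aff_card
        _ = (2 : ℝ) ^ (5 / 12 : ℝ) := by
            rw [← Real.rpow_natCast, ← Real.rpow_mul (by norm_num)]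
            norm_num
        _ ≤ (2 : ℝ) ^ (1 : ℝ) := Real.rpow_le_rpow_of_exponent_le (by norm_num) (by norm_num)
        _ = 2 := Real.rpow_one 2
    calc _ ≤ ((s : ℝ) / rr s X z) ^ (5 / 48 : ℝ) * 2 := by
          apply mul_le_mul hA hB _ (by positivity)
          apply Finset.prod_nonneg
          intro x _
          positivity
      _ = _ := by ring

/-- the weight after the addition of a vertex -/
theorem wt_insert {s : ℕ} (hs : 1 ≤ s) {X : Finset Vtx} {z : Vtx} (hz : z ∉ X) :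
    wt s (insert z X) ≤
      2 * (s : ℝ) ^ (5 / 48 : ℝ) * ((rr s X z : ℕ) : ℝ) ^ (-(5 / 24 : ℝ)) * wt s X := by
  have hD0 : (0 : ℝ) < rr s X z := by exact_mod_cast rr_pos hs X z
  have hs0 : (0 : ℝ) < s := by exact_mod_cast hs
  have hr0 : ∀ x, (0 : ℝ) < ((rr s X x : ℕ) : ℝ) := fun x => by exact_mod_cast rr_pos hs X x
  unfold wt
  rw [Finset.prod_insert hz, rr_insert_self hz]
  have e1 : ∏ x ∈ X, ((rr s (insert z X) x : ℕ) : ℝ) ^ (-(5 / 48 : ℝ)) =
      (∏ x ∈ aff s X z, (((rr s X x : ℕ) : ℝ) / nv (z - x)) ^ (5 / 48 : ℝ)) *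
        ∏ x ∈ X, ((rr s X x : ℕ) : ℝ) ^ (-(5 / 48 : ℝ)) := by
    have e2 : ∏ x ∈ aff s X z, (((rr s X x : ℕ) : ℝ) / nv (z - x)) ^ (5 / 48 : ℝ) =
        ∏ x ∈ X, (if nv (z - x) < rr s X x then
          (((rr s X x : ℕ) : ℝ) / nv (z - x)) ^ (5 / 48 : ℝ) else 1) := by
      unfold aff
      rw [Finset.prod_filter]
    rw [e2, ← Finset.prod_mul_distrib]
    apply Finset.prod_congr rfl
    intro x hx
    rw [rr_insert hz hx]
    have hnv : (0 : ℝ) < nv (z - x) := by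
      have h2 : z - x ≠ 0 := sub_ne_zero.mpr (fun h => hz (h ▸ hx))
      exact_mod_cast nv_pos h2
    by_cases h : nv (z - x) < rr s X x
    · rw [if_pos h, min_eq_left h.le, Real.div_rpow (hr0 x).le hnv.le, Real.rpow_neg hnv.le,
        Real.rpow_neg (hr0 x).le]
      have := Real.rpow_pos_of_pos (hr0 x) (5 / 48)
      have := Real.rpow_pos_of_pos hnv (5 / 48)
      field_simp
    · rw [if_neg h, min_eq_right (by omega), one_mul]
  rw [e1]
  have h3 := aff_prod hs hz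
  have hw : 0 < ∏ x ∈ X, ((rr s X x : ℕ) : ℝ) ^ (-(5 / 48 : ℝ)) := wt_pos hs X
  have e4 : ((rr s X z : ℕ) : ℝ) ^ (-(5 / 48 : ℝ)) * ((s : ℝ) / rr s X z) ^ (5 / 48 : ℝ) =
      (s : ℝ) ^ (5 / 48 : ℝ) * ((rr s X z : ℕ) : ℝ) ^ (-(5 / 24 : ℝ)) := by
    rw [Real.div_rpow hs0.le hD0.le, Real.rpow_neg hD0.le, Real.rpow_neg hD0.le]
    have e5 : ((rr s X z : ℕ) : ℝ) ^ (5 / 24 : ℝ) =
        ((rr s X z : ℕ) : ℝ) ^ (5 / 48 : ℝ) * ((rr s X z : ℕ) : ℝ) ^ (5 / 48 : ℝ) := by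
      rw [← Real.rpow_add hD0]
      norm_num
    rw [e5]
    have := Real.rpow_pos_of_pos hD0 (5 / 48)
    field_simp
  calc _ ≤ ((rr s X z : ℕ) : ℝ) ^ (-(5 / 48 : ℝ)) *
        ((2 * ((s : ℝ) / rr s X z) ^ (5 / 48 : ℝ)) *
          ∏ x ∈ X, ((rr s X x : ℕ) : ℝ) ^ (-(5 / 48 : ℝ))) := by
        apply mul_le_mul_of_nonneg_left _ (by positivity)
        exact mul_le_mul_of_nonneg_right h3 hw.le
    _ = 2 * (((rr s X z : ℕ) : ℝ) ^ (-(5 / 48 : ℝ)) * ((s : ℝ) / rr s X z) ^ (5 / 48 : ℝ)) *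
          ∏ x ∈ X, ((rr s X x : ℕ) : ℝ) ^ (-(5 / 48 : ℝ)) := by ring
    _ = _ := by rw [e4]; ring

/-- truncated power -/
noncomputable def gs (s k : ℕ) : ℝ := if 1 ≤ k ∧ k ≤ s then (k : ℝ) ^ (-(5 / 24 : ℝ)) else 0

theorem gs_nonneg (s k : ℕ) : 0 ≤ gs s k := by
  unfold gs
  split_ifs
  · positivity
  · exact le_rfl

theorem gs_sum {s : ℕ} (hs : 1 ≤ s) : ∑ k ∈ range (s + 1), ((k : ℝ) + 1) * gs s k ≤
    2 * (s : ℝ) ^ (43 / 24 : ℝ) := by
  have hs0 : (0 : ℝ) < s := by exact_mod_cast hs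
  have h1 : ∀ k ∈ range (s + 1), ((k : ℝ) + 1) * gs s k ≤
      if k = 0 then 0 else 2 * (s : ℝ) ^ (19 / 24 : ℝ) := by
    intro k hk
    rw [Finset.mem_range] at hk
    unfold gs
    by_cases h0 : k = 0
    · rw [if_neg (by omega), if_pos h0, mul_zero]
    · rw [if_pos (by omega), if_neg h0]
      have hk1 : (1 : ℝ) ≤ k := by exact_mod_cast (by omega : 1 ≤ k)
      have hk0 : (0 : ℝ) < k := by linarith
      have hks : (k : ℝ) ≤ s := by exact_mod_cast (by omega : k ≤ s)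
      calc ((k : ℝ) + 1) * (k : ℝ) ^ (-(5 / 24 : ℝ)) ≤ (2 * k) * (k : ℝ) ^ (-(5 / 24 : ℝ)) := by
            apply mul_le_mul_of_nonneg_right (by linarith) (by positivity)
        _ = 2 * (k : ℝ) ^ (19 / 24 : ℝ) := by
            rw [mul_assoc]
            congr 1
            nth_rewrite 1 [← Real.rpow_one (k : ℝ)]
            rw [← Real.rpow_add hk0]
            norm_num
        _ ≤ 2 * (s : ℝ) ^ (19 / 24 : ℝ) := by
            have := Real.rpow_le_rpow hk0.le hks (by norm_num : (0:ℝ) ≤ 19 / 24)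
            linarith
  refine (Finset.sum_le_sum h1).trans ?_
  rw [Finset.sum_range_succ']
  simp only [Nat.add_eq_zero_iff, one_ne_zero, and_false, if_false, if_true, add_zero]
  rw [Finset.sum_const, Finset.card_range, nsmul_eq_mul]
  have e : (s : ℝ) ^ (43 / 24 : ℝ) = s * (s : ℝ) ^ (19 / 24 : ℝ) := by
    nth_rewrite 2 [← Real.rpow_one (s : ℝ)]
    rw [← Real.rpow_add hs0]
    norm_num
  rw [e]
  apply le_of_eq
  ring

/-- the sum over the vertices near `x` -/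
theorem gs_near {s : ℕ} (hs : 1 ≤ s) (B : Finset Vtx) (x : Vtx) :
    ∑ z ∈ B, gs s (nv (z - x)) ≤ 16 * (s : ℝ) ^ (43 / 24 : ℝ) := by
  classical
  have h1 : ∑ z ∈ B, gs s (nv (z - x)) ≤ ∑ z ∈ (bx s).map (addRightEmbedding x),
      gs s (nv (z - x)) := by
    rw [← Finset.sum_filter_add_sum_filter_not B (fun z => nv (z - x) ≤ s)]
    have h2 : ∑ z ∈ B.filter (fun z => ¬ nv (z - x) ≤ s), gs s (nv (z - x)) = 0 := by
      apply Finset.sum_eq_zero
      intro z hz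
      rw [Finset.mem_filter] at hz
      unfold gs
      rw [if_neg (by omega)]
    rw [h2, add_zero]
    apply Finset.sum_le_sum_of_subset_of_nonneg
    · intro z hz
      rw [Finset.mem_filter] at hz
      rw [Finset.mem_map]
      refine ⟨z - x, ?_, ?_⟩
      · exact VolAux.mem_bx.mpr hz.2
      · show z - x + x = z
        abel
    · intro z _ _
      exact gs_nonneg _ _
  refine h1.trans ?_
  rw [Finset.sum_map]
  have h3 : ∑ z ∈ bx s, gs s (nv ((addRightEmbedding x) z - x)) = ∑ z ∈ bx s, gs s (nv z) := by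
    apply Finset.sum_congr rfl
    intro z _
    show gs s (nv (z + x - x)) = _
    rw [add_sub_cancel_right]
  rw [h3]
  have h4 := sum_bx s (gs s) (gs_nonneg s)
  have h5 := gs_sum hs
  linarith

/-- the constant of the step -/
noncomputable def DD (s : ℕ) (B : Finset Vtx) : ℝ :=
  33 * ((s : ℝ) ^ (91 / 48 : ℝ) + B.card * (s : ℝ) ^ (-(5 / 48 : ℝ)))

theorem DD_pos {s : ℕ} (hs : 1 ≤ s) (B : Finset Vtx) : 0 < DD s B := by
  have hs0 : (0 : ℝ) < s := by exact_mod_cast hs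
  unfold DD
  positivity

/-- the sum over the new vertex -/
theorem wt_step {s : ℕ} (hs : 1 ≤ s) (B X : Finset Vtx) (hX : X.Nonempty) :
    ∑ z ∈ B, wt s (insert z X) ≤ DD s B * (X.card * wt s X) := by
  classical
  have hs0 : (0 : ℝ) < s := by exact_mod_cast hs
  have hs1 : (1 : ℝ) ≤ s := by exact_mod_cast hs
  have hw := wt_pos hs X
  have hc1 : (1 : ℝ) ≤ X.card := by exact_mod_cast hX.card_pos
  have hD : ∀ z, z ∉ X → ((rr s X z : ℕ) : ℝ) ^ (-(5 / 24 : ℝ)) ≤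
      (s : ℝ) ^ (-(5 / 24 : ℝ)) + ∑ x ∈ X, gs s (nv (z - x)) := by
    intro z hz
    rcases rr_cases (s := s) (X := X) (x := z) with h | ⟨y, hy, hyz, h⟩
    · rw [h]
      have : 0 ≤ ∑ x ∈ X, gs s (nv (z - x)) := Finset.sum_nonneg fun _ _ => gs_nonneg _ _
      linarith
    · have h1 : gs s (nv (z - y)) ≤ ∑ x ∈ X, gs s (nv (z - x)) :=
        Finset.single_le_sum (f := fun x => gs s (nv (z - x))) (fun _ _ => gs_nonneg _ _) hy
      have h2 : 1 ≤ nv (y - z) := nv_pos (sub_ne_zero.mpr hyz)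
      have h3 : nv (y - z) ≤ s := h.trans (rr_le _ _ _)
      have h4 : ((rr s X z : ℕ) : ℝ) ^ (-(5 / 24 : ℝ)) ≤ gs s (nv (z - y)) := by
        unfold gs
        rw [nv_comm' z y, if_pos ⟨h2, h3⟩]
        apply Real.rpow_le_rpow_of_nonpos _ _ (by norm_num)
        · exact_mod_cast h2
        · exact_mod_cast h
      have h5 : 0 ≤ (s : ℝ) ^ (-(5 / 24 : ℝ)) := by positivity
      linarith
  have hz : ∀ z ∈ B, wt s (insert z X) ≤ (if z ∈ X then wt s X else 0) +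
      2 * (s : ℝ) ^ (5 / 48 : ℝ) * wt s X *
        ((s : ℝ) ^ (-(5 / 24 : ℝ)) + ∑ x ∈ X, gs s (nv (z - x))) := by
    intro z _
    have h6 : 0 ≤ ∑ x ∈ X, gs s (nv (z - x)) := Finset.sum_nonneg fun _ _ => gs_nonneg _ _
    by_cases hzX : z ∈ X
    · rw [if_pos hzX, Finset.insert_eq_of_mem hzX]
      have : 0 ≤ 2 * (s : ℝ) ^ (5 / 48 : ℝ) * wt s X *
        ((s : ℝ) ^ (-(5 / 24 : ℝ)) + ∑ x ∈ X, gs s (nv (z - x))) := by positivity
      linarith
    · rw [if_neg hzX, zero_add]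
      refine (wt_insert hs hzX).trans ?_
      have h7 : 0 ≤ 2 * (s : ℝ) ^ (5 / 48 : ℝ) * wt s X := by positivity
      calc _ = 2 * (s : ℝ) ^ (5 / 48 : ℝ) * wt s X * ((rr s X z : ℕ) : ℝ) ^ (-(5 / 24 : ℝ)) := by
            ring
        _ ≤ _ := mul_le_mul_of_nonneg_left (hD z hzX) h7
  refine (Finset.sum_le_sum hz).trans ?_
  rw [Finset.sum_add_distrib]
  have h8 : ∑ z ∈ B, (if z ∈ X then wt s X else 0) ≤ X.card * wt s X := by
    rw [← Finset.sum_filter, Finset.sum_const, nsmul_eq_mul]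
    apply mul_le_mul_of_nonneg_right _ hw.le
    have : (B.filter fun z => z ∈ X) ⊆ X := by
      intro z hz
      exact (Finset.mem_filter.mp hz).2
    exact_mod_cast Finset.card_le_card this
  have h9 : ∑ z ∈ B, ((s : ℝ) ^ (-(5 / 24 : ℝ)) + ∑ x ∈ X, gs s (nv (z - x))) ≤
      B.card * (s : ℝ) ^ (-(5 / 24 : ℝ)) + X.card * (16 * (s : ℝ) ^ (43 / 24 : ℝ)) := by
    rw [Finset.sum_add_distrib, Finset.sum_const, nsmul_eq_mul, Finset.sum_comm]
    have h10 : ∑ x ∈ X, ∑ z ∈ B, gs s (nv (z - x)) ≤ ∑ x ∈ X, 16 * (s : ℝ) ^ (43 / 24 : ℝ) :=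
      Finset.sum_le_sum fun x _ => gs_near hs B x
    rw [Finset.sum_const, nsmul_eq_mul] at h10
    linarith
  rw [← Finset.mul_sum]
  have e1 : (s : ℝ) ^ (5 / 48 : ℝ) * (s : ℝ) ^ (-(5 / 24 : ℝ)) = (s : ℝ) ^ (-(5 / 48 : ℝ)) := by
    rw [← Real.rpow_add hs0]; norm_num
  have e2 : (s : ℝ) ^ (5 / 48 : ℝ) * (s : ℝ) ^ (43 / 24 : ℝ) = (s : ℝ) ^ (91 / 48 : ℝ) := by
    rw [← Real.rpow_add hs0]; norm_num
  have h11 : 1 ≤ (s : ℝ) ^ (91 / 48 : ℝ) := Real.one_le_rpow hs1 (by norm_num)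
  have h12 : 0 ≤ (B.card : ℝ) * (s : ℝ) ^ (-(5 / 48 : ℝ)) := by positivity
  calc _ ≤ X.card * wt s X + 2 * (s : ℝ) ^ (5 / 48 : ℝ) * wt s X *
        (B.card * (s : ℝ) ^ (-(5 / 24 : ℝ)) + X.card * (16 * (s : ℝ) ^ (43 / 24 : ℝ))) := by
        apply add_le_add h8
        exact mul_le_mul_of_nonneg_left h9 (by positivity)
    _ = wt s X * (X.card * 1 + 2 * (B.card * ((s : ℝ) ^ (5 / 48 : ℝ) * (s : ℝ) ^ (-(5 / 24 : ℝ)))) +
          32 * X.card * ((s : ℝ) ^ (5 / 48 : ℝ) * (s : ℝ) ^ (43 / 24 : ℝ))) := by ring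
    _ = wt s X * (X.card * 1 + 2 * (B.card * (s : ℝ) ^ (-(5 / 48 : ℝ))) +
          32 * X.card * (s : ℝ) ^ (91 / 48 : ℝ)) := by rw [e1, e2]
    _ ≤ wt s X * (X.card * (s : ℝ) ^ (91 / 48 : ℝ) +
          33 * (X.card * (B.card * (s : ℝ) ^ (-(5 / 48 : ℝ)))) +
          32 * X.card * (s : ℝ) ^ (91 / 48 : ℝ)) := by
        apply mul_le_mul_of_nonneg_left _ hw.le
        have h13 : (X.card : ℝ) * 1 ≤ X.card * (s : ℝ) ^ (91 / 48 : ℝ) :=
          mul_le_mul_of_nonneg_left h11 (by positivity)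
        have h14 : 1 * ((B.card : ℝ) * (s : ℝ) ^ (-(5 / 48 : ℝ))) ≤
            X.card * (B.card * (s : ℝ) ^ (-(5 / 48 : ℝ))) :=
          mul_le_mul_of_nonneg_right hc1 h12
        have h15 : 0 ≤ (X.card : ℝ) * (B.card * (s : ℝ) ^ (-(5 / 48 : ℝ))) := by positivity
        linarith
    _ = DD s B * (X.card * wt s X) := by unfold DD; ring

end Pool.Agent.D0H95.CS
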